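import Pool.Agent.Lib.MP_93793a_nt.M2
import Pool.Agent.Lib.MP_d9bc60_nt.AQ.QSel

/-! The Selberg sieve for the densities supported on the primes `1` modulo `3`. -/

set_option autoImplicit false

namespace Pool.Agent.Lib.MP_93793a_nt

open Finset Pool.Agent.Lib.MP_d9bc60_nt Pool.Agent.Lib.MP_d9bc60_nt.UV Pool.Agent.Lib.MP_d9bc60_nt.AP

theorem mod3_cases {p : ℕ} (hp : p.Prime) (h3 : p ≠ 3) : p % 3 = 1 ∨ p % 3 = 2 := by
  have h6 : p % 3 ≠ 0 := by
    intro h0
    exact h3 (((Nat.prime_dvd_prime_iff_eq Nat.prime_three hp).1 (Nat.dvd_of_mod_eq_zero h0)).symm)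
  omega

theorem t23_nu (ν : ℕ → ℝ) (hν : DensE ν) (p : ℕ) (hp : p.Prime) (h3 : 3 ≤ p) : ν p ≤ 5 / p := by
  by_cases h5 : 5 ≤ p
  · rcases mod3_cases hp (by omega) with h | h
    · refine (hν.le1 p hp h).trans ?_
      have h6 : (5 : ℝ) ≤ p := by exact_mod_cast h5
      rw [div_le_div_iff₀ (by linarith) (by linarith)]
      linarith
    · rw [hν.le2 p hp h5 h]
      positivity
  · have h7 : p = 3 := by
      have h8 : p ≠ 4 := by
        rintro rfl
        revert hp
        decide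
      omega
    subst h7
    refine hν.three.trans ?_
    norm_num

open Classical in
/-- the sieve -/
noncomputable def t21_sieve {ι : Type} (I : Finset ι) (w : ι → ℝ) (a : ι → ℕ) (X z : ℝ)
    (ν : ℕ → ℝ) (hw : ∀ i, 0 ≤ w i) (hν : DensE ν) : BoundingSieve where
  support := I.image a
  prodPrimes := ∏ p ∈ t01_pr z ν, p
  prodPrimes_squarefree := t01_sqf _ fun p hp => ((t01_mem z ν p).1 hp).2.1
  weights := fun n => ∑ i ∈ I.filter (fun i => a i = n), w i
  weights_nonneg := fun _ => Finset.sum_nonneg fun i _ => hw i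
  totalMass := X
  nu := t01_nu ν
  nu_mult := ArithmeticFunction.IsMultiplicative.prodPrimeFactors _
  nu_pos_of_prime := by
    intro p hp hpD
    rw [t01_nu_prime ν p hp]
    exact ((t01_mem z ν p).1 (t01_prime_dvd z ν p hp hpD)).2.2.2
  nu_lt_one_of_prime := by
    intro p hp hpD
    rw [t01_nu_prime ν p hp]
    have h := ((t01_mem z ν p).1 (t01_prime_dvd z ν p hp hpD)).2.2.1
    have := k3_le ν hν p hp h
    linarith

theorem selberg_idxE {ι : Type} (I : Finset ι) (w : ι → ℝ) (a : ι → ℕ) (X z : ℝ) (ν : ℕ → ℝ)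
    (hw : ∀ i, 0 ≤ w i) (hX : 0 ≤ X) (hν : DensE ν) (x : ℕ) (hx : 1 ≤ x) :
    Ssum I w a z ≤ X / (∑ d ∈ Dset z x, gS ν d) +
      ∑ d ∈ Dset z ((x : ℝ) ^ 2), (d.divisors.card : ℝ) ^ 2 * Rem I w a X ν d := by
  classical
  set s := t21_sieve I w a X z ν hw hν with hs
  have hmain := Sieve.selberg s x hx
  have hPdef : s.prodPrimes = ∏ p ∈ t01_pr z ν, p := rfl
  have hP0 : s.prodPrimes ≠ 0 := s.prodPrimes_squarefree.ne_zero
  have hPp : ∀ p : ℕ, p.Prime → p ∣ s.prodPrimes → p ∈ t01_pr z ν := fun p hp h =>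
    t01_prime_dvd z ν p hp h
  -- terms
  have hterm : ∀ e, e ∣ s.prodPrimes → s.selbergTerms e = gS ν e := by
    intro e he
    have hesq : Squarefree e := Squarefree.squarefree_of_dvd he s.prodPrimes_squarefree
    rw [BoundingSieve.selbergTerms_apply]
    show t01_nu ν e * ∏ p ∈ e.primeFactors, (1 - t01_nu ν p)⁻¹ = _
    rw [t01_nu_apply ν e hesq.ne_zero, ← Finset.prod_mul_distrib]
    unfold gS
    apply Finset.prod_congr rfl
    intro p hp
    rw [t01_nu_prime ν p (Nat.prime_of_mem_primeFactors hp), div_eq_mul_inv]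
  have hSS : Sieve.SS s x = ∑ d ∈ Dset z x, gS ν d := by
    unfold Sieve.SS
    rw [Finset.sum_congr rfl fun e he =>
      hterm e (Nat.dvd_of_mem_divisors (Finset.mem_filter.1 he).1)]
    apply Finset.sum_subset
    · intro d hd
      rw [Finset.mem_filter, Nat.mem_divisors] at hd
      unfold Dset
      rw [Finset.mem_filter, Finset.mem_Icc, Nat.floor_natCast]
      refine ⟨⟨Nat.pos_of_dvd_of_pos hd.1.1 (Nat.pos_of_ne_zero hP0), hd.2⟩,
        Squarefree.squarefree_of_dvd hd.1.1 s.prodPrimes_squarefree, ?_⟩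
      intro p hp hpd
      have h1 := (t01_mem z ν p).1 (hPp p hp (hpd.trans hd.1.1))
      exact ⟨h1.2.2.1, h1.1⟩
    · intro d hd hd2
      unfold Dset at hd
      rw [Finset.mem_filter, Finset.mem_Icc, Nat.floor_natCast] at hd
      obtain ⟨⟨hd1, hdx⟩, hdsq, hdp⟩ := hd
      have h1 : ¬ d ∣ s.prodPrimes := by
        intro h
        exact hd2 (Finset.mem_filter.2 ⟨Nat.mem_divisors.2 ⟨h, hP0⟩, hdx⟩)
      have h2 : ∃ p ∈ d.primeFactors, p ∉ t01_pr z ν := by
        by_contra h3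
        push Not at h3
        apply h1
        rw [← Nat.prod_primeFactors_of_squarefree hdsq, hPdef]
        exact Finset.prod_dvd_prod_of_subset _ _ _ h3
      obtain ⟨p, hp, hpn⟩ := h2
      have hpp := Nat.prime_of_mem_primeFactors hp
      have h3 := hdp p hpp (Nat.dvd_of_mem_primeFactors hp)
      have h4 : ν p = 0 := by
        rcases (hν.nonneg p).lt_or_eq with h5 | h5
        · exact absurd ((t01_mem z ν p).2 ⟨h3.2, hpp, h3.1, h5⟩) hpn
        · exact h5.symm
      unfold gS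
      exact Finset.prod_eq_zero hp (by rw [h4, zero_div])
  have hM : s.totalMass * (Sieve.SS s x)⁻¹ = X / (∑ d ∈ Dset z x, gS ν d) := by
    rw [hSS, div_eq_mul_inv]
    rfl
  -- the remainder
  have hrem : ∀ e, e ∣ s.prodPrimes → |s.rem e| = Rem I w a X ν e := by
    intro e he
    have hesq : Squarefree e := Squarefree.squarefree_of_dvd he s.prodPrimes_squarefree
    have h1 : s.rem e = (∑ v ∈ I.image a, if e ∣ v then
      ∑ i ∈ I.filter (fun i => a i = v), w i else 0) - t01_nu ν e * X := rfl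
    rw [h1, t01_fib I w a (fun v => e ∣ v), t01_nu_apply ν e hesq.ne_zero]
    unfold Rem
    congr 2
    rw [← k3_prod ν hν e.primeFactors (fun p hp => Nat.prime_of_mem_primeFactors hp),
      Nat.prod_primeFactors_of_squarefree hesq]
  have hE : ∑ d₁ ∈ (s.prodPrimes.divisors).filter (· ≤ x),
      ∑ d₂ ∈ (s.prodPrimes.divisors).filter (· ≤ x), |s.rem (Nat.lcm d₁ d₂)| ≤
      ∑ d ∈ Dset z ((x : ℝ) ^ 2), (d.divisors.card : ℝ) ^ 2 * Rem I w a X ν d := by
    rw [← Finset.sum_product']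
    set A := (s.prodPrimes.divisors).filter (· ≤ x) with hA
    have hmaps : ∀ q ∈ A ×ˢ A, Nat.lcm q.1 q.2 ∈ Dset z ((x : ℝ) ^ 2) := by
      intro q hq
      rw [Finset.mem_product, hA, Finset.mem_filter, Finset.mem_filter, Nat.mem_divisors,
        Nat.mem_divisors] at hq
      have hl : Nat.lcm q.1 q.2 ∣ s.prodPrimes := Nat.lcm_dvd hq.1.1.1 hq.2.1.1
      have hpos := Nat.pos_of_dvd_of_pos hl (Nat.pos_of_ne_zero hP0)
      unfold Dset
      rw [Finset.mem_filter, Finset.mem_Icc]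
      refine ⟨⟨hpos, ?_⟩, Squarefree.squarefree_of_dvd hl s.prodPrimes_squarefree, ?_⟩
      · have h1 : ⌊((x : ℝ) ^ 2)⌋₊ = x * x := by
          rw [show ((x : ℝ) ^ 2) = ((x * x : ℕ) : ℝ) by push_cast; ring, Nat.floor_natCast]
        rw [h1]
        have h2 : 0 < q.1 * q.2 := Nat.mul_pos
          (Nat.pos_of_dvd_of_pos hq.1.1.1 (Nat.pos_of_ne_zero hP0))
          (Nat.pos_of_dvd_of_pos hq.2.1.1 (Nat.pos_of_ne_zero hP0))
        exact (Nat.le_of_dvd h2 (Nat.lcm_dvd_mul _ _)).trans (Nat.mul_le_mul hq.1.2 hq.2.2)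
      · intro p hp hpd
        have h1 := (t01_mem z ν p).1 (hPp p hp (hpd.trans hl))
        exact ⟨h1.2.2.1, h1.1⟩
    rw [← Finset.sum_fiberwise_of_maps_to hmaps]
    refine Finset.sum_le_sum fun d hd => ?_
    have h1 : ∑ q ∈ (A ×ˢ A).filter (fun q => Nat.lcm q.1 q.2 = d), |s.rem (Nat.lcm q.1 q.2)| =
        ∑ q ∈ (A ×ˢ A).filter (fun q => Nat.lcm q.1 q.2 = d), Rem I w a X ν d := by
      refine Finset.sum_congr rfl fun q hq => ?_
      rw [Finset.mem_filter, Finset.mem_product, hA, Finset.mem_filter, Finset.mem_filter,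
        Nat.mem_divisors, Nat.mem_divisors] at hq
      rw [hrem _ (Nat.lcm_dvd hq.1.1.1.1 hq.1.2.1.1), hq.2]
    rw [h1, Finset.sum_const, nsmul_eq_mul]
    refine mul_le_mul_of_nonneg_right ?_ (abs_nonneg _)
    have hd0 : d ≠ 0 := by
      unfold Dset at hd
      rw [Finset.mem_filter, Finset.mem_Icc] at hd
      omega
    have h2 : (A ×ˢ A).filter (fun q => Nat.lcm q.1 q.2 = d) ⊆ d.divisors ×ˢ d.divisors := by
      intro q hq
      rw [Finset.mem_filter] at hq
      rw [Finset.mem_product, Nat.mem_divisors, Nat.mem_divisors]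
      exact ⟨⟨hq.2 ▸ Nat.dvd_lcm_left _ _, hd0⟩, ⟨hq.2 ▸ Nat.dvd_lcm_right _ _, hd0⟩⟩
    have h3 := Finset.card_le_card h2
    rw [Finset.card_product] at h3
    rw [sq]
    exact_mod_cast h3
  -- the sifted sum
  have hsift : Ssum I w a z ≤ s.siftedSum := by
    have h1 : s.siftedSum = ∑ v ∈ I.image a, (if Nat.Coprime s.prodPrimes v then
      ∑ i ∈ I.filter (fun i => a i = v), w i else 0) := rfl
    rw [h1, t01_fib I w a (fun v => Nat.Coprime s.prodPrimes v)]
    unfold Ssum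
    refine Finset.sum_le_sum_of_subset_of_nonneg ?_ (fun i _ _ => hw i)
    intro i hi
    rw [Finset.mem_filter] at hi ⊢
    refine ⟨hi.1, ?_⟩
    rw [hPdef]
    refine Nat.Coprime.prod_left fun p hp => ?_
    have h2 := (t01_mem z ν p).1 hp
    exact (Nat.Prime.coprime_iff_not_dvd h2.2.1).2 (hi.2 p h2.2.1 h2.2.2.1 h2.1)
  rw [hM] at hmain
  linarith

theorem t22_gS_nonneg {ν : ℕ → ℝ} (hν : DensE ν) {z x : ℝ} {d : ℕ} (hd : d ∈ Dset z x) :
    0 ≤ gS ν d := by
  classical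
  unfold gS
  unfold Dset at hd
  rw [Finset.mem_filter] at hd
  apply Finset.prod_nonneg
  intro p hp
  have hp' := Nat.mem_primeFactors.1 hp
  have h1 := hd.2.2 p hp'.1 hp'.2.1
  have h2 := k3_le ν hν p hp'.1 h1.1
  exact div_nonneg (hν.nonneg p) (by linarith)

/-- Proof. Let `𝒫` be the primes in `[3,z)`, `G = ∏_{p ∈ 𝒫} (1 + g(p)) = 1/V` the sum of `gS ν d` over all
squarefree `d` with prime factors in `𝒫` (the divisors of `∏ 𝒫`). The `d > x` contribute at most
`∑ g(d) (d/x)^κ = x^(-κ) ∏ (1 + g(p) p^κ)`, `κ = η/log z`, and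
`(1 + g p^κ)/(1 + g) = 1 + ν(p)(p^κ - 1) ≤ exp(ν(p)(p^κ-1))` as `g/(1+g) = ν`. -/
theorem ss_lowerE (ν : ℕ → ℝ) (hν : DensE ν) (z x η : ℝ) (hz : 3 < z) (hx : 1 ≤ x) (hη : 0 < η) :
    (1 - Real.exp (-(η * (Real.log x / Real.log z)) +
      ∑ p ∈ prs 3 z, ν p * ((p : ℝ) ^ (η / Real.log z) - 1))) / VV ν z ≤
      ∑ d ∈ Dset z x, gS ν d := by
  classical
  set κ : ℝ := η / Real.log z with hκ
  have hlogz : 0 < Real.log z := Real.log_pos (by linarith)
  have hκ0 : 0 < κ := div_pos hη hlogz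
  have hx0 : 0 < x := by linarith
  set g : ℕ → ℝ := fun p => ν p / (1 - ν p) with hg
  have hle : ∀ p ∈ prs 3 z, ν p ≤ 3 / 4 := fun p hp =>
    k3_le ν hν p (t02_mem_prs.1 hp).1 (t02_mem_prs.1 hp).2.1
  have hg0 : ∀ p ∈ prs 3 z, 0 ≤ g p := fun p hp =>
    div_nonneg (hν.nonneg p) (by have := hle p hp; linarith)
  have hp0 : ∀ p ∈ prs 3 z, (0 : ℝ) < p := fun p hp => by
    have := (t02_mem_prs.1 hp).1.pos
    exact_mod_cast this
  have hVpos : 0 < VV ν z := by
    rw [t02_VV]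
    apply Finset.prod_pos
    intro p hp
    have := hle p hp
    linarith
  -- the full sum
  have hfull : ∑ S ∈ (prs 3 z).powerset, ∏ p ∈ S, g p = 1 / VV ν z := by
    rw [← Finset.prod_one_add, t02_VV, one_div, ← Finset.prod_inv_distrib]
    refine Finset.prod_congr rfl fun p hp => ?_
    have h1 := hle p hp
    have h2 : (1 : ℝ) - ν p ≠ 0 := by linarith
    rw [hg]
    field_simp
    ring
  -- the small ones
  have hsmall : ∑ S ∈ (prs 3 z).powerset.filter (fun S => ((∏ p ∈ S, p : ℕ) : ℝ) ≤ x), ∏ p ∈ S, g p ≤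
      ∑ d ∈ Dset z x, gS ν d := by
    have hinj : Set.InjOn (fun S : Finset ℕ => ∏ p ∈ S, p)
        ((prs 3 z).powerset.filter (fun S => ((∏ p ∈ S, p : ℕ) : ℝ) ≤ x) : Set (Finset ℕ)) := by
      intro S hS S' hS' he
      rw [Finset.mem_coe, Finset.mem_filter, Finset.mem_powerset] at hS hS'
      have h1 := t02_primeFactors hS.1
      have h2 := t02_primeFactors hS'.1
      rw [← h1, ← h2]
      exact congrArg Nat.primeFactors he
    have h1 : ∑ S ∈ (prs 3 z).powerset.filter (fun S => ((∏ p ∈ S, p : ℕ) : ℝ) ≤ x), ∏ p ∈ S, g p =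
        ∑ d ∈ ((prs 3 z).powerset.filter (fun S => ((∏ p ∈ S, p : ℕ) : ℝ) ≤ x)).image
          (fun S : Finset ℕ => ∏ p ∈ S, p), gS ν d := by
      rw [Finset.sum_image hinj]
      refine Finset.sum_congr rfl fun S hS => ?_
      rw [Finset.mem_filter, Finset.mem_powerset] at hS
      unfold gS
      rw [t02_primeFactors hS.1]
    rw [h1]
    apply Finset.sum_le_sum_of_subset_of_nonneg
    · intro d hd
      obtain ⟨S, hS, rfl⟩ := Finset.mem_image.1 hd
      rw [Finset.mem_filter, Finset.mem_powerset] at hS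
      unfold Dset
      rw [Finset.mem_filter, Finset.mem_Icc]
      have hpos : 0 < ∏ p ∈ S, p :=
        Finset.prod_pos fun p hp => (t02_mem_prs.1 (hS.1 hp)).1.pos
      refine ⟨⟨hpos, Nat.le_floor hS.2⟩, t02_squarefree hS.1, ?_⟩
      intro p hp hpd
      have h2 : p ∈ (∏ p ∈ S, p).primeFactors :=
        Nat.mem_primeFactors.2 ⟨hp, hpd, hpos.ne'⟩
      rw [t02_primeFactors hS.1] at h2
      exact (t02_mem_prs.1 (hS.1 h2)).2
    · intro d hd _
      exact t22_gS_nonneg hν hd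
  -- the large ones
  have hlarge : ∑ S ∈ (prs 3 z).powerset.filter (fun S => ¬ ((∏ p ∈ S, p : ℕ) : ℝ) ≤ x), ∏ p ∈ S, g p ≤
      Real.exp (-(η * (Real.log x / Real.log z)) +
        ∑ p ∈ prs 3 z, ν p * ((p : ℝ) ^ κ - 1)) / VV ν z := by
    have h1 : ∀ S ∈ (prs 3 z).powerset.filter (fun S => ¬ ((∏ p ∈ S, p : ℕ) : ℝ) ≤ x),
        ∏ p ∈ S, g p ≤ x ^ (-κ) * ∏ p ∈ S, (g p * (p : ℝ) ^ κ) := by
      intro S hS
      rw [Finset.mem_filter, Finset.mem_powerset, not_le] at hS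
      have e1 : ∏ p ∈ S, (g p * (p : ℝ) ^ κ) = (∏ p ∈ S, g p) * ((∏ p ∈ S, p : ℕ) : ℝ) ^ κ := by
        rw [Finset.prod_mul_distrib, Real.finsetProd_rpow _ _ (fun p hp => (hp0 p (hS.1 hp)).le)]
        push_cast
        rfl
      rw [e1]
      have e2 : 0 ≤ ∏ p ∈ S, g p := Finset.prod_nonneg fun p hp => hg0 p (hS.1 hp)
      have e3 : 1 ≤ x ^ (-κ) * ((∏ p ∈ S, p : ℕ) : ℝ) ^ κ := by
        rw [Real.rpow_neg hx0.le, inv_mul_eq_div, le_div_iff₀ (Real.rpow_pos_of_pos hx0 _), one_mul]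
        exact Real.rpow_le_rpow hx0.le hS.2.le hκ0.le
      calc ∏ p ∈ S, g p = (∏ p ∈ S, g p) * 1 := (mul_one _).symm
        _ ≤ (∏ p ∈ S, g p) * (x ^ (-κ) * ((∏ p ∈ S, p : ℕ) : ℝ) ^ κ) :=
          mul_le_mul_of_nonneg_left e3 e2
        _ = x ^ (-κ) * ((∏ p ∈ S, g p) * ((∏ p ∈ S, p : ℕ) : ℝ) ^ κ) := by ring
    have hxκ : 0 < x ^ (-κ) := Real.rpow_pos_of_pos hx0 _
    calc ∑ S ∈ (prs 3 z).powerset.filter (fun S => ¬ ((∏ p ∈ S, p : ℕ) : ℝ) ≤ x), ∏ p ∈ S, g p
        ≤ ∑ S ∈ (prs 3 z).powerset.filter (fun S => ¬ ((∏ p ∈ S, p : ℕ) : ℝ) ≤ x),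
          x ^ (-κ) * ∏ p ∈ S, (g p * (p : ℝ) ^ κ) := Finset.sum_le_sum h1
      _ ≤ ∑ S ∈ (prs 3 z).powerset, x ^ (-κ) * ∏ p ∈ S, (g p * (p : ℝ) ^ κ) := by
          apply Finset.sum_le_sum_of_subset_of_nonneg (Finset.filter_subset _ _)
          intro S hS _
          rw [Finset.mem_powerset] at hS
          exact mul_nonneg hxκ.le (Finset.prod_nonneg fun p hp =>
            mul_nonneg (hg0 p (hS hp)) (Real.rpow_nonneg (hp0 p (hS hp)).le _))
      _ = x ^ (-κ) * ∏ p ∈ prs 3 z, (1 + g p * (p : ℝ) ^ κ) := by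
          rw [← Finset.mul_sum, ← Finset.prod_one_add]
      _ = x ^ (-κ) * (∏ p ∈ prs 3 z, (1 + ν p * ((p : ℝ) ^ κ - 1))) / VV ν z := by
          rw [t02_VV, mul_div_assoc, ← Finset.prod_div_distrib]
          congr 1
          refine Finset.prod_congr rfl fun p hp => ?_
          have h2 := hle p hp
          have h3 : (1 : ℝ) - ν p ≠ 0 := by linarith
          rw [hg]
          field_simp
          ring
      _ ≤ x ^ (-κ) * (∏ p ∈ prs 3 z, Real.exp (ν p * ((p : ℝ) ^ κ - 1))) / VV ν z := by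
          apply div_le_div_of_nonneg_right _ hVpos.le
          apply mul_le_mul_of_nonneg_left _ hxκ.le
          apply Finset.prod_le_prod
          · intro p hp
            have h4 : 1 ≤ (p : ℝ) ^ κ := by
              apply Real.one_le_rpow _ hκ0.le
              exact_mod_cast (t02_mem_prs.1 hp).1.one_le
            have h5 := hν.nonneg p
            have h6 : 0 ≤ ν p * ((p : ℝ) ^ κ - 1) := mul_nonneg h5 (by linarith)
            linarith
          · intro p _
            have := Real.add_one_le_exp (ν p * ((p : ℝ) ^ κ - 1))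
            linarith
      _ = Real.exp (-(η * (Real.log x / Real.log z)) +
        ∑ p ∈ prs 3 z, ν p * ((p : ℝ) ^ κ - 1)) / VV ν z := by
          rw [Real.exp_add, Real.exp_sum, Real.rpow_def_of_pos hx0]
          congr 3
          rw [hκ]
          ring
  have hsplit := Finset.sum_filter_add_sum_filter_not (prs 3 z).powerset
    (fun S => ((∏ p ∈ S, p : ℕ) : ℝ) ≤ x) (fun S => ∏ p ∈ S, g p)
  rw [sub_div]
  rw [hfull] at hsplit
  linarith

theorem rank_smallE : ∃ C : ℝ, 0 < C ∧ ∀ (ν : ℕ → ℝ), DensE ν → ∀ z η s : ℝ, 10 ≤ z → 0 < η → η ≤ 2 →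
    0 < s → s ≤ 1 / 2 → 1 ≤ s * Real.log z →
    ∑ p ∈ prs 3 (z ^ s), ν p * ((p : ℝ) ^ (η / Real.log z) - 1) ≤ 10 * η * s + C / Real.log z := by
  classical
  obtain ⟨C, hC, hM⟩ := EN.mertens_one
  refine ⟨20 * C, by positivity, ?_⟩
  intro ν hν z η s hz hη hη2 hs hs2 hsz
  have hz0 : (0 : ℝ) < z := by linarith
  have hlz : 0 < Real.log z := Real.log_pos (by linarith)
  set w : ℝ := z ^ s with hw
  have hlw : Real.log w = s * Real.log z := by rw [hw, Real.log_rpow hz0]
  have hw0 : 0 < w := Real.rpow_pos_of_pos hz0 s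
  have hw1 : 1 < w := by
    rw [← Real.log_pos_iff hw0.le, hlw]
    linarith
  have hn2 : 2 ≤ ⌈w⌉₊ := by
    have : 1 < ⌈w⌉₊ := by
      rw [Nat.lt_ceil]
      exact_mod_cast hw1
    omega
  set n : ℕ := ⌈w⌉₊ - 1 with hn
  have hn1 : 1 ≤ n := by omega
  have hnw : (n : ℝ) < w := by
    rw [← Nat.lt_ceil]
    omega
  have hlogn : Real.log n ≤ s * Real.log z := by
    rw [← hlw]
    exact Real.log_le_log (by exact_mod_cast hn1) hnw.le
  have hmem : ∀ p ∈ prs 3 w, p.Prime ∧ 3 ≤ p ∧ (p : ℝ) < w ∧ p ≤ n := by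
    intro p hp
    unfold prs at hp
    rw [mem_filter, mem_range] at hp
    obtain ⟨h1, h2, h3⟩ := hp
    refine ⟨h2, by exact_mod_cast h3, Nat.lt_ceil.mp h1, by omega⟩
  have hterm : ∀ p ∈ prs 3 w, ν p * ((p : ℝ) ^ (η / Real.log z) - 1) ≤
      (10 * η / Real.log z) * (ArithmeticFunction.vonMangoldt p / (p : ℝ)) := by
    intro p hp
    obtain ⟨hpp, h3, hpw, hpn⟩ := hmem p hp
    have hp0 : (0 : ℝ) < p := by exact_mod_cast hpp.pos
    have hp1 : (1 : ℝ) ≤ p := by exact_mod_cast hpp.one_le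
    have hlp : 0 ≤ Real.log p := Real.log_nonneg hp1
    have hlpw : Real.log p ≤ s * Real.log z := by
      rw [← hlw]
      exact Real.log_le_log hp0 hpw.le
    have hx0 : 0 ≤ Real.log p * (η / Real.log z) := by positivity
    have hx1 : Real.log p * (η / Real.log z) ≤ 1 := by
      calc Real.log p * (η / Real.log z) ≤ (s * Real.log z) * (η / Real.log z) :=
            mul_le_mul_of_nonneg_right hlpw (by positivity)
        _ = s * η := by field_simp
        _ ≤ (1 / 2) * 2 := mul_le_mul hs2 hη2 hη.le (by norm_num)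
        _ = 1 := by norm_num
    have he : (p : ℝ) ^ (η / Real.log z) - 1 ≤ 2 * (Real.log p * (η / Real.log z)) := by
      rw [Real.rpow_def_of_pos hp0]
      exact t03_exp _ hx0 hx1
    have he0 : 0 ≤ (p : ℝ) ^ (η / Real.log z) - 1 := by
      rw [Real.rpow_def_of_pos hp0]
      have := Real.add_one_le_exp (Real.log p * (η / Real.log z))
      linarith
    rw [ArithmeticFunction.vonMangoldt_apply_prime hpp]
    calc ν p * ((p : ℝ) ^ (η / Real.log z) - 1)
        ≤ (5 / p) * (2 * (Real.log p * (η / Real.log z))) :=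
          mul_le_mul (t23_nu ν hν p hpp h3) he he0 (by positivity)
      _ = (10 * η / Real.log z) * (Real.log p / (p : ℝ)) := by ring
  have hsub : prs 3 w ⊆ Icc 1 n := by
    intro p hp
    obtain ⟨hpp, h3, hpw, hpn⟩ := hmem p hp
    rw [mem_Icc]
    exact ⟨by omega, hpn⟩
  calc ∑ p ∈ prs 3 w, ν p * ((p : ℝ) ^ (η / Real.log z) - 1)
      ≤ ∑ p ∈ prs 3 w, (10 * η / Real.log z) * (ArithmeticFunction.vonMangoldt p / (p : ℝ)) :=
        Finset.sum_le_sum hterm
    _ = (10 * η / Real.log z) * ∑ p ∈ prs 3 w, ArithmeticFunction.vonMangoldt p / (p : ℝ) := by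
        rw [Finset.mul_sum]
    _ ≤ (10 * η / Real.log z) * (s * Real.log z + C) := by
        refine mul_le_mul_of_nonneg_left ?_ (by positivity)
        calc ∑ p ∈ prs 3 w, ArithmeticFunction.vonMangoldt p / (p : ℝ)
            ≤ ∑ p ∈ Icc 1 n, ArithmeticFunction.vonMangoldt p / (p : ℝ) :=
              Finset.sum_le_sum_of_subset_of_nonneg hsub fun p _ _ =>
                div_nonneg ArithmeticFunction.vonMangoldt_nonneg (Nat.cast_nonneg _)
          _ ≤ Real.log n + C := by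
              have := (abs_le.mp (hM n hn1)).2
              linarith
          _ ≤ s * Real.log z + C := by linarith
    _ = 10 * η * s + (10 * η * C) / Real.log z := by field_simp
    _ ≤ 10 * η * s + 20 * C / Real.log z := by
        have h9 : 10 * η * C ≤ 20 * C := by nlinarith
        have h10 := div_le_div_of_nonneg_right h9 hlz.le
        linarith


end Pool.Agent.Lib.MP_93793a_nt
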