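import Pool.Agent.Lib.MP_93793a_nt.P1
import Pool.Agent.Lib.MP_93793a_nt.E4
import Pool.Agent.Lib.MP_d9bc60_nt.AQ.QUp

/-! The upper bound sieve for the densities supported on the primes `1` modulo `3`. -/

set_option autoImplicit false

namespace Pool.Agent.Lib.MP_93793a_nt

open Finset Pool.Agent.Lib.MP_d9bc60_nt Pool.Agent.Lib.MP_d9bc60_nt.UV Pool.Agent.Lib.MP_d9bc60_nt.AP

theorem t25_main (η κ : ℝ) (hη : 0 < η) (hη2 : η ≤ 2)
    (hκ : 2 * (∫ u in (1 / 5000 : ℝ)..1, (Real.exp (η * u) - 1) / u) ≤ κ) :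
    ∀ᶠ z : ℝ in Filter.atTop, ∀ (ν : ℕ → ℝ), DensE ν →
      ∑ p ∈ prs 3 z, ν p * ((p : ℝ) ^ (η / Real.log z) - 1) ≤ κ + 10 * η * (1 / 5000) + 6 / 1000 := by
  obtain ⟨C, hC, hsmall⟩ := rank_smallE
  obtain ⟨D₀, hD₀, hint⟩ := mu_integral (1 / 5000) 1 (by norm_num) (by norm_num)
    (fun u => Real.exp (η * u) - 1) (by fun_prop) (1 / 1000) (by norm_num)
  have e1 : ∀ᶠ z : ℝ in Filter.atTop, max D₀ 10 ≤ z := Filter.eventually_ge_atTop _
  have e2 : ∀ᶠ z : ℝ in Filter.atTop, max 5000 (C * 1000) ≤ Real.log z :=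
    Real.tendsto_log_atTop.eventually_ge_atTop _
  have e3 : ∀ᶠ z : ℝ in Filter.atTop, (128000 : ℝ) ≤ z ^ (1 / 5000 : ℝ) :=
    (tendsto_rpow_atTop (by norm_num)).eventually_ge_atTop _
  filter_upwards [e1, e2, e3] with z h1 h2 h3 ν hν
  have hzD : D₀ ≤ z := (le_max_left _ _).trans h1
  have hz10 : 10 ≤ z := (le_max_right _ _).trans h1
  have hl1 : 5000 ≤ Real.log z := (le_max_left _ _).trans h2
  have hl2 : C * 1000 ≤ Real.log z := (le_max_right _ _).trans h2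
  have hl0 : 0 < Real.log z := by linarith
  have hz0 : 0 < z := by linarith
  have hws : z ^ (1 / 5000 : ℝ) ≤ z := by
    have : z ^ (1 / 5000 : ℝ) ≤ z ^ (1 : ℝ) := Real.rpow_le_rpow_of_exponent_le (by linarith)
      (by norm_num)
    rwa [Real.rpow_one] at this
  rw [t05_split 3 (z ^ (1 / 5000 : ℝ)) z (by linarith) hws]
  have g1 := hsmall ν hν z η (1 / 5000) hz10 hη hη2 (by norm_num) (by norm_num) (by linarith)
  have g2 : C / Real.log z ≤ 1 / 1000 := by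
    rw [div_le_div_iff₀ hl0 (by norm_num)]
    linarith
  have g3 := (abs_le.1 (hint z hzD)).2
  rw [Real.rpow_one] at g3
  have g4 := t05_sq (z ^ (1 / 5000 : ℝ)) z (by linarith)
  have g5 : 64 * (2 / z ^ (1 / 5000 : ℝ)) ≤ 1 / 1000 := by
    rw [← mul_div_assoc, div_le_div_iff₀ (by linarith) (by norm_num)]
    linarith
  have g6 : ∑ p ∈ prs (z ^ (1 / 5000 : ℝ)) z, ν p * ((p : ℝ) ^ (η / Real.log z) - 1) ≤
      2 * ∑ p ∈ prs (z ^ (1 / 5000 : ℝ)) z, (Real.exp (η * (Real.log p / Real.log z)) - 1) * mu p +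
      64 * ∑ p ∈ prs (z ^ (1 / 5000 : ℝ)) z, 1 / (p : ℝ) ^ 2 := by
    rw [mul_sum, mul_sum, ← sum_add_distrib]
    refine sum_le_sum fun p hp => ?_
    rw [t05_mem] at hp
    obtain ⟨hpv, hpp, hpu⟩ := hp
    have hp5 : (9 : ℝ) ≤ p := by linarith
    have hp0 : (0 : ℝ) < p := by linarith
    have hpz : (p : ℝ) ≤ z := by
      have := Nat.lt_ceil.1 hpv
      exact this.le
    have hlp0 : 0 ≤ Real.log p := Real.log_nonneg (by linarith)
    have hlp : Real.log p ≤ Real.log z := Real.log_le_log hp0 hpz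
    have hpow : (p : ℝ) ^ (η / Real.log z) = Real.exp (η * (Real.log p / Real.log z)) := by
      rw [Real.rpow_def_of_pos hp0]
      congr 1
      ring
    rw [hpow]
    set X : ℝ := Real.exp (η * (Real.log p / Real.log z)) - 1 with hX
    have hq0 : 0 ≤ Real.log p / Real.log z := by positivity
    have hq1 : Real.log p / Real.log z ≤ 1 := by
      rw [div_le_one hl0]
      exact hlp
    have hX0 : 0 ≤ X := by
      have := Real.one_le_exp (x := η * (Real.log p / Real.log z)) (by positivity)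
      linarith
    have hX8 : X ≤ 8 := by
      have a1 : η * (Real.log p / Real.log z) ≤ 2 := by nlinarith
      have a2 := Real.exp_le_exp.2 a1
      have a3 : Real.exp 2 ≤ 9 := by
        have a4 : Real.exp 2 = Real.exp 1 * Real.exp 1 := by
          rw [← Real.exp_add]; norm_num
        have a5 := Real.exp_one_lt_d9
        have a6 := Real.exp_pos 1
        rw [a4]
        nlinarith
      linarith
    have hν1 := (mE_nu_le ν hν p hpp hp5).1
    have i2 : 0 ≤ 1 / (p : ℝ) ^ 2 := by positivity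
    have hmu : 2 * (1 / (p : ℝ)) + 2 * (ch p * (1 / (p : ℝ))) = 2 * mu p := by
      unfold mu
      ring
    rw [hmu] at hν1
    calc ν p * X ≤ (2 * mu p + 8 * (1 / (p : ℝ) ^ 2)) * X :=
          mul_le_mul_of_nonneg_right hν1 hX0
      _ = 2 * (X * mu p) + 8 * (1 / (p : ℝ) ^ 2) * X := by ring
      _ ≤ 2 * (X * mu p) + 8 * (1 / (p : ℝ) ^ 2) * 8 := by
          have := mul_le_mul_of_nonneg_left hX8 (by positivity : 0 ≤ 8 * (1 / (p : ℝ) ^ 2))
          linarith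
      _ = 2 * (X * mu p) + 64 * (1 / (p : ℝ) ^ 2) := by ring
  have g7 : ∑ p ∈ prs (z ^ (1 / 5000 : ℝ)) z, (Real.exp (η * (Real.log p / Real.log z)) - 1) * mu p ≤
      (∫ u in (1 / 5000 : ℝ)..1, (Real.exp (η * u) - 1) / u) + 1 / 1000 := by
    linarith
  linarith

theorem rankin_numE : ∃ z₁ : ℝ, 3 < z₁ ∧ ∀ (ν : ℕ → ℝ), DensE ν → ∀ z : ℝ, z₁ ≤ z →
    ∑ p ∈ prs 3 z, ν p * ((p : ℝ) ^ (1.7 / Real.log z) - 1) ≤ 5.64 ∧
    ∑ p ∈ prs 3 z, ν p * ((p : ℝ) ^ (1.3 / Real.log z) - 1) ≤ 3.78 := by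
  obtain ⟨hi1, hi2⟩ := exp_int (1 / 5000) (by norm_num) (by norm_num)
  have m1 := t25_main 1.7 5.627 (by norm_num) (by norm_num) hi1
  have m2 := t25_main 1.3 3.7645 (by norm_num) (by norm_num) hi2
  obtain ⟨z₀, hz₀⟩ := Filter.eventually_atTop.1 (m1.and m2)
  refine ⟨max z₀ 4, by linarith [le_max_right z₀ 4], fun ν hν z hz => ?_⟩
  obtain ⟨a1, a2⟩ := hz₀ z ((le_max_left _ _).trans hz)
  have b1 := a1 ν hν
  have b2 := a2 ν hν
  constructor
  · refine b1.trans ?_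
    norm_num
  · refine b2.trans ?_
    norm_num

theorem t26_VV_pos {ν : ℕ → ℝ} (hν : DensE ν) (z : ℝ) : 0 < VV ν z := by
  unfold VV
  refine Finset.prod_pos fun p hp => ?_
  obtain ⟨h1, h2⟩ := (Finset.mem_filter.1 hp).2
  have := k3_le ν hν p h1 h2
  linarith

theorem t26_core {ι : Type} (I : Finset ι) (w : ι → ℝ) (a : ι → ℕ) (X : ℝ) (ν : ℕ → ℝ)
    (hw : ∀ i, 0 ≤ w i) (hX : 0 ≤ X) (hν : DensE ν) {z Y η S K e c : ℝ} (hz : 3 < z) {x : ℕ}
    (hx : 1 ≤ x) (hxY : (x : ℝ) ^ 2 ≤ Y) (hη : 0 < η)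
    (hS : ∑ p ∈ prs 3 z, ν p * ((p : ℝ) ^ (η / Real.log z) - 1) ≤ S)
    (hK : K ≤ Real.log x / Real.log z) (he : Real.exp (-(η * K) + S) ≤ e)
    (hc0 : 0 < c) (hc : 1 ≤ c * (1 - e)) :
    Ssum I w a z ≤ c * X * VV ν z +
      ∑ d ∈ Dset z Y, (d.divisors.card : ℝ) ^ 2 * Rem I w a X ν d := by
  have hV := t26_VV_pos hν z
  have he1 : 0 < 1 - e := by
    by_contra h
    push Not at h
    have : c * (1 - e) ≤ 0 := mul_nonpos_of_nonneg_of_nonpos hc0.le h
    linarith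
  have h1 := ss_lowerE ν hν z x η hz (by exact_mod_cast hx) hη
  have h2 : Real.exp (-(η * (Real.log x / Real.log z)) +
      ∑ p ∈ prs 3 z, ν p * ((p : ℝ) ^ (η / Real.log z) - 1)) ≤ e := by
    refine le_trans (Real.exp_le_exp.2 ?_) he
    have := mul_le_mul_of_nonneg_left hK hη.le
    linarith
  have h3 : (1 - e) / VV ν z ≤ ∑ d ∈ Dset z x, gS ν d := by
    refine le_trans ?_ h1
    exact div_le_div_of_nonneg_right (by linarith) hV.le
  have h4 : 0 < (1 - e) / VV ν z := div_pos he1 hV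
  have h5 : X / (∑ d ∈ Dset z x, gS ν d) ≤ c * X * VV ν z := by
    calc X / (∑ d ∈ Dset z x, gS ν d) ≤ X / ((1 - e) / VV ν z) :=
          div_le_div_of_nonneg_left hX h4 h3
      _ = X * VV ν z * (1 / (1 - e)) := by
          field_simp
      _ ≤ X * VV ν z * c := by
          refine mul_le_mul_of_nonneg_left ?_ (mul_nonneg hX hV.le)
          rw [div_le_iff₀ he1]
          exact hc
      _ = c * X * VV ν z := by ring
  have h6 := selberg_idxE I w a X z ν hw hX hν x hx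
  have h7 := t06_sum_mono I w a X ν (t06_Dset_mono (le_refl z) hxY)
  linarith

theorem upper_sieveE : ∃ z₁ : ℝ, 3 < z₁ ∧ ∀ {ι : Type} (I : Finset ι) (w : ι → ℝ) (a : ι → ℕ) (X : ℝ)
    (ν : ℕ → ℝ), (∀ i, 0 ≤ w i) → 0 ≤ X → DensE ν → ∀ z Y : ℝ, z₁ ≤ z → z₁ ^ 8 ≤ Y →
    (z ^ 12 ≤ Y → Ssum I w a z ≤ 1.011 * X * VV ν z +
      ∑ d ∈ Dset z Y, (d.divisors.card : ℝ) ^ 2 * Rem I w a X ν d) ∧
    (z ^ 8 ≤ Y → Ssum I w a z ≤ 1.322 * X * VV ν z +
      ∑ d ∈ Dset z Y, (d.divisors.card : ℝ) ^ 2 * Rem I w a X ν d) ∧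
    (Y ≤ z ^ 8 → Ssum I w a z ≤ 84.7 * (Real.log z / Real.log Y) ^ 2 * X * VV ν z +
      ∑ d ∈ Dset z Y, (d.divisors.card : ℝ) ^ 2 * Rem I w a X ν d) := by
  obtain ⟨z1, hz1, hR⟩ := rankin_numE
  obtain ⟨u0, hu0, hV⟩ := mE_VV_ratio 0.0005 (by norm_num)
  refine ⟨max (max z1 u0) (Real.exp 200), lt_of_lt_of_le hz1
    ((le_max_left _ _).trans (le_max_left _ _)), ?_⟩
  intro ι I w a X ν hw hX hν z Y hz hY
  have ha : ∀ z Y : ℝ, max (max z1 u0) (Real.exp 200) ≤ z → z ^ 12 ≤ Y →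
      Ssum I w a z ≤ 1.011 * X * VV ν z +
        ∑ d ∈ Dset z Y, (d.divisors.card : ℝ) ^ 2 * Rem I w a X ν d := by
    intro z Y hz hzY
    have hze : Real.exp 200 ≤ z := (le_max_right _ _).trans hz
    have hzr : z1 ≤ z := (le_max_left _ _).trans ((le_max_left _ _).trans hz)
    have hz0 : 0 < z := by linarith
    have hY0 : 0 < Y := lt_of_lt_of_le (by positivity) hzY
    have hlY : 2 * 6 * Real.log z ≤ Real.log Y := by
      have h1 := Real.log_le_log (by positivity) hzY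
      rw [Real.log_pow] at h1
      push_cast at h1
      linarith
    obtain ⟨h1, h2, h3⟩ := t06_floor hze hlY (by norm_num) hY0
    exact t26_core I w a X ν hw hX hν (by linarith) h1 h2 (by norm_num) (hR ν hν z hzr).1 h3
      t06_exp_a (by norm_num) (by norm_num)
  have hb : ∀ z Y : ℝ, max (max z1 u0) (Real.exp 200) ≤ z → z ^ 8 ≤ Y →
      Ssum I w a z ≤ 1.322 * X * VV ν z +
        ∑ d ∈ Dset z Y, (d.divisors.card : ℝ) ^ 2 * Rem I w a X ν d := by
    intro z Y hz hzY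
    have hze : Real.exp 200 ≤ z := (le_max_right _ _).trans hz
    have hzr : z1 ≤ z := (le_max_left _ _).trans ((le_max_left _ _).trans hz)
    have hz0 : 0 < z := by linarith
    have hY0 : 0 < Y := lt_of_lt_of_le (by positivity) hzY
    have hlY : 2 * 4 * Real.log z ≤ Real.log Y := by
      have h1 := Real.log_le_log (by positivity) hzY
      rw [Real.log_pow] at h1
      push_cast at h1
      linarith
    obtain ⟨h1, h2, h3⟩ := t06_floor hze hlY (by norm_num) hY0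
    exact t26_core I w a X ν hw hX hν (by linarith) h1 h2 (by norm_num) (hR ν hν z hzr).2 h3
      t06_exp_b (by norm_num) (by norm_num)
  refine ⟨ha z Y hz, hb z Y hz, fun hYz => ?_⟩
  set Z := max (max z1 u0) (Real.exp 200) with hZ
  have hZe : Real.exp 200 ≤ Z := le_max_right _ _
  have hZ0 : 0 < Z := lt_of_lt_of_le (Real.exp_pos _) hZe
  have hZ1 : 1 < Z := lt_of_lt_of_le (by
    have := Real.add_one_le_exp (200 : ℝ)
    linarith) hZe
  have hz0 : 0 < z := lt_of_lt_of_le hZ0 hz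
  have hY0 : 0 < Y := lt_of_lt_of_le (by positivity) hY
  set z' : ℝ := Y ^ (1 / 8 : ℝ) with hz'
  have hz'0 : 0 < z' := Real.rpow_pos_of_pos hY0 _
  have hz'8 : z' ^ 8 = Y := by
    rw [hz', ← Real.rpow_natCast, ← Real.rpow_mul hY0.le]
    norm_num
  have hZz' : Z ≤ z' := by
    refine le_of_not_gt fun h => ?_
    have h1 : z' ^ 8 < Z ^ 8 := pow_lt_pow_left₀ h hz'0.le (by norm_num)
    rw [hz'8] at h1
    linarith
  have hz'z : z' ≤ z := by
    refine le_of_not_gt fun h => ?_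
    have h1 : z ^ 8 < z' ^ 8 := pow_lt_pow_left₀ h hz0.le (by norm_num)
    rw [hz'8] at h1
    linarith
  have h1 := hb z' Y hZz' hz'8.le
  have h2 := t06_Ssum_anti I w a hw hz'z
  have h3 := t06_sum_mono I w a X ν (t06_Dset_mono hz'z (le_refl Y))
  have hu : u0 ≤ z' := ((le_max_right _ _).trans (le_max_left _ _)).trans hZz'
  have h4 := hV ν hν z' z hu hz'z
  have hlog : Real.log Y = 8 * Real.log z' := by
    rw [← hz'8, Real.log_pow]
    norm_num
  have hlz' : 0 < Real.log z' := Real.log_pos (lt_of_lt_of_le hZ1 hZz')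
  have h5 : (Real.log z / Real.log z') ^ 2 = 64 * (Real.log z / Real.log Y) ^ 2 := by
    rw [hlog]
    field_simp
    norm_num
  rw [h5] at h4
  have hVz := t26_VV_pos hν z
  set q := (Real.log z / Real.log Y) ^ 2 with hq
  have hq0 : 0 ≤ q := sq_nonneg _
  have h6 : 1.322 * X * VV ν z' ≤ 84.7 * q * X * VV ν z := by
    have h7 : X * VV ν z' ≤ X * ((1 + 0.0005) * (64 * q) * VV ν z) :=
      mul_le_mul_of_nonneg_left h4 hX
    have h8 : 0 ≤ q * X * VV ν z := mul_nonneg (mul_nonneg hq0 hX) hVz.le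
    nlinarith
  linarith


end Pool.Agent.Lib.MP_93793a_nt
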