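import Pool.Agent.Lib.MP_93793a_nt.E3
import Pool.Agent.Lib.MP_93793a_nt.E5
import Pool.Agent.Lib.MP_d9bc60_nt.AQ.QWeight

/-! The weighted sieve for the densities supported on the primes `1` modulo `3`. -/

set_option autoImplicit false

namespace Pool.Agent.Lib.MP_93793a_nt

open Finset Pool.Agent.Lib.MP_d9bc60_nt Pool.Agent.Lib.MP_d9bc60_nt.UV Pool.Agent.Lib.MP_d9bc60_nt.AP

/-- the remainders of the subfamily -/
theorem t28_rem {ι : Type} (I : Finset ι) (w : ι → ℝ) (a : ι → ℕ) (X : ℝ) (ν : ℕ → ℝ)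
    (hν : DensE ν) {z Y : ℝ} {l d : ℕ} (hl : l.Prime) (hzl : z ≤ l) (hd : d ∈ Dset z Y) :
    Rem (I.filter (fun i => l ∣ a i)) w a (ν l * X) ν d = Rem I w a X ν (l * d) := by
  classical
  unfold Dset at hd
  rw [mem_filter, mem_Icc] at hd
  obtain ⟨⟨hd1, -⟩, -, hd2⟩ := hd
  have hcop : l.Coprime d := by
    rw [Nat.Prime.coprime_iff_not_dvd hl]
    intro h
    have := (hd2 l hl h).2
    linarith
  unfold Rem
  rw [filter_filter, hν.mul l d hcop]
  have h1 : I.filter (fun i => l ∣ a i ∧ d ∣ a i) = I.filter (fun i => l * d ∣ a i) := by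
    refine filter_congr fun i _ => ?_
    constructor
    · rintro ⟨h1, h2⟩
      exact Nat.Coprime.mul_dvd_of_dvd_of_dvd hcop h1 h2
    · intro h
      exact ⟨(dvd_mul_right l d).trans h, (dvd_mul_left d l).trans h⟩
  rw [h1]
  congr 2
  ring

theorem one_lE : ∃ D₀ : ℝ, 2 ≤ D₀ ∧ ∀ D : ℝ, D₀ ≤ D → ∀ {ι : Type} (I : Finset ι) (w : ι → ℝ)
    (a : ι → ℕ) (X : ℝ) (ν : ℕ → ℝ), (∀ i, 0 ≤ w i) → 0 ≤ X → DensE ν →
    ∀ l ∈ prs (D ^ (2 / 35 : ℝ)) (D ^ (9 / 10 : ℝ)),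
    Ssum (I.filter (fun i => l ∣ a i)) w a (D ^ (2 / 35 : ℝ)) ≤
      Fup (Real.log l / Real.log D) * (ν l * X) * VV ν (D ^ (2 / 35 : ℝ)) +
      ∑ d ∈ Dset (D ^ (2 / 35 : ℝ)) (D / l), (d.divisors.card : ℝ) ^ 2 * Rem I w a X ν (l * d) := by
  obtain ⟨z₁, hz₁, hup⟩ := upper_sieveE
  have hz0 : (0 : ℝ) < z₁ := by linarith
  refine ⟨max (z₁ ^ (80 : ℕ)) (z₁ ^ (18 : ℕ)), ?_, ?_⟩
  · refine le_trans ?_ (le_max_left _ _)
    calc (2 : ℝ) ≤ z₁ := by linarith
      _ = z₁ ^ 1 := (pow_one _).symm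
      _ ≤ z₁ ^ 80 := pow_le_pow_right₀ (by linarith) (by norm_num)
  intro D hD ι I w a X ν hw hX hν l hl
  have hD80 : z₁ ^ (80 : ℕ) ≤ D := (le_max_left _ _).trans hD
  have hD18 : z₁ ^ (18 : ℕ) ≤ D := (le_max_right _ _).trans hD
  have hD1 : (1 : ℝ) < D := by
    refine lt_of_lt_of_le ?_ hD80
    exact one_lt_pow₀ (by linarith) (by norm_num)
  have hD0 : (0 : ℝ) < D := by linarith
  have hLD : 0 < Real.log D := Real.log_pos hD1
  obtain ⟨hlp, hl1, hl2⟩ := t08_mem_prs hl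
  have hl0 : (0 : ℝ) < l := by exact_mod_cast hlp.pos
  set z : ℝ := D ^ (2 / 35 : ℝ) with hz
  set t : ℝ := Real.log l / Real.log D with ht
  have hlD : (l : ℝ) = D ^ t := by
    rw [Real.rpow_def_of_pos hD0, ht, mul_div_cancel₀ _ hLD.ne', Real.exp_log hl0]
  have hzpos : 0 < z := Real.rpow_pos_of_pos hD0 _
  have ht2 : t < 9 / 10 := by
    rw [hlD] at hl2
    exact (Real.rpow_lt_rpow_left_iff hD1).mp hl2
  have hY : D / l = D ^ (1 - t) := by
    rw [Real.rpow_sub hD0, Real.rpow_one, ← hlD]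
  have hz₁z : z₁ ≤ z := by
    have h1 : z₁ = (z₁ ^ (18 : ℕ)) ^ (1 / 18 : ℝ) := by
      rw [← Real.rpow_natCast z₁ 18, ← Real.rpow_mul hz0.le]
      norm_num
    rw [h1, hz]
    calc (z₁ ^ (18 : ℕ)) ^ (1 / 18 : ℝ) ≤ D ^ (1 / 18 : ℝ) :=
          Real.rpow_le_rpow (by positivity) hD18 (by norm_num)
      _ ≤ D ^ (2 / 35 : ℝ) := Real.rpow_le_rpow_of_exponent_le hD1.le (by norm_num)
  have hz₁Y : z₁ ^ 8 ≤ D / l := by
    have h1 : z₁ ^ 8 = (z₁ ^ (80 : ℕ)) ^ (1 / 10 : ℝ) := by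
      rw [← Real.rpow_natCast z₁ 80, ← Real.rpow_mul hz0.le, ← Real.rpow_natCast z₁ 8]
      norm_num
    rw [h1, hY]
    calc (z₁ ^ (80 : ℕ)) ^ (1 / 10 : ℝ) ≤ D ^ (1 / 10 : ℝ) :=
          Real.rpow_le_rpow (by positivity) hD80 (by norm_num)
      _ ≤ D ^ (1 - t) := Real.rpow_le_rpow_of_exponent_le hD1.le (by linarith)
  have hνX : 0 ≤ ν l * X := mul_nonneg (hν.nonneg l) hX
  obtain ⟨ha, hb, hc⟩ := hup (I.filter (fun i => l ∣ a i)) w a (ν l * X) ν hw hνX hν z (D / l)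
    hz₁z hz₁Y
  have hrem : ∑ d ∈ Dset z (D / l), (d.divisors.card : ℝ) ^ 2 *
      Rem (I.filter (fun i => l ∣ a i)) w a (ν l * X) ν d =
      ∑ d ∈ Dset z (D / l), (d.divisors.card : ℝ) ^ 2 * Rem I w a X ν (l * d) := by
    refine sum_congr rfl fun d hd => ?_
    rw [t28_rem I w a X ν hν hlp hl1 hd]
  rw [hrem] at ha hb hc
  have hzpow : ∀ k : ℕ, z ^ k = D ^ (2 / 35 * k : ℝ) := by
    intro k
    rw [hz, ← Real.rpow_natCast, ← Real.rpow_mul hD0.le]
  unfold Fup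
  by_cases h1 : t ≤ 11 / 35
  · rw [if_pos h1]
    refine ha ?_
    rw [hzpow 12, hY]
    refine Real.rpow_le_rpow_of_exponent_le hD1.le ?_
    push_cast
    linarith
  · rw [if_neg h1]
    by_cases h2 : t ≤ 19 / 35
    · rw [if_pos h2]
      refine hb ?_
      rw [hzpow 8, hY]
      refine Real.rpow_le_rpow_of_exponent_le hD1.le ?_
      push_cast
      linarith
    · rw [if_neg h2]
      have h3 : Real.log z / Real.log (D / l) = 2 / 35 / (1 - t) := by
        rw [hY, hz, Real.log_rpow hD0, Real.log_rpow hD0]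
        have : 1 - t ≠ 0 := by linarith
        field_simp
      rw [← h3]
      refine (hc ?_)
      rw [hzpow 8, hY]
      refine Real.rpow_le_rpow_of_exponent_le hD1.le ?_
      push_neg at h2
      push_cast
      linarith

theorem sum_lE : ∃ D₀ : ℝ, 2 ≤ D₀ ∧ ∀ D : ℝ, D₀ ≤ D → ∀ ν : ℕ → ℝ, DensE ν →
    ∑ l ∈ prs (D ^ (2 / 35 : ℝ)) (D ^ (9 / 10 : ℝ)), (1 - Real.log l / Real.log (D ^ (9 / 10 : ℝ))) *
      (ν l * Fup (Real.log l / Real.log D)) ≤ 4.31 := by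
  obtain ⟨D₁, hD₁, k1⟩ := mu_integral (2 / 35) (11 / 35) (by norm_num) (by norm_num)
    (fun t => 2 * 1.011 * (1 - t / 0.9)) (by fun_prop) 0.001 (by norm_num)
  obtain ⟨D₂, hD₂, k2⟩ := mu_integral (11 / 35) (19 / 35) (by norm_num) (by norm_num)
    (fun t => 2 * 1.322 * (1 - t / 0.9)) (by fun_prop) 0.001 (by norm_num)
  obtain ⟨D₃, hD₃, k3⟩ := mu_integral (19 / 35) (9 / 10) (by norm_num) (by norm_num)
    (fun t => 2 * (84.7 * (2 / 35 / (1 - t)) ^ 2) * (1 - t / 0.9)) (by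
      have h1 : ContinuousOn (fun t : ℝ => (2 / 35 : ℝ) / (1 - t)) (Set.Icc (19 / 35) (9 / 10)) := by
        apply ContinuousOn.div continuousOn_const (by fun_prop)
        intro x hx
        have := hx.2
        intro h0
        linarith
      exact (continuousOn_const.mul (continuousOn_const.mul (h1.pow 2))).mul (by fun_prop))
    0.001 (by norm_num)
  refine ⟨max (max D₁ D₂) (max D₃ ((1001 : ℝ) ^ (35 / 2 : ℝ))),
    hD₁.trans ((le_max_left _ _).trans (le_max_left _ _)), fun D hD ν hν => ?_⟩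
  have hDD₁ : D₁ ≤ D := ((le_max_left _ _).trans (le_max_left _ _)).trans hD
  have hDD₂ : D₂ ≤ D := ((le_max_right _ _).trans (le_max_left _ _)).trans hD
  have hDD₃ : D₃ ≤ D := ((le_max_left _ _).trans (le_max_right _ _)).trans hD
  have hDD₄ : (1001 : ℝ) ^ (35 / 2 : ℝ) ≤ D := ((le_max_right _ _).trans (le_max_right _ _)).trans hD
  have hD1 : 1 < D := by linarith
  have hD0 : 0 < D := by linarith
  have hlogD : 0 < Real.log D := Real.log_pos hD1
  have hz : (1001 : ℝ) ≤ D ^ (2 / 35 : ℝ) := by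
    have h2 := Real.rpow_le_rpow (by positivity) hDD₄ (by norm_num : (0 : ℝ) ≤ 2 / 35)
    rw [← Real.rpow_mul (by norm_num)] at h2
    norm_num at h2
    exact h2
  -- step 1: remove nu
  have hstep : ∑ l ∈ prs (D ^ (2 / 35 : ℝ)) (D ^ (9 / 10 : ℝ)),
      (1 - Real.log l / Real.log (D ^ (9 / 10 : ℝ))) *
      (ν l * Fup (Real.log l / Real.log D)) ≤
      1.001 * ∑ l ∈ prs (D ^ (2 / 35 : ℝ)) (D ^ (9 / 10 : ℝ)),
        (2 * Fup (Real.log l / Real.log D) * (1 - (Real.log l / Real.log D) / 0.9)) * mu l := by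
    rw [Finset.mul_sum]
    refine Finset.sum_le_sum fun l hl => ?_
    obtain ⟨l1, l2, l3⟩ := t09_range hD1 hl
    obtain ⟨l4, l5, l6⟩ := t09_mem_prs.1 hl
    have hl1001 : (1001 : ℝ) ≤ l := hz.trans l5
    have hl5 : 5 ≤ l := by
      have : (5 : ℝ) ≤ l := by linarith
      exact_mod_cast this
    have e1 : Real.log l / Real.log (D ^ (9 / 10 : ℝ)) = (Real.log l / Real.log D) / 0.9 := by
      rw [Real.log_rpow hD0, show (0.9 : ℝ) = 9 / 10 by norm_num, div_div, mul_comm (9 / 10 : ℝ)]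
    rw [e1]
    set t := Real.log l / Real.log D with ht
    have hu : 0 ≤ 1 - t / 0.9 := by
      rw [sub_nonneg, div_le_one (by norm_num)]
      linarith
    have hF := t09_Fup_nonneg t
    have hν1 : ν l ≤ 1.001 * (2 * mu l) := by
      rcases mod3_cases l4 (by omega) with h3 | h3
      · have hch : ch l = 1 := by unfold ch; rw [if_pos h3]
        refine (hν.le1 l l4 h3).trans ?_
        unfold mu
        rw [hch]
        have e3 : 1.001 * (2 * ((1 + 1) * (1 / (l : ℝ)))) = 1.001 * 4 / (l : ℝ) := by ring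
        rw [e3, div_le_div_iff₀ (by linarith) l3]
        nlinarith
      · rw [hν.le2 l l4 hl5 h3]
        have := mu_nonneg l
        positivity
    calc (1 - t / 0.9) * (ν l * Fup t) ≤ (1 - t / 0.9) * (1.001 * (2 * mu l) * Fup t) :=
          mul_le_mul_of_nonneg_left (mul_le_mul_of_nonneg_right hν1 hF) hu
      _ = 1.001 * (2 * Fup t * (1 - t / 0.9) * mu l) := by ring
  -- step 2: split
  have h12 : D ^ (2 / 35 : ℝ) ≤ D ^ (11 / 35 : ℝ) :=
    Real.rpow_le_rpow_of_exponent_le hD1.le (by norm_num)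
  have h23 : D ^ (11 / 35 : ℝ) ≤ D ^ (19 / 35 : ℝ) :=
    Real.rpow_le_rpow_of_exponent_le hD1.le (by norm_num)
  have h34 : D ^ (19 / 35 : ℝ) ≤ D ^ (9 / 10 : ℝ) :=
    Real.rpow_le_rpow_of_exponent_le hD1.le (by norm_num)
  have hR : ∑ l ∈ prs (D ^ (2 / 35 : ℝ)) (D ^ (9 / 10 : ℝ)),
        (2 * Fup (Real.log l / Real.log D) * (1 - (Real.log l / Real.log D) / 0.9)) * mu l =
      ∑ l ∈ prs (D ^ (2 / 35 : ℝ)) (D ^ (11 / 35 : ℝ)),
      (2 * Fup (Real.log l / Real.log D) * (1 - (Real.log l / Real.log D) / 0.9)) * mu l +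
      ∑ l ∈ prs (D ^ (11 / 35 : ℝ)) (D ^ (19 / 35 : ℝ)),
      (2 * Fup (Real.log l / Real.log D) * (1 - (Real.log l / Real.log D) / 0.9)) * mu l +
      ∑ l ∈ prs (D ^ (19 / 35 : ℝ)) (D ^ (9 / 10 : ℝ)),
      (2 * Fup (Real.log l / Real.log D) * (1 - (Real.log l / Real.log D) / 0.9)) * mu l := by
    rw [t09_sum_split (h12.trans h23) h34, t09_sum_split h12 h23]
  rw [hR] at hstep
  have m1 : ∑ l ∈ prs (D ^ (2 / 35 : ℝ)) (D ^ (11 / 35 : ℝ)),
      (2 * Fup (Real.log l / Real.log D) * (1 - (Real.log l / Real.log D) / 0.9)) * mu l ≤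
      (∫ t in (2 / 35 : ℝ)..(11 / 35), (2 * 1.011 * (1 - t / 0.9)) / t) + 0.001 := by
    have q := (abs_le.1 (k1 D hDD₁)).2
    have q' : ∑ p ∈ prs (D ^ (2 / 35 : ℝ)) (D ^ (11 / 35 : ℝ)),
        2 * 1.011 * (1 - (Real.log p / Real.log D) / 0.9) * mu p ≤
        (∫ t in (2 / 35 : ℝ)..(11 / 35), (2 * 1.011 * (1 - t / 0.9)) / t) + 0.001 := by linarith
    refine le_trans (Finset.sum_le_sum fun l hl => ?_) q'
    obtain ⟨l1, l2, l3⟩ := t09_range hD1 hl
    have : Fup (Real.log l / Real.log D) = 1.011 := by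
      unfold Fup
      rw [if_pos l2.le]
    rw [this]
  have m2 : ∑ l ∈ prs (D ^ (11 / 35 : ℝ)) (D ^ (19 / 35 : ℝ)),
      (2 * Fup (Real.log l / Real.log D) * (1 - (Real.log l / Real.log D) / 0.9)) * mu l ≤
      (∫ t in (11 / 35 : ℝ)..(19 / 35), (2 * 1.322 * (1 - t / 0.9)) / t) + 0.001 := by
    have q := (abs_le.1 (k2 D hDD₂)).2
    have q' : ∑ p ∈ prs (D ^ (11 / 35 : ℝ)) (D ^ (19 / 35 : ℝ)),
        2 * 1.322 * (1 - (Real.log p / Real.log D) / 0.9) * mu p ≤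
        (∫ t in (11 / 35 : ℝ)..(19 / 35), (2 * 1.322 * (1 - t / 0.9)) / t) + 0.001 := by linarith
    refine le_trans (Finset.sum_le_sum fun l hl => ?_) q'
    obtain ⟨l1, l2, l3⟩ := t09_range hD1 hl
    have hF : Fup (Real.log l / Real.log D) ≤ 1.322 := by
      unfold Fup
      split_ifs
      · norm_num
      · exact le_rfl
      · linarith
    have hu : 0 ≤ 1 - (Real.log l / Real.log D) / 0.9 := by
      rw [sub_nonneg, div_le_one (by norm_num)]
      norm_num at l2 ⊢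
      linarith
    apply mul_le_mul_of_nonneg_right _ (mu_nonneg l)
    apply mul_le_mul_of_nonneg_right _ hu
    linarith
  have m3 : ∑ l ∈ prs (D ^ (19 / 35 : ℝ)) (D ^ (9 / 10 : ℝ)),
      (2 * Fup (Real.log l / Real.log D) * (1 - (Real.log l / Real.log D) / 0.9)) * mu l ≤
      (∫ t in (19 / 35 : ℝ)..0.9, (2 * (84.7 * (2 / 35 / (1 - t)) ^ 2) * (1 - t / 0.9)) / t) +
        0.001 := by
    have e9 : (0.9 : ℝ) = 9 / 10 := by norm_num
    have q := (abs_le.1 (k3 D hDD₃)).2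
    have q' : ∑ p ∈ prs (D ^ (19 / 35 : ℝ)) (D ^ (9 / 10 : ℝ)),
        2 * (84.7 * (2 / 35 / (1 - Real.log p / Real.log D)) ^ 2) *
          (1 - (Real.log p / Real.log D) / 0.9) * mu p ≤
        (∫ t in (19 / 35 : ℝ)..(9 / 10), (2 * (84.7 * (2 / 35 / (1 - t)) ^ 2) * (1 - t / 0.9)) / t) +
        0.001 := by linarith
    have hint : (∫ t in (19 / 35 : ℝ)..0.9, (2 * (84.7 * (2 / 35 / (1 - t)) ^ 2) * (1 - t / 0.9)) / t) =
        ∫ t in (19 / 35 : ℝ)..(9 / 10), (2 * (84.7 * (2 / 35 / (1 - t)) ^ 2) * (1 - t / 0.9)) / t := by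
      congr 1
    rw [hint]
    refine le_trans (Finset.sum_le_sum fun l hl => ?_) q'
    obtain ⟨l1, l2, l3⟩ := t09_range hD1 hl
    set t := Real.log l / Real.log D with ht
    have hF : Fup t ≤ 84.7 * (2 / 35 / (1 - t)) ^ 2 := by
      unfold Fup
      split_ifs with h1 h2
      · exfalso
        linarith
      · have ht' : t = 19 / 35 := le_antisymm h2 l1
        rw [ht']
        norm_num
      · exact le_rfl
    have hu : 0 ≤ 1 - t / 0.9 := by
      rw [sub_nonneg, div_le_one (by norm_num)]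
      norm_num at l2 ⊢
      linarith
    apply mul_le_mul_of_nonneg_right _ (mu_nonneg l)
    apply mul_le_mul_of_nonneg_right _ hu
    linarith
  have hnum := num_int
  have htot : 1.001 * (∑ l ∈ prs (D ^ (2 / 35 : ℝ)) (D ^ (11 / 35 : ℝ)),
      (2 * Fup (Real.log l / Real.log D) * (1 - (Real.log l / Real.log D) / 0.9)) * mu l +
      ∑ l ∈ prs (D ^ (11 / 35 : ℝ)) (D ^ (19 / 35 : ℝ)),
      (2 * Fup (Real.log l / Real.log D) * (1 - (Real.log l / Real.log D) / 0.9)) * mu l +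
      ∑ l ∈ prs (D ^ (19 / 35 : ℝ)) (D ^ (9 / 10 : ℝ)),
      (2 * Fup (Real.log l / Real.log D) * (1 - (Real.log l / Real.log D) / 0.9)) * mu l) ≤
      1.001 * 4.303 := by
    apply mul_le_mul_of_nonneg_left _ (by norm_num)
    norm_num at m1 m2 m3 hnum ⊢
    linarith
  refine hstep.trans (htot.trans ?_)
  norm_num

theorem weightedE : ∃ D₀ : ℝ, 2 ≤ D₀ ∧ ∀ D : ℝ, D₀ ≤ D → ∀ {ι : Type} (I : Finset ι) (w : ι → ℝ)
    (a : ι → ℕ) (X : ℝ) (ν : ℕ → ℝ), (∀ i, 0 ≤ w i) → 0 ≤ X → DensE ν →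
    0.1 * X * VV ν (D ^ (2 / 35 : ℝ)) -
      6 * Real.log D * ∑ d ∈ Dset (D ^ (9 / 10 : ℝ)) D, (d.divisors.card : ℝ) ^ 3 * Rem I w a X ν d ≤
      Wsum I w a (D ^ (2 / 35 : ℝ)) (D ^ (9 / 10 : ℝ)) := by
  obtain ⟨D₁, hD₁2, hlow⟩ := lower_sieveE
  obtain ⟨D₂, hD₂2, hone⟩ := one_lE
  obtain ⟨D₃, hD₃2, hsum⟩ := sum_lE
  refine ⟨max (max D₁ D₂) (max D₃ (3 ^ (18 : ℕ))),
    hD₁2.trans ((le_max_left _ _).trans (le_max_left _ _)), ?_⟩
  intro D hD ι I w a X ν hw hX hν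
  have hD1 : D₁ ≤ D := ((le_max_left _ _).trans (le_max_left _ _)).trans hD
  have hD2 : D₂ ≤ D := ((le_max_right _ _).trans (le_max_left _ _)).trans hD
  have hD3 : D₃ ≤ D := ((le_max_left _ _).trans (le_max_right _ _)).trans hD
  have hD4 : (3 : ℝ) ^ (18 : ℕ) ≤ D := ((le_max_right _ _).trans (le_max_right _ _)).trans hD
  have hD0 : (0 : ℝ) < D := lt_of_lt_of_le (by positivity) hD4
  have hDone : (1 : ℝ) ≤ D := le_trans (by norm_num) hD4
  set z : ℝ := D ^ (2 / 35 : ℝ) with hz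
  set y : ℝ := D ^ (9 / 10 : ℝ) with hy
  have hz3 : 3 ≤ z := by
    have h1 : ((3 : ℝ) ^ (18 : ℕ)) ^ (2 / 35 : ℝ) ≤ z :=
      Real.rpow_le_rpow (by positivity) hD4 (by norm_num)
    have h2 : ((3 : ℝ) ^ (18 : ℕ)) ^ (2 / 35 : ℝ) = 3 ^ (36 / 35 : ℝ) := by
      rw [← Real.rpow_natCast, ← Real.rpow_mul (by norm_num)]
      norm_num
    have h3 : (3 : ℝ) ^ (1 : ℝ) ≤ 3 ^ (36 / 35 : ℝ) :=
      Real.rpow_le_rpow_of_exponent_le (by norm_num) (by norm_num)
    rw [Real.rpow_one] at h3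
    rw [h2] at h1
    exact h3.trans h1
  have hzy : z ≤ y := Real.rpow_le_rpow_of_exponent_le hDone (by norm_num)
  have hy3 : 3 ≤ y := hz3.trans hzy
  have hlogy : 0 < Real.log y := Real.log_pos (by linarith)
  have hV := VVE_nonneg hν z
  have hlogD : 1 ≤ Real.log D := by
    rw [Real.le_log_iff_exp_le hD0]
    have h1 := Real.exp_one_lt_d9
    have h2 : (3 : ℝ) ≤ 3 ^ (18 : ℕ) := by norm_num
    linarith
  set E : ℝ := ∑ m ∈ Dset y D, (m.divisors.card : ℝ) ^ 3 * Rem I w a X ν m with hE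
  have hE0 : 0 ≤ E := Finset.sum_nonneg fun m _ =>
    mul_nonneg (by positivity) (t11_Rem_nonneg I w a X ν m)
  have h1 := hlow D hD1 I w a X ν hw hX hν
  have h2 : ∑ d ∈ Dset z D, Rem I w a X ν d ≤ E := by
    refine (Finset.sum_le_sum_of_subset_of_nonneg (t11_Dset_mono hzy)
      fun m _ _ => t11_Rem_nonneg I w a X ν m).trans ?_
    apply Finset.sum_le_sum
    intro m hm
    have hm1 : 1 ≤ m := t11_Dset_one hm
    have h3 : (1 : ℝ) ≤ (m.divisors.card : ℝ) := by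
      exact_mod_cast Finset.card_pos.mpr ⟨1, Nat.one_mem_divisors.mpr (by omega)⟩
    have h4 : (1 : ℝ) ≤ (m.divisors.card : ℝ) ^ 3 := one_le_pow₀ h3
    have h5 := t11_Rem_nonneg I w a X ν m
    nlinarith
  have hc : ∀ l ∈ prs z y, 0 ≤ 1 - Real.log l / Real.log y ∧ 1 - Real.log l / Real.log y ≤ 1 := by
    intro l hl
    unfold prs at hl
    rw [mem_filter, mem_range, Nat.lt_ceil] at hl
    obtain ⟨hl1, hl2, hl3⟩ := hl
    have hl0 : (0 : ℝ) < l := by exact_mod_cast hl2.pos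
    have h3 : Real.log l ≤ Real.log y := Real.log_le_log hl0 hl1.le
    have h4 : 0 ≤ Real.log l := Real.log_nonneg (by exact_mod_cast hl2.one_lt.le)
    have h5 : Real.log l / Real.log y ≤ 1 := by
      rw [div_le_one hlogy]; exact h3
    have h6 : 0 ≤ Real.log l / Real.log y := div_nonneg h4 hlogy.le
    constructor <;> linarith
  have h3 : ∑ l ∈ prs z y, (1 - Real.log l / Real.log y) *
      Ssum (I.filter (fun i => l ∣ a i)) w a z ≤
      4.31 * (X * VV ν z) + E := by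
    have h4 : ∀ l ∈ prs z y, (1 - Real.log l / Real.log y) *
        Ssum (I.filter (fun i => l ∣ a i)) w a z ≤
        ((1 - Real.log l / Real.log y) * (ν l * Fup (Real.log l / Real.log D))) * (X * VV ν z) +
        ∑ d ∈ Dset z (D / l), (d.divisors.card : ℝ) ^ 2 * Rem I w a X ν (l * d) := by
      intro l hl
      obtain ⟨hc1, hc2⟩ := hc l hl
      have h5 := hone D hD2 I w a X ν hw hX hν l hl
      have h6 : 0 ≤ ∑ d ∈ Dset z (D / l), (d.divisors.card : ℝ) ^ 2 * Rem I w a X ν (l * d) :=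
        Finset.sum_nonneg fun m _ => mul_nonneg (by positivity) (t11_Rem_nonneg I w a X ν _)
      have h7 := mul_le_mul_of_nonneg_left h5 hc1
      refine h7.trans ?_
      rw [mul_add]
      apply add_le_add
      · exact le_of_eq (by ring)
      · exact (mul_le_mul_of_nonneg_right hc2 h6).trans (le_of_eq (one_mul _))
    refine (Finset.sum_le_sum h4).trans ?_
    rw [Finset.sum_add_distrib, ← Finset.sum_mul]
    apply add_le_add
    · exact mul_le_mul_of_nonneg_right (hsum D hD3 ν hν) (mul_nonneg hX hV)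
    · exact err_sum D z y hz3 hzy (fun m => Rem I w a X ν m)
        (fun m => t11_Rem_nonneg I w a X ν m)
  rw [t11_exchange]
  have hXV : 0 ≤ X * VV ν z := mul_nonneg hX hV
  have h8 : Real.log D * ∑ d ∈ Dset z D, Rem I w a X ν d ≤ Real.log D * E :=
    mul_le_mul_of_nonneg_left h2 (by linarith)
  have h9 : E ≤ Real.log D * E := by nlinarith
  have e1 : 0.99 * X * VV ν z = 0.99 * (X * VV ν z) := by ring
  have e2 : 0.1 * X * VV ν z = 0.1 * (X * VV ν z) := by ring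
  have e3 : 6 * Real.log D * E = 6 * (Real.log D * E) := by ring
  rw [e1] at h1
  rw [e2, e3]
  norm_num at h1 h3 ⊢
  linarith


end Pool.Agent.Lib.MP_93793a_nt
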