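import Pool.Agent.Lib.MP_57ec86_nt.K4
import Pool.Agent.Lib.MP_93793a_nt.E1

/-! The roots of `m ^ 2 + m + 1`, `m = x (n - x)`, modulo `d`. -/

set_option autoImplicit false

namespace Pool.Agent.Lib.MP_93793a_nt

open Finset Pool.Agent.Lib.MP_d9bc60_nt.UV Pool.Agent.Lib.MP_d9bc60_nt.AP
open Pool.Agent.Lib.MP_57ec86_nt (PolyLike rhoG nuG aG rhoG_mul)

/-- `m ^ 2 + m + 1` with `m = x (n - x)` -/
def GG (n : ℕ) (x : ℕ) : ℤ := ((x : ℤ) * ((n : ℤ) - x)) ^ 2 + (x : ℤ) * ((n : ℤ) - x) + 1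

theorem GG_poly (n : ℕ) : PolyLike (GG n) := by
  intro d a b h
  have h1 : (a : ℤ) ≡ b [ZMOD d] := Int.natCast_modEq_iff.2 h
  have h2 : (a : ℤ) * ((n : ℤ) - a) ≡ (b : ℤ) * ((n : ℤ) - b) [ZMOD d] :=
    h1.mul ((Int.ModEq.refl _).sub h1)
  have h3 : GG n a ≡ GG n b [ZMOD d] := ((h2.pow 2).add h2).add (Int.ModEq.refl _)
  rw [← Int.modEq_zero_iff_dvd, ← Int.modEq_zero_iff_dvd]
  exact ⟨fun h => h3.symm.trans h, fun h => h3.trans h⟩

theorem GG_pos (n x : ℕ) : 0 < GG n x := by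
  unfold GG
  nlinarith [sq_nonneg (2 * ((x : ℤ) * ((n : ℤ) - x)) + 1)]

/-- the number of the residue classes modulo `d` in which `G` is divisible by `d` -/
noncomputable def rhoA (G : ℕ → ℤ) (d : ℕ) : ℕ :=
  ((range d).filter (fun x => (d : ℤ) ∣ G x)).card

/-- `rhoA d / d` -/
noncomputable def nuA (G : ℕ → ℤ) (d : ℕ) : ℝ := (rhoA G d : ℝ) / d

theorem rhoA_mul {G : ℕ → ℤ} (hG : PolyLike G) (d e : ℕ) (h : d.Coprime e) :
    rhoA G (d * e) = rhoA G d * rhoA G e := by
  classical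
  rcases Nat.eq_zero_or_pos d with rfl | hd
  · simp [rhoA]
  rcases Nat.eq_zero_or_pos e with rfl | he
  · simp [rhoA]
  rw [rhoA, rhoA, rhoA, ← Finset.card_product]
  have hcop : IsCoprime (d : ℤ) (e : ℤ) := Nat.isCoprime_iff_coprime.mpr h
  have key : ∀ x : ℕ, ((d * e : ℕ) : ℤ) ∣ G x ↔ (d : ℤ) ∣ G (x % d) ∧ (e : ℤ) ∣ G (x % e) := by
    intro x
    rw [hG d (x % d) x (Nat.mod_modEq x d), hG e (x % e) x (Nat.mod_modEq x e), Nat.cast_mul]
    constructor
    · intro h3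
      exact ⟨(Dvd.intro _ rfl).trans h3, (Dvd.intro_left _ rfl).trans h3⟩
    · rintro ⟨h2, h4⟩
      exact hcop.mul_dvd h2 h4
  refine Finset.card_nbij' (fun x => (x % d, x % e))
    (fun p => (Nat.chineseRemainder h p.1 p.2 : ℕ)) ?_ ?_ ?_ ?_
  · intro x hx
    simp only [Finset.coe_filter, Finset.mem_range, Set.mem_ofPred_eq] at hx
    simp only [Finset.coe_product, Finset.coe_filter, Finset.mem_range, Set.mem_prod,
      Set.mem_ofPred_eq]
    have := (key x).mp hx.2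
    exact ⟨⟨Nat.mod_lt _ hd, this.1⟩, ⟨Nat.mod_lt _ he, this.2⟩⟩
  · rintro ⟨u, v⟩ hx
    simp only [Finset.coe_product, Finset.coe_filter, Finset.mem_range, Set.mem_prod,
      Set.mem_ofPred_eq] at hx
    simp only [Finset.coe_filter, Finset.mem_range, Set.mem_ofPred_eq]
    have h1 := (Nat.chineseRemainder h u v).2.1
    have h2 := (Nat.chineseRemainder h u v).2.2
    refine ⟨Nat.chineseRemainder_lt_mul h u v hd.ne' he.ne', (key _).mpr ?_⟩
    have h3 : (Nat.chineseRemainder h u v : ℕ) % d = u := by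
      rw [Nat.ModEq] at h1
      rw [h1, Nat.mod_eq_of_lt hx.1.1]
    have h4 : (Nat.chineseRemainder h u v : ℕ) % e = v := by
      rw [Nat.ModEq] at h2
      rw [h2, Nat.mod_eq_of_lt hx.2.1]
    rw [h3, h4]
    exact ⟨hx.1.2, hx.2.2⟩
  · intro x hx
    simp only [Finset.coe_filter, Finset.mem_range, Set.mem_ofPred_eq] at hx
    have h1 := (Nat.chineseRemainder h (x % d) (x % e)).2.1
    have h2 := (Nat.chineseRemainder h (x % d) (x % e)).2.2
    have h3 : (Nat.chineseRemainder h (x % d) (x % e) : ℕ) ≡ x [MOD d * e] :=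
      (Nat.modEq_and_modEq_iff_modEq_mul h).mp
        ⟨h1.trans (Nat.mod_modEq x d), h2.trans (Nat.mod_modEq x e)⟩
    have h4 := Nat.chineseRemainder_lt_mul h (x % d) (x % e) hd.ne' he.ne'
    exact Nat.ModEq.eq_of_lt_of_lt h3 h4 hx.1
  · rintro ⟨u, v⟩ hx
    simp only [Finset.coe_product, Finset.coe_filter, Finset.mem_range, Set.mem_prod,
      Set.mem_ofPred_eq] at hx
    have h1 := (Nat.chineseRemainder h u v).2.1
    have h2 := (Nat.chineseRemainder h u v).2.2
    rw [Nat.ModEq] at h1 h2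
    simp only [Prod.mk.injEq]
    rw [h1, h2]
    exact ⟨Nat.mod_eq_of_lt hx.1.1, Nat.mod_eq_of_lt hx.2.1⟩


theorem rhoA_le {G : ℕ → ℤ} (hG : PolyLike G) (h4 : ∀ p : ℕ, p.Prime → rhoA G p ≤ 4) (d : ℕ) (hd : Squarefree d) :
    rhoA G d ≤ d.divisors.card ^ 2 := by
  induction d using Nat.recOnPosPrimePosCoprime with
  | prime_pow p n hp hn =>
    have h1 : n = 1 := by
      by_contra hne
      have h2 : 2 ≤ n := by omega
      have h3 : p * p ∣ p ^ n := by rw [← pow_two]; exact pow_dvd_pow p h2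
      exact hp.not_isUnit (hd p h3)
    subst h1
    rw [pow_one, Nat.Prime.divisors hp, Finset.card_pair hp.one_lt.ne]
    exact h4 p hp
  | zero => simp [rhoA]
  | one =>
    rw [rhoA]
    refine (Finset.card_filter_le _ _).trans ?_
    simp
  | coprime a c ha hc hac iha ihc =>
    rw [rhoA_mul hG a c hac, Nat.Coprime.card_divisors_mul hac, mul_pow]
    exact Nat.mul_le_mul (iha (hd.squarefree_of_dvd (Dvd.intro _ rfl)))
      (ihc (hd.squarefree_of_dvd (Dvd.intro_left _ rfl)))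


theorem rhoG_le_rhoA (G : ℕ → ℤ) (d : ℕ) : rhoG G d ≤ rhoA G d := by
  unfold rhoG rhoA
  apply Finset.card_le_card
  intro x hx
  rw [Finset.mem_filter] at hx ⊢
  exact ⟨hx.1, hx.2.2⟩

open Polynomial in
theorem rhoA_four (n p : ℕ) (hp : p.Prime) : rhoA (GG n) p ≤ 4 := by
  classical
  haveI : Fact p.Prime := ⟨hp⟩
  set A : (ZMod p)[X] := X ^ 4 + (C (-2 * (n : ZMod p)) * X ^ 3 + C ((n : ZMod p) ^ 2 - 1) * X ^ 2 +
    C (n : ZMod p) * X + 1) with hA
  have hlow : (C (-2 * (n : ZMod p)) * X ^ 3 + C ((n : ZMod p) ^ 2 - 1) * X ^ 2 +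
    C (n : ZMod p) * X + 1).natDegree ≤ 3 := by compute_degree
  have hdeg : A.natDegree ≤ 4 := by
    rw [hA]
    refine (natDegree_add_le _ _).trans (max_le (by rw [natDegree_X_pow]) (hlow.trans (by norm_num)))
  have hA0 : A ≠ 0 := by
    intro h
    have h1 : A.coeff 4 = 1 := by
      rw [hA, coeff_add, coeff_X_pow, if_pos rfl, coeff_eq_zero_of_natDegree_lt (lt_of_le_of_lt hlow (by norm_num)),
        add_zero]
    rw [h, coeff_zero] at h1
    exact zero_ne_one h1
  have hcard : A.roots.toFinset.card ≤ 4 :=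
    (Multiset.toFinset_card_le _).trans ((card_roots' _).trans hdeg)
  refine le_trans ?_ hcard
  rw [rhoA]
  refine Finset.card_le_card_of_injOn (fun r : ℕ => (r : ZMod p)) ?_ ?_
  · intro r hr
    have hr' := (Finset.mem_filter.1 (Finset.mem_coe.1 hr)).2
    rw [← ZMod.intCast_zmod_eq_zero_iff_dvd] at hr'
    rw [Finset.mem_coe, Multiset.mem_toFinset, mem_roots hA0, IsRoot.def]
    rw [GG] at hr'
    push_cast at hr'
    simp only [hA, eval_mul, eval_add, eval_sub, eval_C, eval_X, eval_pow, eval_one]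
    linear_combination hr'
  · intro r hr s hs hrs
    have h1 := Finset.mem_range.1 (Finset.mem_filter.1 (Finset.mem_coe.1 hr)).1
    have h2 := Finset.mem_range.1 (Finset.mem_filter.1 (Finset.mem_coe.1 hs)).1
    simp only at hrs
    rw [ZMod.natCast_eq_natCast_iff', Nat.mod_eq_of_lt h1, Nat.mod_eq_of_lt h2] at hrs
    exact hrs

/-- `t ^ 2 + t + 1` has no roots modulo a prime `2` modulo `3` -/
theorem no_root (p : ℕ) (hp : p.Prime) (h5 : 5 ≤ p) (h : p % 3 = 2) (t : ZMod p) : t ^ 2 + t + 1 ≠ 0 := by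
  haveI : Fact p.Prime := ⟨hp⟩
  intro h0
  have h1 : t ^ 3 = 1 := by linear_combination (t - 1) * h0
  obtain ⟨k, hk⟩ : ∃ k, p = 3 * k + 2 := ⟨p / 3, by omega⟩
  have ht : t ≠ 0 := by
    rintro rfl
    simp at h0
  have h2 := ZMod.pow_card_sub_one_eq_one ht
  have h3 : p - 1 = 3 * k + 1 := by omega
  rw [h3, pow_succ, pow_mul, h1, one_pow, one_mul] at h2
  rw [h2] at h0
  have h4 : ((3 : ℕ) : ZMod p) = 0 := by
    push_cast
    linear_combination h0
  rw [ZMod.natCast_eq_zero_iff] at h4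
  have := Nat.le_of_dvd (by norm_num) h4
  omega

theorem rhoA_zero (n p : ℕ) (hp : p.Prime) (h5 : 5 ≤ p) (h : p % 3 = 2) : rhoA (GG n) p = 0 := by
  rw [rhoA, Finset.card_eq_zero, Finset.filter_eq_empty_iff]
  intro x _ hx
  rw [← ZMod.intCast_zmod_eq_zero_iff_dvd, GG] at hx
  push_cast at hx
  exact no_root p hp h5 h _ hx

theorem e3_mod3 : ∀ n : ZMod 3, ¬ (((1 : ZMod 3) * (n - 1)) ^ 2 + 1 * (n - 1) + 1 = 0 ∧
      ((2 : ZMod 3) * (n - 2)) ^ 2 + 2 * (n - 2) + 1 = 0) := by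
  decide

theorem rhoA_three (n : ℕ) : rhoA (GG n) 3 ≤ 1 := by
  classical
  by_contra hcon
  push Not at hcon
  rw [rhoA] at hcon
  set S := (range 3).filter (fun r => ((3 : ℕ) : ℤ) ∣ GG n r) with hS
  have hsub : S ⊆ {1, 2} := by
    intro r hr
    rw [hS, Finset.mem_filter, Finset.mem_range] at hr
    obtain ⟨h1, h2⟩ := hr
    interval_cases r
    · exfalso
      unfold GG at h2
      norm_num at h2
    · simp
    · simp
  have hcard : ({1, 2} : Finset ℕ).card ≤ S.card := by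
    have : ({1, 2} : Finset ℕ).card = 2 := by decide
    omega
  have heq : S = {1, 2} := Finset.eq_of_subset_of_card_le hsub hcard
  have m1 : 1 ∈ S := by rw [heq]; simp
  have m2 : 2 ∈ S := by rw [heq]; simp
  have d1 := (Finset.mem_filter.1 m1).2
  have d2 := (Finset.mem_filter.1 m2).2
  rw [← ZMod.intCast_zmod_eq_zero_iff_dvd, GG] at d1 d2
  push_cast at d1 d2
  exact e3_mod3 (n : ZMod 3) ⟨by linear_combination d1, by linear_combination d2⟩

theorem densA (n : ℕ) : DensE (nuA (GG n)) where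
  one := by
    have h : rhoA (GG n) 1 = 1 := by
      rw [rhoA, Finset.filter_true_of_mem]
      · simp
      · intro r _
        simp
    rw [nuA, h]
    simp
  nonneg := fun d => div_nonneg (Nat.cast_nonneg _) (Nat.cast_nonneg _)
  mul := by
    intro d e h
    rw [nuA, nuA, nuA, rhoA_mul (GG_poly n) d e h]
    push_cast
    rw [div_mul_div_comm]
  three := by
    have h1 : ((rhoA (GG n) 3 : ℕ) : ℝ) ≤ 1 := by exact_mod_cast rhoA_three n
    rw [nuA]
    push_cast
    linarith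
  le1 := by
    intro p hp h3
    have h1 : ((rhoA (GG n) p : ℕ) : ℝ) ≤ 4 := by exact_mod_cast rhoA_four n p hp
    have h2 : (2 : ℝ) ≤ p := by exact_mod_cast hp.two_le
    rw [nuA, div_le_div_iff₀ (by linarith) (by linarith)]
    have h0 : (0 : ℝ) ≤ (rhoA (GG n) p : ℕ) := Nat.cast_nonneg _
    nlinarith
  le2 := by
    intro p hp h5 h3
    rw [nuA, rhoA_zero n p hp h5 h3]
    simp

theorem densG (n : ℕ) : DensE (nuG (GG n)) where
  one := by
    have h : rhoG (GG n) 1 = 1 := by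
      rw [rhoG, Finset.filter_true_of_mem]
      · simp
      · intro r _
        exact ⟨Nat.coprime_one_right r, by simp⟩
    rw [nuG, h]
    simp
  nonneg := fun d => div_nonneg (Nat.cast_nonneg _) (Nat.cast_nonneg _)
  mul := by
    intro d e h
    rw [nuG, nuG, nuG, rhoG_mul (GG_poly n) d e h, Nat.totient_mul h]
    push_cast
    rw [div_mul_div_comm]
  three := by
    have h1 : ((rhoG (GG n) 3 : ℕ) : ℝ) ≤ 1 := by
      exact_mod_cast (rhoG_le_rhoA (GG n) 3).trans (rhoA_three n)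
    have h2 : Nat.totient 3 = 2 := by decide
    rw [nuG, h2]
    push_cast
    linarith
  le1 := by
    intro p hp h3
    have h1 : ((rhoG (GG n) p : ℕ) : ℝ) ≤ 4 := by
      exact_mod_cast (rhoG_le_rhoA (GG n) p).trans (rhoA_four n p hp)
    have h2 : ((Nat.totient p : ℕ) : ℝ) = (p : ℝ) - 1 := by
      rw [Nat.totient_prime hp, Nat.cast_sub hp.one_le, Nat.cast_one]
    have h3 : (2 : ℝ) ≤ p := by exact_mod_cast hp.two_le
    rw [nuG, h2]
    exact div_le_div_of_nonneg_right h1 (by linarith)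
  le2 := by
    intro p hp h5 h3
    have h1 : rhoG (GG n) p = 0 := by
      have := rhoG_le_rhoA (GG n) p
      rw [rhoA_zero n p hp h5 h3] at this
      omega
    rw [nuG, h1]
    simp

end Pool.Agent.Lib.MP_93793a_nt
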