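import Pool.Agent.Lib.MP_93793a_nt.F1
import Pool.Agent.Lib.MP_d9bc60_nt.AQ.QRho

/-! Values of `m ^ 2 + m + 1`, `m = x (n - x)`, divisible by the square of a medium prime. -/

set_option autoImplicit false

namespace Pool.Agent.Lib.MP_93793a_nt

open Finset Pool.Agent.Lib.MP_d9bc60_nt.UV Pool.Agent.Lib.MP_d9bc60_nt.AP
open Pool.Agent.Lib.MP_57ec86_nt (PolyLike rhoG nuG aG rhoG_mul)

/-- the `x ≤ P` for which `l ^ 2` divides `x (n - x) - x₀ (n - x₀)` -/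
def TT (P n l : ℕ) (x0 : ℤ) : Finset ℕ :=
  (Icc 1 P).filter (fun x : ℕ => ((l ^ 2 : ℕ) : ℤ) ∣ ((x : ℤ) - x0) * ((n : ℤ) - x - x0))

theorem TT_special (P n l : ℕ) (hl : l.Prime) (x0 : ℤ) :
    ((TT P n l x0).card : ℝ) ≤ 2 * ((P : ℝ) / l + 1) := by
  classical
  have hlp : Prime (l : ℤ) := Nat.prime_iff_prime_int.1 hl
  have hl1 : (l : ℤ) ∣ ((l ^ 2 : ℕ) : ℤ) := by
    push_cast
    exact dvd_pow_self _ two_ne_zero
  have hsub : TT P n l x0 ⊆ (Icc 1 P).filter (fun x : ℕ => (l : ℤ) ∣ (x : ℤ) - x0) ∪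
      (Icc 1 P).filter (fun x : ℕ => (l : ℤ) ∣ (x : ℤ) - ((n : ℤ) - x0)) := by
    intro x hx
    unfold TT at hx
    rw [mem_filter] at hx
    rw [mem_union, mem_filter, mem_filter]
    rcases hlp.dvd_or_dvd (hl1.trans hx.2) with h | h
    · exact Or.inl ⟨hx.1, h⟩
    · refine Or.inr ⟨hx.1, ?_⟩
      have h2 := (dvd_neg (a := (l : ℤ))).2 h
      have e : -((n : ℤ) - x - x0) = (x : ℤ) - ((n : ℤ) - x0) := by ring
      rwa [e] at h2
  have hcard := (card_le_card hsub).trans (card_union_le _ _)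
  have hA := a04_class P l hl.pos x0
  have hB := a04_class P l hl.pos ((n : ℤ) - x0)
  have hcardR : ((TT P n l x0).card : ℝ) ≤
      (((Icc 1 P).filter (fun x : ℕ => (l : ℤ) ∣ (x : ℤ) - x0)).card : ℝ) +
      (((Icc 1 P).filter (fun x : ℕ => (l : ℤ) ∣ (x : ℤ) - ((n : ℤ) - x0))).card : ℝ) := by
    exact_mod_cast hcard
  linarith

theorem TT_gen (P n l : ℕ) (hl : l.Prime) (x0 : ℤ) (h0 : ¬ (l : ℤ) ∣ (n : ℤ) - 2 * x0) :
    ((TT P n l x0).card : ℝ) ≤ 2 * ((P : ℝ) / (l : ℝ) ^ 2 + 1) := by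
  classical
  have hlp : Prime (l : ℤ) := Nat.prime_iff_prime_int.1 hl
  have hl2 : 0 < l ^ 2 := pow_pos hl.pos 2
  have hsub : TT P n l x0 ⊆ (Icc 1 P).filter (fun x : ℕ => ((l ^ 2 : ℕ) : ℤ) ∣ (x : ℤ) - x0) ∪
      (Icc 1 P).filter (fun x : ℕ => ((l ^ 2 : ℕ) : ℤ) ∣ (x : ℤ) - ((n : ℤ) - x0)) := by
    intro x hx
    unfold TT at hx
    rw [mem_filter] at hx
    rw [mem_union, mem_filter, mem_filter]
    by_cases h : (l : ℤ) ∣ (x : ℤ) - x0
    · left
      refine ⟨hx.1, ?_⟩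
      have h1 : ¬ (l : ℤ) ∣ (n : ℤ) - x - x0 := by
        intro h2
        apply h0
        have h3 := dvd_add h h2
        have e : (x : ℤ) - x0 + ((n : ℤ) - x - x0) = (n : ℤ) - 2 * x0 := by ring
        rwa [e] at h3
      have hcop : IsCoprime ((l ^ 2 : ℕ) : ℤ) ((n : ℤ) - x - x0) := by
        push_cast
        exact IsCoprime.pow_left ((Prime.coprime_iff_not_dvd hlp).2 h1)
      exact hcop.dvd_of_dvd_mul_right hx.2
    · right
      refine ⟨hx.1, ?_⟩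
      have hcop : IsCoprime ((l ^ 2 : ℕ) : ℤ) ((x : ℤ) - x0) := by
        push_cast
        exact IsCoprime.pow_left ((Prime.coprime_iff_not_dvd hlp).2 h)
      have h2 := (dvd_neg (a := ((l ^ 2 : ℕ) : ℤ))).2 (hcop.dvd_of_dvd_mul_left hx.2)
      have e : -((n : ℤ) - x - x0) = (x : ℤ) - ((n : ℤ) - x0) := by ring
      rwa [e] at h2
  have hcard := (card_le_card hsub).trans (card_union_le _ _)
  have hA := a04_class P (l ^ 2) hl2 x0
  have hB := a04_class P (l ^ 2) hl2 ((n : ℤ) - x0)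
  have hcardR : ((TT P n l x0).card : ℝ) ≤
      (((Icc 1 P).filter (fun x : ℕ => ((l ^ 2 : ℕ) : ℤ) ∣ (x : ℤ) - x0)).card : ℝ) +
      (((Icc 1 P).filter (fun x : ℕ => ((l ^ 2 : ℕ) : ℤ) ∣ (x : ℤ) - ((n : ℤ) - x0))).card : ℝ) := by
    exact_mod_cast hcard
  have e : (((l ^ 2 : ℕ)) : ℝ) = (l : ℝ) ^ 2 := by push_cast; ring
  rw [e] at hA hB
  linarith

/-- the `x ≤ P` for which `l ^ 2` divides the value -/
def SQ (P n l : ℕ) : Finset ℕ := (Icc 1 P).filter (fun x => l ^ 2 ∣ aG (GG n) x)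

theorem SQ_dvd {P n l x : ℕ} (hx : x ∈ SQ P n l) : x ∈ Icc 1 P ∧ ((l ^ 2 : ℕ) : ℤ) ∣ GG n x := by
  unfold SQ at hx
  rw [mem_filter] at hx
  refine ⟨hx.1, ?_⟩
  have h1 : ((l ^ 2 : ℕ) : ℤ) ∣ ((aG (GG n) x : ℕ) : ℤ) := Int.natCast_dvd_natCast.2 hx.2
  rwa [aG, Int.toNat_of_nonneg (GG_pos n x).le] at h1

theorem SQ_two (P n l : ℕ) (hl : l.Prime) (h5 : 5 ≤ l) (B : ℝ) (hB0 : 0 ≤ B)
    (hB : ∀ x ∈ SQ P n l, ((TT P n l x).card : ℝ) ≤ B) : ((SQ P n l).card : ℝ) ≤ 2 * B := by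
  classical
  have hlp : Prime (l : ℤ) := Nat.prime_iff_prime_int.1 hl
  have hl1 : (l : ℤ) ∣ ((l ^ 2 : ℕ) : ℤ) := by
    push_cast
    exact dvd_pow_self _ two_ne_zero
  rcases (SQ P n l).eq_empty_or_nonempty with he | ⟨x1, hx1⟩
  · rw [he]
    simp only [card_empty, Nat.cast_zero]
    linarith
  obtain ⟨h1, hd1⟩ := SQ_dvd hx1
  -- a second solution differs or is opposite
  have key : ∀ x ∈ SQ P n l, x ∈ TT P n l x1 ∨
      ((l ^ 2 : ℕ) : ℤ) ∣ (x : ℤ) * ((n : ℤ) - x) + (x1 : ℤ) * ((n : ℤ) - x1) + 1 := by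
    intro x hx
    obtain ⟨h2, hd2⟩ := SQ_dvd hx
    have hprod : ((l ^ 2 : ℕ) : ℤ) ∣ (((x : ℤ) - x1) * ((n : ℤ) - x - x1)) *
        ((x : ℤ) * ((n : ℤ) - x) + (x1 : ℤ) * ((n : ℤ) - x1) + 1) := by
      have := dvd_sub hd2 hd1
      have e : GG n x - GG n x1 = (((x : ℤ) - x1) * ((n : ℤ) - x - x1)) *
        ((x : ℤ) * ((n : ℤ) - x) + (x1 : ℤ) * ((n : ℤ) - x1) + 1) := by
        unfold GG
        ring
      rwa [e] at this
    by_cases ha : (l : ℤ) ∣ ((x : ℤ) - x1) * ((n : ℤ) - x - x1)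
    · left
      have hb : ¬ (l : ℤ) ∣ (x : ℤ) * ((n : ℤ) - x) + (x1 : ℤ) * ((n : ℤ) - x1) + 1 := by
        intro hb
        have h3 : (l : ℤ) ∣ 2 * ((x1 : ℤ) * ((n : ℤ) - x1)) + 1 := by
          have := dvd_sub hb ha
          have e : (x : ℤ) * ((n : ℤ) - x) + (x1 : ℤ) * ((n : ℤ) - x1) + 1 -
            ((x : ℤ) - x1) * ((n : ℤ) - x - x1) = 2 * ((x1 : ℤ) * ((n : ℤ) - x1)) + 1 := by ring
          rwa [e] at this
        have h4 : (l : ℤ) ∣ 3 := by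
          have h6 := dvd_sub (Dvd.dvd.mul_left (hl1.trans hd1) 4)
            (Dvd.dvd.mul_left h3 (2 * ((x1 : ℤ) * ((n : ℤ) - x1)) + 1))
          have e : 4 * GG n x1 - (2 * ((x1 : ℤ) * ((n : ℤ) - x1)) + 1) *
            (2 * ((x1 : ℤ) * ((n : ℤ) - x1)) + 1) = 3 := by
            unfold GG
            ring
          rwa [e] at h6
        have h7 : l ∣ 3 := by exact_mod_cast h4
        have := Nat.le_of_dvd (by norm_num) h7
        omega
      unfold TT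
      rw [mem_filter]
      refine ⟨h2, ?_⟩
      have hcop : IsCoprime ((l ^ 2 : ℕ) : ℤ) ((x : ℤ) * ((n : ℤ) - x) + (x1 : ℤ) * ((n : ℤ) - x1) + 1) := by
        push_cast
        exact IsCoprime.pow_left ((Prime.coprime_iff_not_dvd hlp).2 hb)
      exact hcop.dvd_of_dvd_mul_right hprod
    · right
      have hcop : IsCoprime ((l ^ 2 : ℕ) : ℤ) (((x : ℤ) - x1) * ((n : ℤ) - x - x1)) := by
        push_cast
        exact IsCoprime.pow_left ((Prime.coprime_iff_not_dvd hlp).2 ha)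
      exact hcop.dvd_of_dvd_mul_left hprod
  by_cases hall : SQ P n l ⊆ TT P n l x1
  · have h2 := card_le_card hall
    have h3 : ((SQ P n l).card : ℝ) ≤ ((TT P n l x1).card : ℝ) := by exact_mod_cast h2
    have h4 := hB x1 hx1
    linarith
  · rw [Finset.not_subset] at hall
    obtain ⟨x2, hx2, hx2'⟩ := hall
    have h6 : ((l ^ 2 : ℕ) : ℤ) ∣ (x2 : ℤ) * ((n : ℤ) - x2) + (x1 : ℤ) * ((n : ℤ) - x1) + 1 := by
      rcases key x2 hx2 with h | h
      · exact absurd h hx2'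
      · exact h
    have hsub : SQ P n l ⊆ TT P n l x1 ∪ TT P n l x2 := by
      intro x hx
      rw [mem_union]
      rcases key x hx with h | h
      · exact Or.inl h
      · right
        unfold TT
        rw [mem_filter]
        refine ⟨(SQ_dvd hx).1, ?_⟩
        have := dvd_sub h h6
        have e : (x : ℤ) * ((n : ℤ) - x) + (x1 : ℤ) * ((n : ℤ) - x1) + 1 -
          ((x2 : ℤ) * ((n : ℤ) - x2) + (x1 : ℤ) * ((n : ℤ) - x1) + 1) =
          ((x : ℤ) - x2) * ((n : ℤ) - x - x2) := by ring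
        rwa [e] at this
    have hcard := (card_le_card hsub).trans (card_union_le _ _)
    have hcardR : ((SQ P n l).card : ℝ) ≤ ((TT P n l x1).card : ℝ) + ((TT P n l x2).card : ℝ) := by
      exact_mod_cast hcard
    have h7 := hB x1 hx1
    have h8 := hB x2 hx2
    linarith

/-- the norm of `n ^ 2 - 4 ω` -/
def DD (n : ℕ) : ℕ := n ^ 4 + 4 * n ^ 2 + 16

theorem SQ_special (P n l : ℕ) (hl : l.Prime) (h5 : 5 ≤ l) :
    ((SQ P n l).card : ℝ) ≤ 4 * ((P : ℝ) / l + 1) := by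
  have h := SQ_two P n l hl h5 (2 * ((P : ℝ) / l + 1)) (by positivity)
    (fun x _ => TT_special P n l hl x)
  linarith

theorem SQ_gen (P n l : ℕ) (hl : l.Prime) (h5 : 5 ≤ l) (hΔ : ¬ l ∣ DD n) :
    ((SQ P n l).card : ℝ) ≤ 4 * ((P : ℝ) / (l : ℝ) ^ 2 + 1) := by
  have hl1 : (l : ℤ) ∣ ((l ^ 2 : ℕ) : ℤ) := by
    push_cast
    exact dvd_pow_self _ two_ne_zero
  have h := SQ_two P n l hl h5 (2 * ((P : ℝ) / (l : ℝ) ^ 2 + 1)) (by positivity)
    (fun x hx => TT_gen P n l hl x (by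
      intro h0
      apply hΔ
      obtain ⟨-, hd⟩ := SQ_dvd hx
      have h1 : (l : ℤ) ∣ 16 * GG n x := Dvd.dvd.mul_left (hl1.trans hd) 16
      have h2 : (l : ℤ) ∣ ((n : ℤ) - 2 * x) *
          (((n : ℤ) - 2 * x) * ((n : ℤ) ^ 2 + 4 * ((x : ℤ) * ((n : ℤ) - x)) + 4)) :=
        Dvd.dvd.mul_right h0 _
      have h3 := dvd_add h1 h2
      have e : 16 * GG n x + ((n : ℤ) - 2 * x) *
          (((n : ℤ) - 2 * x) * ((n : ℤ) ^ 2 + 4 * ((x : ℤ) * ((n : ℤ) - x)) + 4)) =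
          ((DD n : ℕ) : ℤ) := by
        unfold GG DD
        push_cast
        ring
      rw [e] at h3
      exact_mod_cast h3))
  linarith

theorem prs_spec (z y : ℝ) (hz : 3 ≤ z) (M : ℕ) (hM : 1 ≤ M) :
    (((prs z y).filter (fun l : ℕ => l ∣ M)).card : ℝ) ≤ Real.log M / Real.log z := by
  classical
  have hz1 : 1 < z := by linarith
  have hlog : 0 < Real.log z := Real.log_pos hz1
  set T := (prs z y).filter (fun l : ℕ => l ∣ M) with hT
  have hdvd : ∏ l ∈ T, l ∣ M := by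
    refine Finset.prod_primes_dvd _ ?_ ?_
    · intro l hl
      rw [hT, mem_filter] at hl
      exact (a05_mem hl.1).2.1.prime
    · intro l hl
      rw [hT, mem_filter] at hl
      exact hl.2
  have hle : ∏ l ∈ T, l ≤ M := Nat.le_of_dvd hM hdvd
  have hprod : z ^ T.card ≤ ((∏ l ∈ T, l : ℕ) : ℝ) := by
    rw [← prod_const, Nat.cast_prod]
    refine prod_le_prod (fun _ _ => by linarith) ?_
    intro l hl
    rw [hT, mem_filter] at hl
    exact (a05_mem hl.1).2.2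
  have hfin : z ^ T.card ≤ (M : ℝ) := hprod.trans (by exact_mod_cast hle)
  rw [le_div_iff₀ hlog, ← Real.log_pow]
  exact Real.log_le_log (pow_pos (by linarith) _) hfin

theorem nonsqE (P n : ℕ) (z y : ℝ) (hz : 5 ≤ z) (hzy : z ≤ y) :
    (((Icc 1 P).filter (fun x => ∃ l ∈ prs z y, l ^ 2 ∣ aG (GG n) x)).card : ℝ) ≤
      (8 * P / z + 4 * y) * (1 + Real.log (DD n) / Real.log z) := by
  classical
  have hz0 : 0 < z := by linarith
  have hP : (0 : ℝ) ≤ P := Nat.cast_nonneg P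
  have hDD : 1 ≤ DD n := by unfold DD; omega
  have hsub : (Icc 1 P).filter (fun x => ∃ l ∈ prs z y, l ^ 2 ∣ aG (GG n) x) ⊆
      (prs z y).biUnion (fun l => SQ P n l) := by
    intro x hx
    rw [mem_filter] at hx
    obtain ⟨h1, l, hl, h2⟩ := hx
    rw [mem_biUnion]
    exact ⟨l, hl, mem_filter.mpr ⟨h1, h2⟩⟩
  have hcard := (card_le_card hsub).trans card_biUnion_le
  have hcard' : (((Icc 1 P).filter (fun x => ∃ l ∈ prs z y, l ^ 2 ∣ aG (GG n) x)).card : ℝ) ≤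
      ∑ l ∈ prs z y, ((SQ P n l).card : ℝ) := by
    exact_mod_cast hcard
  have hterm : ∀ l ∈ prs z y, ((SQ P n l).card : ℝ) ≤
      (4 * P * ((l : ℝ) ^ 2)⁻¹ + 4) + (if l ∣ DD n then (4 * ((P : ℝ) / z) + 4) else 0) := by
    intro l hl
    obtain ⟨h1, h2, h3⟩ := a05_mem hl
    have h3' : 5 ≤ l := by
      have : ((5 : ℕ) : ℝ) ≤ l := by push_cast; linarith
      exact_mod_cast this
    have hl0 : 0 < (l : ℝ) := by linarith
    split_ifs with hd
    · have h4 := SQ_special P n l h2 h3'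
      have h5 : (P : ℝ) / l ≤ P / z := div_le_div_of_nonneg_left hP hz0 h3
      have h6 : 0 ≤ 4 * (P : ℝ) * ((l : ℝ) ^ 2)⁻¹ := by positivity
      linarith
    · have h4 := SQ_gen P n l h2 h3' hd
      have e1 : 4 * ((P : ℝ) / (l : ℝ) ^ 2 + 1) = 4 * P * ((l : ℝ) ^ 2)⁻¹ + 4 := by
        rw [div_eq_mul_inv]; ring
      linarith
  refine hcard'.trans ((sum_le_sum hterm).trans ?_)
  rw [sum_add_distrib, sum_add_distrib, ← mul_sum, sum_const, ← sum_filter, sum_const,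
    nsmul_eq_mul, nsmul_eq_mul]
  have h1 := a05_inv z y (by linarith)
  have h2 := a05_card z y (by linarith) (by linarith)
  have h3 := prs_spec z y (by linarith) (DD n) hDD
  have hR : 0 ≤ Real.log (DD n) / Real.log z := (Nat.cast_nonneg _).trans h3
  have h4 : 4 * (P : ℝ) * ∑ l ∈ prs z y, ((l : ℝ) ^ 2)⁻¹ ≤ 4 * P * (2 / z) :=
    mul_le_mul_of_nonneg_left h1 (by linarith)
  have h5 : 4 * (P : ℝ) * (2 / z) = 8 * P / z := by ring
  have hPz : 0 ≤ (P : ℝ) / z := div_nonneg hP hz0.le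
  have h6 : (((prs z y).filter (fun l : ℕ => l ∣ DD n)).card : ℝ) *
      (4 * ((P : ℝ) / z) + 4) ≤ Real.log (DD n) / Real.log z * (4 * ((P : ℝ) / z) + 4) :=
    mul_le_mul_of_nonneg_right h3 (by linarith)
  have h7 : Real.log (DD n) / Real.log z * (4 * ((P : ℝ) / z) + 4) ≤
      Real.log (DD n) / Real.log z * (8 * P / z + 4 * y) := by
    refine mul_le_mul_of_nonneg_left ?_ hR
    have e2 : 8 * (P : ℝ) / z = 8 * (P / z) := by ring
    rw [e2]
    linarith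
  have e3 : (8 * (P : ℝ) / z + 4 * y) * (1 + Real.log (DD n) / Real.log z) =
      8 * P / z + 4 * y + Real.log (DD n) / Real.log z * (8 * P / z + 4 * y) := by
    ring
  rw [e3]
  linarith

end Pool.Agent.Lib.MP_93793a_nt
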