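import Mathlib

set_option autoImplicit false

namespace Pool.Agent.Lib.MP_93793a_nt

open Finset

/-- the nonprincipal character modulo 3 -/
def ch (n : ℕ) : ℝ := if n % 3 = 1 then 1 else if n % 3 = 2 then -1 else 0

/-- the sum of `ch` over the numbers smaller than `n` -/
def ee (n : ℕ) : ℝ := if n % 3 = 2 then 1 else 0

theorem ch_mul (m n : ℕ) : ch (m * n) = ch m * ch n := by
  unfold ch
  have h := Nat.mul_mod m n 3
  have hm : m % 3 < 3 := Nat.mod_lt _ (by norm_num)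
  have hn : n % 3 < 3 := Nat.mod_lt _ (by norm_num)
  rw [h]
  interval_cases (m % 3) <;> interval_cases (n % 3) <;> norm_num

theorem ch_abs (n : ℕ) : |ch n| ≤ 1 := by
  unfold ch
  split_ifs <;> norm_num

theorem ee_nonneg (n : ℕ) : 0 ≤ ee n := by
  unfold ee
  split_ifs <;> norm_num

theorem ee_le (n : ℕ) : ee n ≤ 1 := by
  unfold ee
  split_ifs <;> norm_num

theorem ch_eq (n : ℕ) : ch n = ee (n + 1) - ee n := by
  unfold ch ee
  have hn : n % 3 < 3 := Nat.mod_lt _ (by norm_num)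
  have h : (n + 1) % 3 = (n % 3 + 1) % 3 := by omega
  rw [h]
  interval_cases (n % 3) <;> norm_num

theorem ch_abel (f : ℕ → ℝ) (a : ℕ) (hf : ∀ n, a ≤ n → f (n + 1) ≤ f n) (N : ℕ) (hN : a ≤ N) :
    0 ≤ ∑ n ∈ Ico a N, ch n * f n - ee N * f N + ee a * f a ∧
      ∑ n ∈ Ico a N, ch n * f n - ee N * f N + ee a * f a ≤ f a - f N := by
  induction N, hN using Nat.le_induction with
  | base => simp
  | succ N hN ih =>
    rw [Finset.sum_Ico_succ_top hN]
    have h1 := hf N hN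
    have h2 : ∑ n ∈ Ico a N, ch n * f n + ch N * f N - ee (N + 1) * f (N + 1) + ee a * f a =
        (∑ n ∈ Ico a N, ch n * f n - ee N * f N + ee a * f a) + ee (N + 1) * (f N - f (N + 1)) := by
      rw [ch_eq N]
      ring
    rw [h2]
    have h3 : 0 ≤ ee (N + 1) * (f N - f (N + 1)) := mul_nonneg (ee_nonneg _) (by linarith)
    have h4 : ee (N + 1) * (f N - f (N + 1)) ≤ 1 * (f N - f (N + 1)) :=
      mul_le_mul_of_nonneg_right (ee_le _) (by linarith)
    constructor <;> linarith [ih.1, ih.2]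

theorem ch_abel_abs (f : ℕ → ℝ) (a : ℕ) (hf : ∀ n, a ≤ n → f (n + 1) ≤ f n)
    (h0 : ∀ n, a ≤ n → 0 ≤ f n) (N : ℕ) (hN : a ≤ N) : |∑ n ∈ Ico a N, ch n * f n| ≤ f a := by
  obtain ⟨h1, h2⟩ := ch_abel f a hf N hN
  have h3 := mul_nonneg (ee_nonneg N) (h0 N hN)
  have h4 := mul_nonneg (ee_nonneg a) (h0 a le_rfl)
  have h5 : ee N * f N ≤ 1 * f N := mul_le_mul_of_nonneg_right (ee_le _) (h0 N hN)
  have h6 : ee a * f a ≤ 1 * f a := mul_le_mul_of_nonneg_right (ee_le _) (h0 a le_rfl)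
  rw [abs_le]
  constructor <;> linarith [h0 N hN]

/-- the partial sums of `L(1, ch)` -/
noncomputable def LL (N : ℕ) : ℝ := ∑ m ∈ Ioc 0 N, ch m / m

theorem LL_eq (N : ℕ) : LL N = ∑ m ∈ Ico 1 (N + 1), ch m * (1 / (m : ℝ)) := by
  unfold LL
  have h : Ioc 0 N = Ico 1 (N + 1) := by ext; simp only [mem_Ioc, mem_Ico]; omega
  rw [h]
  exact sum_congr rfl fun m _ => by ring

theorem inv_anti (n : ℕ) (hn : 1 ≤ n) : (1 : ℝ) / ((n + 1 : ℕ) : ℝ) ≤ 1 / (n : ℝ) := by
  have : (0 : ℝ) < n := by exact_mod_cast hn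
  exact one_div_le_one_div_of_le this (by push_cast; linarith)

theorem LL_diff (N M : ℕ) (h : N ≤ M) : |LL M - LL N| ≤ 1 / ((N + 1 : ℕ) : ℝ) := by
  rw [LL_eq, LL_eq, ← Finset.sum_Ico_consecutive _ (show 1 ≤ N + 1 by omega) (show N + 1 ≤ M + 1 by omega),
    add_sub_cancel_left]
  exact ch_abel_abs (fun n => 1 / (n : ℝ)) (N + 1) (fun n hn => inv_anti n (by omega))
    (fun n _ => by positivity) (M + 1) (by omega)

theorem LL_ge (N : ℕ) (hN : 1 ≤ N) : 1 / 2 ≤ LL N := by
  rw [LL_eq, Finset.sum_eq_sum_Ico_succ_bot (by omega)]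
  have h := (ch_abel (fun n => 1 / (n : ℝ)) 2 (fun n hn => inv_anti n (by omega)) (N + 1) (by omega)).1
  have h1 : 0 ≤ ee (N + 1) * (1 / ((N + 1 : ℕ) : ℝ)) := mul_nonneg (ee_nonneg _) (by positivity)
  have h2 : ee 2 = 1 := by unfold ee; norm_num
  have h3 : ch 1 = 1 := by unfold ch; norm_num
  simp only [h2] at h
  rw [h3]
  norm_num at h ⊢
  norm_num at h1
  linarith

/-- the sum of `ch n log n / n` is bounded -/
theorem ch_log (N : ℕ) : |∑ n ∈ Ioc 0 N, ch n * (Real.log n / n)| ≤ 3 := by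
  have key : ∀ M, 3 ≤ M → |∑ n ∈ Ico 3 M, ch n * (Real.log n / n)| ≤ 1 := by
    intro M hM
    refine (ch_abel_abs (fun n => Real.log n / (n : ℝ)) 3 ?_ ?_ M hM).trans ?_
    · intro n hn
      have hn3 : (3 : ℝ) ≤ n := by exact_mod_cast hn
      have he := Real.exp_one_lt_d9
      exact Real.log_div_self_antitoneOn (a := (n : ℝ)) (b := ((n + 1 : ℕ) : ℝ))
        (by show Real.exp 1 ≤ _; linarith) (by show Real.exp 1 ≤ _; push_cast; linarith)
        (by push_cast; linarith)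
    · intro n _
      exact div_nonneg (Real.log_natCast_nonneg n) (Nat.cast_nonneg n)
    · have h := Real.log_le_sub_one_of_pos (x := (3 : ℝ)) (by norm_num)
      push_cast
      linarith
  rcases Nat.lt_or_ge N 2 with h | h
  · interval_cases N
    · norm_num
    · rw [show Ioc 0 1 = ({1} : Finset ℕ) by rfl, sum_singleton]
      norm_num
  · have e : Ioc 0 N = Ico 1 (N + 1) := by ext; simp only [mem_Ioc, mem_Ico]; omega
    rw [e, ← Finset.sum_Ico_consecutive _ (show 1 ≤ 3 by norm_num) (show 3 ≤ N + 1 by omega)]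
    have e2 : Ico 1 3 = ({1, 2} : Finset ℕ) := by rfl
    rw [e2, sum_pair (by norm_num)]
    have h2 : |ch 2 * (Real.log (2 : ℕ) / (2 : ℕ))| ≤ 1 := by
      rw [abs_mul]
      have h3 := Real.log_two_lt_d9
      have h4 : 0 < Real.log 2 := Real.log_pos (by norm_num)
      have h5 : |Real.log ((2 : ℕ) : ℝ) / ((2 : ℕ) : ℝ)| ≤ 1 := by
        push_cast
        rw [abs_of_nonneg (by positivity)]
        linarith
      calc |ch 2| * |Real.log ((2 : ℕ) : ℝ) / ((2 : ℕ) : ℝ)| ≤ 1 * 1 :=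
            mul_le_mul (ch_abs 2) h5 (abs_nonneg _) (by norm_num)
        _ = 1 := by norm_num
    have h1 : ch 1 * (Real.log (1 : ℕ) / (1 : ℕ)) = 0 := by norm_num
    rw [h1, zero_add]
    refine (abs_add_le _ _).trans ?_
    linarith [key (N + 1) (by omega)]

/-- the convolution identity -/
theorem ch_conv (N : ℕ) : ∑ n ∈ Ioc 0 N, ch n * (Real.log n / n) =
    ∑ d ∈ Ioc 0 N, ch d * (ArithmeticFunction.vonMangoldt d / d) * LL (N / d) := by
  set f : ArithmeticFunction ℝ := ⟨fun n => ch n * (ArithmeticFunction.vonMangoldt n / n), by simp⟩ with hf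
  set g : ArithmeticFunction ℝ := ⟨fun n => ch n / n, by simp⟩ with hg
  have h := ArithmeticFunction.sum_Ioc_mul_eq_sum_sum f g N
  have h2 : ∀ n ∈ Ioc 0 N, (f * g) n = ch n * (Real.log n / n) := by
    intro n hn
    have hn0 : n ≠ 0 := by
      have := (mem_Ioc.1 hn).1
      omega
    rw [ArithmeticFunction.mul_apply]
    have h3 : ∀ x ∈ n.divisorsAntidiagonal, f x.1 * g x.2 =
        ch n / n * ArithmeticFunction.vonMangoldt x.1 := by
      intro x hx
      obtain ⟨hx1, -⟩ := Nat.mem_divisorsAntidiagonal.1 hx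
      have h4 : x.1 ≠ 0 := by rintro h0; rw [h0] at hx1; simp at hx1; omega
      have h5 : x.2 ≠ 0 := by rintro h0; rw [h0] at hx1; simp at hx1; omega
      have h6 : (x.1 : ℝ) ≠ 0 := by exact_mod_cast h4
      have h7 : (x.2 : ℝ) ≠ 0 := by exact_mod_cast h5
      simp only [hf, hg, ArithmeticFunction.coe_mk]
      rw [← hx1, ch_mul]
      push_cast
      field_simp
    rw [sum_congr rfl h3, ← mul_sum,
      Nat.sum_divisorsAntidiagonal (fun i _ => ArithmeticFunction.vonMangoldt i),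
      ArithmeticFunction.vonMangoldt_sum]
    ring
  rw [sum_congr rfl h2] at h
  rw [h]
  rfl

/-- Mertens for the character modulo 3, prime powers included -/
theorem ch_mertens : ∃ C : ℝ, 0 < C ∧ ∀ N : ℕ,
    |∑ d ∈ Ioc 0 N, ch d * (ArithmeticFunction.vonMangoldt d / d)| ≤ C := by
  refine ⟨2 * (3 + (Real.log 4 + 4)), by have := Real.log_pos (show (1 : ℝ) < 4 by norm_num); linarith, ?_⟩
  intro N
  rcases Nat.eq_zero_or_pos N with h0 | hN
  · subst h0
    simp
    have := Real.log_pos (show (1 : ℝ) < 4 by norm_num)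
    linarith
  set A : ℝ := ∑ d ∈ Ioc 0 N, ch d * (ArithmeticFunction.vonMangoldt d / d) with hA
  have hNr : (0 : ℝ) < N := by exact_mod_cast hN
  have h1 : LL N * A - ∑ n ∈ Ioc 0 N, ch n * (Real.log n / n) =
      ∑ d ∈ Ioc 0 N, ch d * (ArithmeticFunction.vonMangoldt d / d) * (LL N - LL (N / d)) := by
    rw [ch_conv, hA, mul_sum, ← sum_sub_distrib]
    exact sum_congr rfl fun d _ => by ring
  have h2 : |∑ d ∈ Ioc 0 N, ch d * (ArithmeticFunction.vonMangoldt d / d) * (LL N - LL (N / d))| ≤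
      ∑ d ∈ Ioc 0 N, ArithmeticFunction.vonMangoldt d / N := by
    refine (abs_sum_le_sum_abs _ _).trans (sum_le_sum fun d hd => ?_)
    obtain ⟨hd1, hd2⟩ := mem_Ioc.1 hd
    have hdr : (0 : ℝ) < d := by exact_mod_cast hd1
    have h3 := LL_diff (N / d) N (Nat.div_le_self _ _)
    have h4 : (1 : ℝ) / ((N / d + 1 : ℕ) : ℝ) ≤ d / N := by
      rw [div_le_div_iff₀ (by positivity) hNr, one_mul]
      have h5 : N < d * (N / d + 1) := by
        have := Nat.lt_div_mul_add (a := N) hd1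
        nlinarith [Nat.div_add_mod N d, Nat.mod_lt N hd1]
      have h6 : (N : ℝ) < ((d * (N / d + 1) : ℕ) : ℝ) := by exact_mod_cast h5
      rw [Nat.cast_mul] at h6
      exact h6.le
    have h7 : 0 ≤ ArithmeticFunction.vonMangoldt d / (d : ℝ) :=
      div_nonneg ArithmeticFunction.vonMangoldt_nonneg hdr.le
    rw [abs_mul, abs_mul, abs_of_nonneg h7]
    calc |ch d| * (ArithmeticFunction.vonMangoldt d / d) * |LL N - LL (N / d)|
        ≤ 1 * (ArithmeticFunction.vonMangoldt d / d) * (d / N) := by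
          apply mul_le_mul _ (h3.trans h4) (abs_nonneg _) (by positivity)
          exact mul_le_mul_of_nonneg_right (ch_abs d) h7
      _ = ArithmeticFunction.vonMangoldt d / N := by field_simp
  have h3 : ∑ d ∈ Ioc 0 N, ArithmeticFunction.vonMangoldt d / (N : ℝ) ≤ Real.log 4 + 4 := by
    rw [← sum_div, div_le_iff₀ hNr]
    have h5 := Chebyshev.psi_le_const_mul_self (x := (N : ℝ)) hNr.le
    have h6 : Chebyshev.psi (N : ℝ) = ∑ d ∈ Ioc 0 N, ArithmeticFunction.vonMangoldt d := by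
      rw [Chebyshev.psi, Nat.floor_natCast]
    rwa [h6] at h5
  have h4 : |LL N * A| ≤ 3 + (Real.log 4 + 4) := by
    have e : LL N * A = ∑ n ∈ Ioc 0 N, ch n * (Real.log n / n) +
        (LL N * A - ∑ n ∈ Ioc 0 N, ch n * (Real.log n / n)) := by ring
    rw [e]
    refine (abs_add_le _ _).trans (add_le_add (ch_log N) ?_)
    rw [h1]
    exact h2.trans h3
  have h5 := LL_ge N hN
  rw [abs_mul, abs_of_nonneg (by linarith : (0 : ℝ) ≤ LL N)] at h4
  have h6 : 1 / 2 * |A| ≤ LL N * |A| := mul_le_mul_of_nonneg_right h5 (abs_nonneg _)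
  linarith

end Pool.Agent.Lib.MP_93793a_nt
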