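import Pool.Agent.Lib.MP_d9bc60_nt.AQ.QMert
import Pool.Agent.Lib.MP_d9bc60_nt.AQ.QLow
import Pool.Agent.Lib.MP_93793a_nt.M1
import Pool.Agent.Lib.MP_93793a_nt.E1

/-! Mertens sums modulo 3 and for the densities supported on the primes `1` modulo `3`. -/

set_option autoImplicit false

namespace Pool.Agent.Lib.MP_93793a_nt

open Finset Pool.Agent.Lib.MP_d9bc60_nt.UV Pool.Agent.Lib.MP_d9bc60_nt.AP

/-- Mertens for the character modulo 3 and primes -/
theorem ch_one : ∃ C : ℝ, 0 < C ∧ ∀ n : ℕ,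
    |∑ p ∈ (Icc 1 n).filter Nat.Prime, ch p * (Real.log p / p)| ≤ C := by
  obtain ⟨C, hC, h⟩ := ch_mertens
  obtain ⟨C', hC', h'⟩ := h08_pp
  refine ⟨C + C', by positivity, fun n => ?_⟩
  rcases Nat.eq_zero_or_pos n with h0 | hn
  · subst h0
    simp
    positivity
  have hI : Icc 1 n = Ioc 0 n := by ext d; simp only [mem_Icc, mem_Ioc]; omega
  have h1 := h n
  have h2 := h' n hn
  rw [← hI] at h1
  have h3 : ∑ p ∈ (Icc 1 n).filter Nat.Prime, ch p * (Real.log p / p) =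
      ∑ d ∈ Icc 1 n, ch d * (ArithmeticFunction.vonMangoldt d / d) -
        ∑ d ∈ Icc 1 n, ch d * (h08_a d / d) := by
    rw [sum_filter, ← sum_sub_distrib]
    refine sum_congr rfl fun d _ => ?_
    unfold h08_a
    split_ifs <;> ring
  have h4 : |∑ d ∈ Icc 1 n, ch d * (h08_a d / d)| ≤ C' := by
    refine (abs_sum_le_sum_abs _ _).trans (le_trans (sum_le_sum fun d _ => ?_) h2)
    have h5 : 0 ≤ h08_a d / (d : ℝ) := by
      refine div_nonneg ?_ (Nat.cast_nonneg _)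
      unfold h08_a
      split_ifs with hp
      · rw [ArithmeticFunction.vonMangoldt_apply_prime hp, sub_self]
      · rw [sub_zero]; exact ArithmeticFunction.vonMangoldt_nonneg
    rw [abs_mul, abs_of_nonneg h5]
    exact mul_le_of_le_one_left h5 (ch_abs d)
  rw [h3]
  refine (abs_sub _ _).trans ?_
  linarith

theorem ch_step (C : ℝ) (hR : ∀ n : ℕ,
    |∑ p ∈ (Icc 1 n).filter Nat.Prime, ch p * (Real.log p / p)| ≤ C) (c : ℕ) (hc : 2 ≤ c)
    (e : ℕ) (he : c ≤ e) :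
    |∑ p ∈ (Ioc c e).filter Nat.Prime, ch p * (1 / (p : ℝ)) -
        (∑ p ∈ (Icc 1 e).filter Nat.Prime, ch p * (Real.log p / p)) / Real.log e +
        (∑ p ∈ (Icc 1 c).filter Nat.Prime, ch p * (Real.log p / p)) / Real.log c| ≤
      C * (1 / Real.log c - 1 / Real.log e) := by
  induction e, he using Nat.le_induction with
  | base => simp
  | succ e hce ih =>
    set S : ℝ := ∑ p ∈ (Icc 1 e).filter Nat.Prime, ch p * (Real.log p / p) with hS
    set T : ℝ := ∑ p ∈ (Ioc c e).filter Nat.Prime, ch p * (1 / (p : ℝ)) with hT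
    set B : ℝ := (∑ p ∈ (Icc 1 c).filter Nat.Prime, ch p * (Real.log p / p)) / Real.log c with hB
    have he2 : (2 : ℝ) ≤ e := by exact_mod_cast hc.trans hce
    have hl0 : 0 < Real.log e := Real.log_pos (by linarith only [he2])
    have hc' : (((e + 1 : ℕ)) : ℝ) = (e : ℝ) + 1 := by push_cast; ring
    have hll : Real.log e ≤ Real.log ((e + 1 : ℕ) : ℝ) := Real.log_le_log (by linarith only [he2]) (by rw [hc']; linarith only [])
    have hl'0 : 0 < Real.log ((e + 1 : ℕ) : ℝ) := lt_of_lt_of_le hl0 hll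
    have hS' : ∑ p ∈ (Icc 1 (e + 1)).filter Nat.Prime, ch p * (Real.log p / (p : ℝ)) =
        S + (if (e + 1).Prime then ch (e + 1) * (Real.log ((e + 1 : ℕ) : ℝ) / ((e + 1 : ℕ) : ℝ)) else 0) := by
      rw [sum_filter, sum_Icc_succ_top (by omega), ← sum_filter]
    have hT' : ∑ p ∈ (Ioc c (e + 1)).filter Nat.Prime, ch p * (1 / (p : ℝ)) =
        T + (if (e + 1).Prime then ch (e + 1) * (1 / ((e + 1 : ℕ) : ℝ)) else 0) := by
      rw [sum_filter, ← insert_Ioc_right_eq_Ioc_add_one hce, sum_insert (by simp), ← sum_filter,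
        add_comm]
    rw [hS', hT']
    set l : ℝ := Real.log e with hl
    set l' : ℝ := Real.log ((e + 1 : ℕ) : ℝ) with hl'
    set y : ℝ := (if (e + 1).Prime then ch (e + 1) * (1 / ((e + 1 : ℕ) : ℝ)) else 0) with hy
    have hy2 : (if (e + 1).Prime then ch (e + 1) * (l' / ((e + 1 : ℕ) : ℝ)) else 0) = l' * y := by
      rw [hy]; split_ifs <;> ring
    rw [hy2]
    have hRe : |S| ≤ C := hR e
    have hinv : 0 ≤ 1 / l - 1 / l' := by
      rw [sub_nonneg]
      exact one_div_le_one_div_of_le hl0 hll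
    have hid : T + y - (S + l' * y) / l' + B = (T - S / l + B) + S * (1 / l - 1 / l') := by
      field_simp
      ring
    rw [hid]
    have hA : |S * (1 / l - 1 / l')| ≤ C * (1 / l - 1 / l') := by
      rw [abs_mul, abs_of_nonneg hinv]
      exact mul_le_mul_of_nonneg_right hRe hinv
    refine (abs_add_le _ _).trans ?_
    have h4 : C * (1 / Real.log c - 1 / l') = C * (1 / Real.log c - 1 / l) + C * (1 / l - 1 / l') := by
      ring
    rw [h4]
    linarith only [ih, hA]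

theorem ch_prs (ε : ℝ) (hε : 0 < ε) : ∃ u₀ : ℝ, 2 ≤ u₀ ∧ ∀ u v : ℝ, u₀ ≤ u → u ≤ v →
    |∑ p ∈ prs u v, ch p * (1 / (p : ℝ))| ≤ ε := by
  classical
  obtain ⟨C, hC, hR⟩ := ch_one
  have hexp0 := Real.exp_pos ((3 * C) / ε)
  refine ⟨Real.exp ((3 * C) / ε) + 4, by linarith only [hexp0], ?_⟩
  intro u v hu huv
  have hu0 : 0 < u := by linarith only [hexp0, hu]
  have hceil : ∀ x : ℝ, 4 ≤ x → ∃ k : ℕ, ⌈x⌉₊ = k + 1 ∧ (k : ℝ) < x ∧ x ≤ k + 1 ∧ 3 ≤ k := by
    intro x hx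
    have h1 : 4 ≤ ⌈x⌉₊ := by
      have : ((4 : ℕ) : ℝ) ≤ (⌈x⌉₊ : ℝ) := (by exact_mod_cast hx : ((4 : ℕ) : ℝ) ≤ x).trans (Nat.le_ceil x)
      exact_mod_cast this
    refine ⟨⌈x⌉₊ - 1, by omega, ?_, ?_, by omega⟩
    · have h2 := Nat.ceil_lt_add_one (by linarith only [hx] : (0 : ℝ) ≤ x)
      have h3 : ((⌈x⌉₊ - 1 : ℕ) : ℝ) = (⌈x⌉₊ : ℝ) - 1 := by
        rw [Nat.cast_sub (by omega)]; norm_num
      rw [h3]; linarith only [h2]
    · have h2 := Nat.le_ceil x
      have h3 : ((⌈x⌉₊ - 1 : ℕ) : ℝ) = (⌈x⌉₊ : ℝ) - 1 := by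
        rw [Nat.cast_sub (by omega)]; norm_num
      rw [h3]; linarith only [h2]
  obtain ⟨c, hc1, hc2, hc3, hc4⟩ := hceil u (by linarith only [hexp0, hu])
  obtain ⟨e, he1, he2, he3, he4⟩ := hceil v (by linarith only [hexp0, hu, huv])
  have hce : c ≤ e := by
    have h1 := Nat.ceil_le_ceil huv
    omega
  have hprs : prs u v = (Ioc c e).filter Nat.Prime := by
    ext p
    rw [prs, mem_filter, mem_filter, mem_range, mem_Ioc, he1]
    have h1 : u ≤ (p : ℝ) ↔ c + 1 ≤ p := by rw [← hc1, Nat.ceil_le]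
    rw [h1]
    constructor
    · rintro ⟨h2, h3, h4⟩; exact ⟨⟨by omega, by omega⟩, h3⟩
    · rintro ⟨⟨h2, h3⟩, h4⟩; exact ⟨by omega, h4, by omega⟩
  rw [hprs]
  have hst := ch_step C hR c (by omega) e hce
  have hcR : (3 : ℝ) ≤ c := by exact_mod_cast hc4
  have heR : (c : ℝ) ≤ e := by exact_mod_cast hce
  have hlc : 0 < Real.log c := Real.log_pos (by linarith only [hcR])
  have hlce : Real.log c ≤ Real.log e := Real.log_le_log (by linarith only [hcR]) heR
  have hle : 0 < Real.log e := lt_of_lt_of_le hlc hlce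
  have hie : 1 / Real.log e ≤ 1 / Real.log c := one_div_le_one_div_of_le hlc hlce
  have hie0 : 0 < 1 / Real.log e := by positivity
  have hRc : |(∑ p ∈ (Icc 1 c).filter Nat.Prime, ch p * (Real.log p / (p : ℝ))) / Real.log c| ≤
      C * (1 / Real.log c) := by
    rw [abs_div, abs_of_pos hlc, mul_one_div]
    exact div_le_div_of_nonneg_right (hR c) hlc.le
  have hRe : |(∑ p ∈ (Icc 1 e).filter Nat.Prime, ch p * (Real.log p / (p : ℝ))) / Real.log e| ≤
      C * (1 / Real.log c) := by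
    rw [abs_div, abs_of_pos hle]
    refine (div_le_div_of_nonneg_right (hR e) hle.le).trans ?_
    rw [← mul_one_div]
    exact mul_le_mul_of_nonneg_left hie hC.le
  have hmain : (3 * C) * (1 / Real.log c) ≤ ε := by
    have h1 : (3 * C) / ε ≤ Real.log c := by
      rw [Real.le_log_iff_exp_le (by linarith only [hcR])]
      linarith only [hu, hc3]
    rw [mul_one_div, div_le_iff₀ hlc]
    rw [div_le_iff₀ hε] at h1
    linarith only [h1]
  have h5 : C * (1 / Real.log c - 1 / Real.log e) ≤ C * (1 / Real.log c) :=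
    mul_le_mul_of_nonneg_left (by linarith only [hie0]) hC.le
  rw [abs_le] at hst hRc hRe ⊢
  have h6 : (3 * C) * (1 / Real.log c) = 3 * (C * (1 / Real.log c)) := by
    ring
  rw [h6] at hmain
  constructor
  · linarith only [hst.1, hRc.2, hRe.1, hmain, h5]
  · linarith only [hst.2, hRc.1, hRe.2, hmain, h5]

theorem mE_nu_le (ν : ℕ → ℝ) (hν : DensE ν) (p : ℕ) (hp : p.Prime) (h9 : (9 : ℝ) ≤ p) :
    ν p ≤ 2 * (1 / (p : ℝ)) + 2 * (ch p * (1 / (p : ℝ))) + 8 * (1 / (p : ℝ) ^ 2) ∧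
      ν p ^ 2 ≤ 32 * (1 / (p : ℝ) ^ 2) ∧ ν p ≤ 1 / 2 := by
  have h9' : 9 ≤ p := by exact_mod_cast h9
  have h0 := hν.nonneg p
  have hp0 : (0 : ℝ) < (p : ℝ) - 1 := by linarith only [h9]
  have hpp : (0 : ℝ) < p := by linarith only [h9]
  have h6 : p % 3 ≠ 0 := by
    intro h0
    have := (Nat.prime_dvd_prime_iff_eq Nat.prime_three hp).1 (Nat.dvd_of_mod_eq_zero h0)
    omega
  rcases (show p % 3 = 1 ∨ p % 3 = 2 by omega) with h7 | h7
  · have h1 := hν.le1 p hp h7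
    have hch : ch p = 1 := by unfold ch; rw [if_pos h7]
    rw [hch]
    refine ⟨h1.trans ?_, ?_, h1.trans ?_⟩
    · have : 2 * (1 / (p : ℝ)) + 2 * (1 * (1 / (p : ℝ))) + 8 * (1 / (p : ℝ) ^ 2) =
          (4 * p + 8) / (p : ℝ) ^ 2 := by
        field_simp
        ring
      rw [this, div_le_div_iff₀ hp0 (by positivity)]
      nlinarith only [h9]
    · have h2 : ν p ^ 2 ≤ (4 / ((p : ℝ) - 1)) ^ 2 := pow_le_pow_left₀ h0 h1 2
      refine h2.trans ?_
      rw [div_pow, mul_one_div, div_le_div_iff₀ (by positivity) (by positivity)]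
      nlinarith only [h9]
    · rw [div_le_div_iff₀ hp0 (by norm_num)]
      linarith only [h9]
  · have h1 := hν.le2 p hp (by omega) h7
    have hch : ch p = -1 := by unfold ch; rw [if_neg (by omega), if_pos h7]
    rw [h1, hch]
    refine ⟨?_, by rw [zero_pow (by norm_num)]; positivity, by norm_num⟩
    have : 0 ≤ 8 * (1 / (p : ℝ) ^ 2) := by positivity
    linarith only [this]

theorem mE_sum (ε : ℝ) (hε : 0 < ε) : ∃ u₀ : ℝ, 9 ≤ u₀ ∧ ∀ (ν : ℕ → ℝ), DensE ν → ∀ u v : ℝ,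
    u₀ ≤ u → u ≤ v → ∑ p ∈ prs u v, ν p ≤ 2 * Real.log (Real.log v / Real.log u) + ε := by
  obtain ⟨u₁, h1, hm⟩ := mertens (ε / 8) (by positivity)
  obtain ⟨u₂, h2, hm2⟩ := ch_prs (ε / 8) (by positivity)
  refine ⟨max 9 (max (max u₁ u₂) (32 / ε)), le_max_left _ _, fun ν hν u v hu huv => ?_⟩
  have hu5 : 9 ≤ u := (le_max_left _ _).trans hu
  have hu1 : u₁ ≤ u := ((le_max_left _ _).trans (le_max_left _ _)).trans ((le_max_right _ _).trans hu)
  have hu1' : u₂ ≤ u := ((le_max_right _ _).trans (le_max_left _ _)).trans ((le_max_right _ _).trans hu)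
  have hu2 : 32 / ε ≤ u := (le_max_right _ _).trans ((le_max_right _ _).trans hu)
  have hm1 := (abs_le.1 (hm u v hu1 huv)).2
  have hm3 := (abs_le.1 (hm2 u v hu1' huv)).2
  have hsq := h10_sq u v (by linarith only [hu5])
  have hsum : ∑ p ∈ prs u v, ν p ≤ 2 * ∑ p ∈ prs u v, 1 / (p : ℝ) +
      2 * ∑ p ∈ prs u v, ch p * (1 / (p : ℝ)) + 8 * ∑ p ∈ prs u v, 1 / (p : ℝ) ^ 2 := by
    rw [mul_sum, mul_sum, mul_sum, ← sum_add_distrib, ← sum_add_distrib]
    refine sum_le_sum fun p hp => ?_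
    rw [h10_mem] at hp
    exact (mE_nu_le ν hν p hp.2.1 (by linarith only [hp.2.2, hu5, hp])).1
  have h8 : 8 * (2 / u) ≤ ε / 2 := by
    have hu0 : 0 < u := by linarith only [hu5]
    rw [← mul_div_assoc, div_le_div_iff₀ hu0 (by norm_num)]
    rw [div_le_iff₀ hε] at hu2
    linarith only [hu2]
  linarith only [hm1, hm3, hsq, hsum, h8]

theorem mE_prod_inv (ε : ℝ) (hε : 0 < ε) : ∃ u₀ : ℝ, 9 ≤ u₀ ∧ ∀ (ν : ℕ → ℝ), DensE ν →
    ∀ u v : ℝ, u₀ ≤ u → u ≤ v →
      1 ≤ (1 + ε) * (Real.log v / Real.log u) ^ 2 * ∏ p ∈ prs u v, (1 - ν p) := by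
  have hδ : 0 < Real.log (1 + ε) := Real.log_pos (by linarith only [hε])
  obtain ⟨u₁, h1, hm⟩ := mE_sum (Real.log (1 + ε) / 2) (by positivity)
  refine ⟨max u₁ (128 / Real.log (1 + ε)), h1.trans (le_max_left _ _), fun ν hν u v hu huv => ?_⟩
  have hu1 : u₁ ≤ u := (le_max_left _ _).trans hu
  have hu2 : 128 / Real.log (1 + ε) ≤ u := (le_max_right _ _).trans hu
  have hu5 : 9 ≤ u := h1.trans hu1
  have hlu : 0 < Real.log u := Real.log_pos (by linarith only [h1, hu1])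
  have hlv : 0 < Real.log v := Real.log_pos (by linarith only [h1, huv, hu1])
  have hs := hm ν hν u v hu1 huv
  have hsq := h10_sq u v (by linarith only [h1, hu1])
  have h8 : 32 * (2 / u) ≤ Real.log (1 + ε) / 2 := by
    have hu0 : 0 < u := by linarith only [hu5]
    rw [← mul_div_assoc, div_le_div_iff₀ hu0 (by norm_num)]
    rw [div_le_iff₀ hδ] at hu2
    linarith only [hu2]
  have hs2 : ∑ p ∈ prs u v, ν p ^ 2 ≤ 32 * ∑ p ∈ prs u v, 1 / (p : ℝ) ^ 2 := by
    rw [mul_sum]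
    refine sum_le_sum fun p hp => ?_
    rw [h10_mem] at hp
    exact (mE_nu_le ν hν p hp.2.1 (by linarith only [hp.2.2, h1, hu1, hp])).2.1
  have hprod : Real.exp (-(∑ p ∈ prs u v, (ν p + ν p ^ 2))) ≤ ∏ p ∈ prs u v, (1 - ν p) := by
    rw [← sum_neg_distrib, Real.exp_sum]
    refine prod_le_prod (fun _ _ => (Real.exp_pos _).le) fun p hp => ?_
    rw [h10_mem] at hp
    exact h10_exp (ν p) (hν.nonneg p)
      (mE_nu_le ν hν p hp.2.1 (by linarith only [hp.2.2, h1, hu1, hp])).2.2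
  have hle : -(2 * Real.log (Real.log v / Real.log u) + Real.log (1 + ε)) ≤
      -(∑ p ∈ prs u v, (ν p + ν p ^ 2)) := by
    rw [sum_add_distrib]
    linarith only [hs, hsq, h8, hs2]
  have hfin : Real.exp (-(2 * Real.log (Real.log v / Real.log u) + Real.log (1 + ε))) ≤
      ∏ p ∈ prs u v, (1 - ν p) := (Real.exp_le_exp.2 hle).trans hprod
  have hX : 0 < Real.log v / Real.log u := by positivity
  have hval : (1 + ε) * (Real.log v / Real.log u) ^ 2 =
      Real.exp (2 * Real.log (Real.log v / Real.log u) + Real.log (1 + ε)) := by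
    rw [Real.exp_add, Real.exp_log (by linarith only [hε]), two_mul, Real.exp_add, Real.exp_log hX]
    ring
  rw [hval]
  calc (1 : ℝ) = Real.exp (2 * Real.log (Real.log v / Real.log u) + Real.log (1 + ε)) *
      Real.exp (-(2 * Real.log (Real.log v / Real.log u) + Real.log (1 + ε))) := by
        rw [← Real.exp_add, add_neg_cancel, Real.exp_zero]
    _ ≤ _ := mul_le_mul_of_nonneg_left hfin (Real.exp_pos _).le

theorem mE_VV_ratio (ε : ℝ) (hε : 0 < ε) : ∃ u₀ : ℝ, 9 ≤ u₀ ∧ ∀ (ν : ℕ → ℝ), DensE ν → ∀ u v : ℝ,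
    u₀ ≤ u → u ≤ v → VV ν u ≤ (1 + ε) * (Real.log v / Real.log u) ^ 2 * VV ν v := by
  obtain ⟨u₁, h1, hm⟩ := mE_prod_inv ε hε
  refine ⟨u₁, h1, fun ν hν u v hu huv => ?_⟩
  have hmain := hm ν hν u v hu huv
  have hsplit : VV ν v = VV ν u * ∏ p ∈ prs u v, (1 - ν p) :=
    h14_VV_split ν (by linarith only [h1, hu]) huv
  have hVV : 0 ≤ VV ν u := by
    unfold VV
    refine prod_nonneg fun p hp => ?_
    simp only [mem_filter, mem_range] at hp
    have := k3_le ν hν p hp.2.1 hp.2.2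
    linarith only [this]
  rw [hsplit]
  calc VV ν u = VV ν u * 1 := (mul_one _).symm
    _ ≤ VV ν u * ((1 + ε) * (Real.log v / Real.log u) ^ 2 * ∏ p ∈ prs u v, (1 - ν p)) :=
      mul_le_mul_of_nonneg_left hmain hVV
    _ = _ := by ring

theorem mE_pow_le (ν : ℕ → ℝ) (hν : DensE ν) (u : ℝ) : (1 / 4 : ℝ) ^ ⌈u⌉₊ ≤ VV ν u := by
  unfold VV
  have h1 : ∏ p ∈ (range ⌈u⌉₊).filter (fun p => p.Prime ∧ 3 ≤ p), (1 / 4 : ℝ) ≤
      ∏ p ∈ (range ⌈u⌉₊).filter (fun p => p.Prime ∧ 3 ≤ p), (1 - ν p) := by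
    refine Finset.prod_le_prod (fun _ _ => by norm_num) ?_
    intro p hp
    rw [Finset.mem_filter] at hp
    have h2 := k3_le ν hν p hp.2.1 hp.2.2
    linarith
  refine le_trans ?_ h1
  rw [Finset.prod_const]
  refine pow_le_pow_of_le_one (by norm_num) (by norm_num) ?_
  refine (Finset.card_filter_le _ _).trans ?_
  rw [Finset.card_range]

/-- Lower bound for the main product. -/
theorem mE_VV_ge : ∃ (c u₀ : ℝ), 0 < c ∧ 9 ≤ u₀ ∧ ∀ ν : ℕ → ℝ, DensE ν → ∀ z : ℝ, u₀ ≤ z →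
    c / Real.log z ^ 2 ≤ VV ν z := by
  obtain ⟨u₀, hu, h⟩ := mE_VV_ratio 1 one_pos
  have hlu : 0 < Real.log u₀ := Real.log_pos (by linarith only [hu])
  refine ⟨(1 / 4 : ℝ) ^ ⌈u₀⌉₊ * Real.log u₀ ^ 2 / 2, u₀, by positivity, hu, ?_⟩
  intro ν hν z hz
  have h1 := h ν hν u₀ z le_rfl hz
  have h2 := mE_pow_le ν hν u₀
  have hlz : 0 < Real.log z := Real.log_pos (by linarith only [hu, hz])
  have h3 : (1 / 4 : ℝ) ^ ⌈u₀⌉₊ ≤ 2 * (Real.log z / Real.log u₀) ^ 2 * VV ν z := by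
    refine h2.trans (h1.trans (le_of_eq ?_))
    norm_num
  rw [div_le_iff₀ (by positivity)]
  have h4 : 2 * (Real.log z / Real.log u₀) ^ 2 * VV ν z =
      2 * (VV ν z * Real.log z ^ 2) / Real.log u₀ ^ 2 := by
    rw [div_pow]
    ring
  rw [h4, le_div_iff₀ (by positivity)] at h3
  linarith only [h3]

end Pool.Agent.Lib.MP_93793a_nt
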