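import Pool.Agent.Lib.MP_93793a_nt.F2
import Pool.Agent.Lib.MP_93793a_nt.M2
import Pool.Agent.Lib.MP_93793a_nt.E6
import Pool.Agent.Lib.MP_d9bc60_nt.AQ.QFin

/-! Integers `x ≤ P` for which `m ^ 2 + m + 1`, `m = x (n - x)`, has few prime factors. -/

set_option autoImplicit false

namespace Pool.Agent.Lib.MP_93793a_nt

open Finset Pool.Agent.Lib.MP_d9bc60_nt.UV Pool.Agent.Lib.MP_d9bc60_nt.AP
open Pool.Agent.Lib.MP_57ec86_nt (PolyLike rhoG nuG aG rhoG_mul)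

theorem f3_class (P d v : ℕ) (hd : 0 < d) :
    |(((Icc 1 P).filter (fun x => x % d = v)).card : ℝ) - (P : ℝ) / d| ≤ 1 ∨ d ≤ v := by
  by_cases hv : d ≤ v
  · exact Or.inr hv
  left
  push Not at hv
  have h1 := Nat.Ioc_filter_modEq_card 0 P hd v
  have e : (Icc 1 P).filter (fun x => x % d = v) = (Ioc 0 P).filter (fun x => x ≡ v [MOD d]) := by
    ext x
    simp only [mem_filter, mem_Icc, mem_Ioc, Nat.ModEq, Nat.mod_eq_of_lt hv]
    exact ⟨fun h => ⟨⟨by omega, h.1.2⟩, h.2⟩, fun h => ⟨⟨by omega, h.1.2⟩, h.2⟩⟩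
  rw [e]
  set k : ℕ := ((Ioc 0 P).filter (fun x => x ≡ v [MOD d])).card with hk
  set α : ℚ := ((P : ℚ) - v) / d with hα
  set β : ℚ := (((0 : ℕ) : ℚ) - v) / d with hβ
  have hd' : (0 : ℚ) < d := by exact_mod_cast hd
  have hab : α - β = (P : ℚ) / d := by
    rw [hα, hβ]
    field_simp
    push_cast
    ring
  have hw : 0 ≤ (P : ℚ) / d := by positivity
  have a1 := Int.floor_le α
  have a2 := Int.lt_floor_add_one α
  have b1 := Int.floor_le β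
  have b2 := Int.lt_floor_add_one β
  have hkq : (k : ℚ) = max ((⌊α⌋ : ℚ) - ⌊β⌋) 0 := by exact_mod_cast h1
  have hq : |(k : ℚ) - (P : ℚ) / d| ≤ 1 := by
    rw [hkq, abs_le]
    rcases max_cases ((⌊α⌋ : ℚ) - ⌊β⌋) 0 with ⟨h2, h3⟩ | ⟨h2, h3⟩
    · rw [h2]
      constructor <;> linarith
    · rw [h2]
      constructor <;> linarith
  have : (((|(k : ℚ) - (P : ℚ) / d| : ℚ)) : ℝ) ≤ ((1 : ℚ) : ℝ) := by exact_mod_cast hq
  push_cast at this
  exact this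

open Classical in
theorem f3_rem {G : ℕ → ℤ} (hG : PolyLike G) (hpos : ∀ x, 0 < G x) (P d : ℕ) (hd : 0 < d) :
    Rem (Icc 1 P) (fun _ => (1 : ℝ)) (aG G) P (nuA G) d ≤ rhoA G d := by
  set T := (range d).filter (fun x => (d : ℤ) ∣ G x) with hT
  have hdiv : ∀ x, d ∣ aG G x ↔ (d : ℤ) ∣ G x := by
    intro x
    rw [← Int.natCast_dvd_natCast, aG, Int.toNat_of_nonneg (hpos x).le]
  have hmap : Set.MapsTo (fun x => x % d) ((((Icc 1 P).filter (fun i => d ∣ aG G i)) : Finset ℕ) : Set ℕ)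
      (T : Set ℕ) := by
    intro x hx
    rw [mem_coe, mem_filter] at hx
    rw [mem_coe, hT, mem_filter, mem_range]
    refine ⟨Nat.mod_lt _ hd, ?_⟩
    rw [hG d (x % d) x (Nat.mod_modEq x d)]
    exact (hdiv x).1 hx.2
  have hcard := Finset.card_eq_sum_card_fiberwise hmap
  have hfib : ∀ r ∈ T, (((Icc 1 P).filter (fun i => d ∣ aG G i)).filter (fun x => x % d = r)) =
      (Icc 1 P).filter (fun x => x % d = r) := by
    intro r hr
    rw [hT, mem_filter] at hr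
    ext x
    simp only [mem_filter]
    constructor
    · rintro ⟨⟨h1, h2⟩, h3⟩
      exact ⟨h1, h3⟩
    · rintro ⟨h1, h3⟩
      refine ⟨⟨h1, ?_⟩, h3⟩
      rw [hdiv, ← hG d (x % d) x (Nat.mod_modEq x d), h3]
      exact hr.2
  have hcard2 : (((Icc 1 P).filter (fun i => d ∣ aG G i)).card : ℝ) =
      ∑ r ∈ T, (((Icc 1 P).filter (fun x => x % d = r)).card : ℝ) := by
    rw [hcard]
    push_cast
    exact sum_congr rfl fun r hr => by rw [hfib r hr]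
  have hrho : (rhoA G d : ℝ) = (T.card : ℝ) := rfl
  unfold Rem
  have e1 : ∑ i ∈ (Icc 1 P).filter (fun i => d ∣ aG G i), (1 : ℝ) - nuA G d * P =
      ∑ r ∈ T, ((((Icc 1 P).filter (fun x => x % d = r)).card : ℝ) - (P : ℝ) / d) := by
    rw [sum_sub_distrib, ← hcard2, sum_const, sum_const, nsmul_eq_mul, nsmul_eq_mul, mul_one, nuA, hrho]
    ring
  rw [e1]
  refine (Finset.abs_sum_le_sum_abs _ _).trans ?_
  have h2 : ∀ r ∈ T, |(((Icc 1 P).filter (fun x => x % d = r)).card : ℝ) - (P : ℝ) / d| ≤ 1 := by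
    intro r hr
    rcases f3_class P d r hd with h | h
    · exact h
    · rw [hT, mem_filter, mem_range] at hr
      omega
  refine (sum_le_sum h2).trans ?_
  rw [sum_const, nsmul_eq_mul, mul_one, hrho]

theorem f3_large (C : ℝ) (hC : 0 < C) : ∃ P₀ : ℕ, ∀ P : ℕ, P₀ ≤ P →
    C * Real.log P ^ 35 ≤ (P : ℝ) ^ (1 / 100 : ℝ) := by
  have h1 := (isLittleO_log_rpow_rpow_atTop 35 (by norm_num : (0 : ℝ) < 1 / 100)).bound
    (by positivity : (0 : ℝ) < 1 / C)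
  have h2 := h1.and (Filter.eventually_ge_atTop (3 : ℝ))
  rw [Filter.eventually_atTop] at h2
  obtain ⟨x₀, hx₀⟩ := h2
  refine ⟨⌈x₀⌉₊, fun P hP => ?_⟩
  have hPx : x₀ ≤ P := (Nat.le_ceil x₀).trans (by exact_mod_cast hP)
  obtain ⟨h3, h4⟩ := hx₀ P hPx
  have hL : 0 ≤ Real.log P := Real.log_nonneg (by linarith only [h4])
  have e16 : Real.log P ^ (35 : ℝ) = Real.log P ^ 35 := by
    rw [← Real.rpow_natCast]
    norm_num
  rw [e16, Real.norm_of_nonneg (by positivity), Real.norm_of_nonneg (by positivity)] at h3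
  have h5 := mul_le_mul_of_nonneg_left h3 hC.le
  refine h5.trans (le_of_eq ?_)
  field_simp

theorem f3_rem_sum (n P : ℕ) (hP : 8 ≤ P) :
    ∑ d ∈ Dset ((P : ℝ) ^ (891 / 1000 : ℝ)) ((P : ℝ) ^ (99 / 100 : ℝ)),
      (d.divisors.card : ℝ) ^ 3 * Rem (Icc 1 P) (fun _ => (1 : ℝ)) (aG (GG n)) P (nuA (GG n)) d ≤
      (P : ℝ) ^ (99 / 100 : ℝ) * (2 * Real.log P) ^ 32 := by
  classical
  have hP8R : (8 : ℝ) ≤ P := by exact_mod_cast hP
  have hP0 : (0 : ℝ) < P := by linarith only [hP8R]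
  have hP1 : (1 : ℝ) ≤ P := by linarith only [hP8R]
  set D : ℝ := (P : ℝ) ^ (99 / 100 : ℝ) with hD
  set L := Real.log P with hL
  have hL1 : 1 ≤ L := by
    have h1 : Real.log (8 : ℝ) ≤ L := Real.log_le_log (by norm_num) hP8R
    have h2 : Real.log (8 : ℝ) = 3 * Real.log 2 := by
      rw [show (8 : ℝ) = 2 ^ 3 by norm_num, Real.log_pow]
      norm_num
    have h3 := Real.log_two_gt_d9
    linarith only [h1, h2, h3]
  have hD1 : 1 ≤ D := Real.one_le_rpow hP1 (by norm_num)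
  have hDfl : (⌊D⌋₊ : ℝ) ≤ D := Nat.floor_le (by linarith only [hD1])
  have h1 : ∀ d ∈ Dset ((P : ℝ) ^ (891 / 1000 : ℝ)) D,
      (d.divisors.card : ℝ) ^ 3 * Rem (Icc 1 P) (fun _ => (1 : ℝ)) (aG (GG n)) P (nuA (GG n)) d ≤
      (d.divisors.card : ℝ) ^ 5 := by
    intro d hd
    unfold Dset at hd
    rw [mem_filter, mem_Icc] at hd
    have h2 := f3_rem (GG_poly n) (GG_pos n) P d (by omega)
    have h3 := rhoA_le (GG_poly n) (rhoA_four n) d hd.2.1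
    have h4 : (rhoA (GG n) d : ℝ) ≤ (d.divisors.card : ℝ) ^ 2 := by exact_mod_cast h3
    calc (d.divisors.card : ℝ) ^ 3 * Rem (Icc 1 P) (fun _ => (1 : ℝ)) (aG (GG n)) P (nuA (GG n)) d
        ≤ (d.divisors.card : ℝ) ^ 3 * (d.divisors.card : ℝ) ^ 2 :=
          mul_le_mul_of_nonneg_left (h2.trans h4) (by positivity)
      _ = (d.divisors.card : ℝ) ^ 5 := by ring
  refine (sum_le_sum h1).trans ?_
  have hsub : Dset ((P : ℝ) ^ (891 / 1000 : ℝ)) D ⊆ Icc 1 ⌊D⌋₊ := by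
    classical
    unfold Dset
    exact Finset.filter_subset _ _
  refine (Finset.sum_le_sum_of_subset_of_nonneg hsub fun d _ _ => by positivity).trans ?_
  refine (tau_pow_sum 5 ⌊D⌋₊).trans ?_
  have h6 : Real.log ⌊D⌋₊ ≤ L := by
    have h7 : 1 ≤ ⌊D⌋₊ := Nat.le_floor (by exact_mod_cast hD1)
    have h8 : (1 : ℝ) ≤ ⌊D⌋₊ := by exact_mod_cast h7
    have h9 : Real.log ⌊D⌋₊ ≤ Real.log D := Real.log_le_log (by linarith only [h8]) hDfl
    rw [hD, Real.log_rpow hP0] at h9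
    have : (99 / 100 : ℝ) * L ≤ L := by linarith only [hL1]
    linarith only [this, h9]
  have h10 : 0 ≤ 1 + Real.log ⌊D⌋₊ := by
    have := Real.log_natCast_nonneg ⌊D⌋₊
    linarith only [this]
  have h11 : 1 + Real.log ⌊D⌋₊ ≤ 2 * L := by linarith only [hL1, h6]
  norm_num only
  exact mul_le_mul hDfl (pow_le_pow_left₀ h10 h11 32) (by positivity) (by linarith only [hD1])

theorem f3_wsum : ∃ c : ℝ, 0 < c ∧ ∃ P₀ : ℕ, ∀ P : ℕ, P₀ ≤ P → ∀ n : ℕ,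
    c * (P : ℝ) / Real.log P ^ 2 ≤ Wsum (Icc 1 P) (fun _ => (1 : ℝ)) (aG (GG n))
      ((P : ℝ) ^ (99 / 1750 : ℝ)) ((P : ℝ) ^ (891 / 1000 : ℝ)) := by
  obtain ⟨D₀, _, hW⟩ := weightedE
  obtain ⟨c1, u₀, hc1, hu₀, hV⟩ := mE_VV_ge
  obtain ⟨P₁, hR⟩ := f3_large (6 * 2 ^ 32 * 20 / c1) (by positivity)
  refine ⟨0.05 * c1, by positivity, ?_⟩
  have t1 : Filter.Tendsto (fun P : ℕ => ((P : ℝ)) ^ (99 / 100 : ℝ)) Filter.atTop Filter.atTop :=
    (tendsto_rpow_atTop (by norm_num)).comp tendsto_natCast_atTop_atTop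
  have t2 : Filter.Tendsto (fun P : ℕ => ((P : ℝ)) ^ (99 / 1750 : ℝ)) Filter.atTop Filter.atTop :=
    (tendsto_rpow_atTop (by norm_num)).comp tendsto_natCast_atTop_atTop
  have t3 : Filter.Tendsto (fun P : ℕ => Real.log (P : ℝ)) Filter.atTop Filter.atTop :=
    Real.tendsto_log_atTop.comp tendsto_natCast_atTop_atTop
  have ev := ((t1.eventually_ge_atTop D₀).and (t2.eventually_ge_atTop u₀)).and
    ((t3.eventually_ge_atTop 1).and (Filter.eventually_ge_atTop (max P₁ 8)))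
  obtain ⟨P₀, hP₀⟩ := Filter.eventually_atTop.1 ev
  refine ⟨P₀, ?_⟩
  intro P hP n
  obtain ⟨⟨hD, hz⟩, hL, hPP⟩ := hP₀ P hP
  have hP1 : P₁ ≤ P := (le_max_left _ _).trans hPP
  have hP8 : 8 ≤ P := (le_max_right _ _).trans hPP
  have hPpos : (0 : ℝ) < P := by exact_mod_cast (by omega : 0 < P)
  set L := Real.log (P : ℝ) with hLdef
  have hLpos : 0 < L := by linarith only [hL]
  have e1 : ((P : ℝ) ^ (99 / 100 : ℝ)) ^ (2 / 35 : ℝ) = (P : ℝ) ^ (99 / 1750 : ℝ) := by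
    rw [← Real.rpow_mul hPpos.le]; norm_num
  have e2 : ((P : ℝ) ^ (99 / 100 : ℝ)) ^ (9 / 10 : ℝ) = (P : ℝ) ^ (891 / 1000 : ℝ) := by
    rw [← Real.rpow_mul hPpos.le]; norm_num
  have hw := hW ((P : ℝ) ^ (99 / 100 : ℝ)) hD (Icc 1 P) (fun _ => (1 : ℝ)) (aG (GG n)) (P : ℝ)
    (nuA (GG n)) (fun _ => zero_le_one) hPpos.le (densA n)
  rw [e1, e2] at hw
  have hr := f3_rem_sum n P hP8
  have hv := hV (nuA (GG n)) (densA n) ((P : ℝ) ^ (99 / 1750 : ℝ)) hz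
  have hlz : Real.log ((P : ℝ) ^ (99 / 1750 : ℝ)) = 99 / 1750 * L := by
    rw [Real.log_rpow hPpos]
  have hlD : Real.log ((P : ℝ) ^ (99 / 100 : ℝ)) = 99 / 100 * L := by
    rw [Real.log_rpow hPpos]
  rw [hlz] at hv
  rw [hlD] at hw
  have hv2 : c1 / L ^ 2 ≤ VV (nuA (GG n)) ((P : ℝ) ^ (99 / 1750 : ℝ)) := by
    refine le_trans ?_ hv
    apply div_le_div_of_nonneg_left hc1.le
    · positivity
    · have : 99 / 1750 * L ≤ L := by nlinarith only [hL]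
      exact pow_le_pow_left₀ (by positivity) this 2
  set S := ∑ d ∈ Dset ((P : ℝ) ^ (891 / 1000 : ℝ)) ((P : ℝ) ^ (99 / 100 : ℝ)),
      (d.divisors.card : ℝ) ^ 3 * Rem (Icc 1 P) (fun _ => (1 : ℝ)) (aG (GG n)) P (nuA (GG n)) d with hS
  have hS2 : 6 * (99 / 100 * L) * S ≤ 0.05 * c1 * (P : ℝ) / L ^ 2 := by
    have hD0 : 0 < (P : ℝ) ^ (99 / 100 : ℝ) := by positivity
    have h1 : 6 * (99 / 100 * L) * S ≤ 6 * L * ((P : ℝ) ^ (99 / 100 : ℝ) * (2 * L) ^ 32) := by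
      have h2 : 6 * (99 / 100 * L) ≤ 6 * L := by linarith only [hLpos]
      refine (mul_le_mul_of_nonneg_left hr (by positivity)).trans ?_
      exact mul_le_mul_of_nonneg_right h2 (by positivity)
    refine h1.trans ?_
    rw [le_div_iff₀ (by positivity)]
    have h3 : (P : ℝ) ^ (99 / 100 : ℝ) * (P : ℝ) ^ (1 / 100 : ℝ) = P := by
      rw [← Real.rpow_add hPpos]
      norm_num
    have h4 := mul_le_mul_of_nonneg_left (hR P hP1) (by positivity : 0 ≤ 0.05 * c1 * (P : ℝ) ^ (99 / 100 : ℝ))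
    have h5 : 0.05 * c1 * (P : ℝ) ^ (99 / 100 : ℝ) * (P : ℝ) ^ (1 / 100 : ℝ) = 0.05 * c1 * P := by
      rw [mul_assoc, h3]
    rw [h5] at h4
    refine le_trans (le_of_eq ?_) h4
    field_simp
    ring
  have hmain : 0.1 * (P : ℝ) * (c1 / L ^ 2) ≤
      0.1 * (P : ℝ) * VV (nuA (GG n)) ((P : ℝ) ^ (99 / 1750 : ℝ)) :=
    mul_le_mul_of_nonneg_left hv2 (by positivity)
  have hy : 0.1 * (P : ℝ) * (c1 / L ^ 2) = 0.05 * c1 * (P : ℝ) / L ^ 2 + 0.05 * c1 * (P : ℝ) / L ^ 2 := by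
    field_simp
    ring
  linarith only [hw, hS2, hmain, hy]

end Pool.Agent.Lib.MP_93793a_nt
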