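import Pool.Agent.Lib.MP_93793a_nt.F3

/-! Counting: integers `x ≤ n / 2` for which `m ^ 2 + m + 1`, `m = x (n - x)`, has at most `8`
prime factors. -/

set_option autoImplicit false

namespace Pool.Agent.Lib.MP_93793a_nt

open Finset Pool.Agent.Lib.MP_d9bc60_nt.UV Pool.Agent.Lib.MP_d9bc60_nt.AP
open Pool.Agent.Lib.MP_57ec86_nt (PolyLike rhoG nuG aG rhoG_mul)

theorem f4_odd (n x : ℕ) : Odd (aG (GG n) x) := by
  have h1 : ((aG (GG n) x : ℕ) : ℤ) = GG n x := by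
    rw [aG]
    exact Int.toNat_of_nonneg (GG_pos n x).le
  have h2 : Odd (GG n x) := by
    unfold GG
    set m : ℤ := (x : ℤ) * ((n : ℤ) - x) with hm
    have h3 : Even (m * (m + 1)) := Int.even_mul_succ_self m
    have h4 : m ^ 2 + m + 1 = m * (m + 1) + 1 := by ring
    rw [h4]
    exact h3.add_one
  rw [← h1] at h2
  exact_mod_cast h2

theorem f4_size (n P x : ℕ) (hP : 3 ≤ P) (hn : n ≤ 2 * P + 1) (hn2 : 2 * P ≤ n) (hx : x ∈ Icc 1 P) :
    aG (GG n) x ≤ 2 * P ^ 4 := by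
  rw [mem_Icc] at hx
  have h1 : ((aG (GG n) x : ℕ) : ℤ) = GG n x := by
    rw [aG]
    exact Int.toNat_of_nonneg (GG_pos n x).le
  have hx1 : (1 : ℤ) ≤ x := by exact_mod_cast hx.1
  have hx2 : (x : ℤ) ≤ P := by exact_mod_cast hx.2
  have hn' : (n : ℤ) ≤ 2 * P + 1 := by exact_mod_cast hn
  have hn2' : 2 * (P : ℤ) ≤ n := by exact_mod_cast hn2
  have hP' : (3 : ℤ) ≤ P := by exact_mod_cast hP
  have h2 : GG n x ≤ 2 * (P : ℤ) ^ 4 := by
    unfold GG
    set m : ℤ := (x : ℤ) * ((n : ℤ) - x) with hm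
    have hm0 : 0 ≤ m := mul_nonneg (by linarith) (by linarith)
    have hm1 : m ≤ (P : ℤ) ^ 2 + P := by
      have h3 : 0 ≤ ((P : ℤ) - x) * ((P : ℤ) + 1 - x) := mul_nonneg (by linarith) (by linarith)
      have h4 : m ≤ (x : ℤ) * (2 * P + 1 - x) := mul_le_mul_of_nonneg_left (by linarith) (by linarith)
      nlinarith
    have hm2 : m ^ 2 ≤ ((P : ℤ) ^ 2 + P) ^ 2 := pow_le_pow_left₀ hm0 hm1 2
    have h5 : 3 * (P : ℤ) ^ 3 ≤ (P : ℤ) ^ 4 := by
      have : 0 ≤ ((P : ℤ) - 3) * (P : ℤ) ^ 3 := mul_nonneg (by linarith) (by positivity)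
      nlinarith
    have h6 : 3 * (P : ℤ) ^ 2 ≤ (P : ℤ) ^ 3 := by
      have : 0 ≤ ((P : ℤ) - 3) * (P : ℤ) ^ 2 := mul_nonneg (by linarith) (by positivity)
      nlinarith
    have h7 : 3 * (P : ℤ) ≤ (P : ℤ) ^ 2 := by nlinarith
    nlinarith
  rw [← h1] at h2
  exact_mod_cast h2

theorem f4_DD (n P : ℕ) (hP : 1701 ≤ P) (hn : n ≤ 2 * P + 1) : (DD n : ℝ) ≤ (P : ℝ) ^ 5 := by
  have h1 : n ≤ 3 * P := by omega
  have h2 : DD n ≤ P ^ 5 := by
    unfold DD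
    have h3 : n ^ 4 ≤ (3 * P) ^ 4 := Nat.pow_le_pow_left h1 4
    have h4 : n ^ 2 ≤ (3 * P) ^ 2 := Nat.pow_le_pow_left h1 2
    have h5 : P ^ 5 = P * P ^ 4 := by ring
    have h6 : 1701 * P ^ 4 ≤ P * P ^ 4 := Nat.mul_le_mul_right _ hP
    have h7 : P ^ 2 ≤ P ^ 4 := Nat.pow_le_pow_right (by omega) (by norm_num)
    have h8 : 1 ≤ P ^ 4 := Nat.one_le_pow _ _ (by omega)
    rw [h5]
    refine le_trans ?_ h6
    rw [mul_pow] at h3 h4
    norm_num at h3 h4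
    omega
  exact_mod_cast h2

theorem f4_DDlog (n P : ℕ) (hP : 1701 ≤ P) (hn : n ≤ 2 * P + 1) :
    Real.log (DD n) ≤ 5 * Real.log P := by
  have h1 := f4_DD n P hP hn
  have h2 : (0 : ℝ) < DD n := by
    have : 0 < DD n := by unfold DD; omega
    exact_mod_cast this
  have h3 := Real.log_le_log h2 h1
  rw [Real.log_pow] at h3
  exact_mod_cast h3

theorem f4_arith {P L z y c K G B : ℝ} (hP : 0 < P) (hL : 1 ≤ L) (hz : 0 < z) (_hc : 0 < c) (t : ℕ)
    (hK : 0 < K) (hG : c * P / L ^ t ≤ 5 * G) (hB : B ≤ (8 * P / z + 4 * y) * K) (hy : y ≤ P / z)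
    (h1 : 120 * K * L ^ t ≤ c * z) :
    c / 10 * P / L ^ t ≤ G - B := by
  have hL0 : 0 < L := by linarith only [hL]
  have hLt : 0 < L ^ t := by positivity
  have h7 : B ≤ c / 10 * P / L ^ t := by
    have h8 : B ≤ 12 * (P / z) * K := by
      refine hB.trans ?_
      have : 8 * P / z + 4 * y ≤ 12 * (P / z) := by
        have : 8 * P / z = 8 * (P / z) := by ring
        rw [this]
        linarith only [hy]
      exact mul_le_mul_of_nonneg_right this hK.le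
    refine h8.trans ?_
    have h9 : 12 * (P / z) * K = (P / (z * L ^ t)) * (12 * K * L ^ t) := by
      field_simp
    have h10 : c / 10 * P / L ^ t = (P / (z * L ^ t)) * (c / 10 * z) := by
      field_simp
    rw [h9, h10]
    exact mul_le_mul_of_nonneg_left (by linarith only [h1]) (by positivity)
  have h11 : c / 10 * P / L ^ t + c / 10 * P / L ^ t = (c * P / L ^ t) / 5 := by
    field_simp
    ring
  linarith only [hG, h7, h11]

theorem f4_ev (c K e : ℝ) (hc : 0 < c) (hK : 0 < K) (he : 0 < e) (t : ℕ) : ∃ P₀ : ℕ, ∀ P : ℕ, P₀ ≤ P →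
    40 ≤ Real.log P ∧ 5 ≤ (P : ℝ) ^ e ∧ 120 * K * Real.log P ^ t ≤ c * (P : ℝ) ^ e := by
  have h1 : ∀ᶠ x : ℝ in Filter.atTop, 40 ≤ Real.log x :=
    Real.tendsto_log_atTop.eventually_ge_atTop 40
  have h2 : ∀ᶠ x : ℝ in Filter.atTop, 5 ≤ x ^ e :=
    (tendsto_rpow_atTop he).eventually_ge_atTop 5
  have h3 := (isLittleO_log_rpow_rpow_atTop (t : ℝ) he).def
    (c := c / (120 * K)) (by positivity)
  have h5 := (h1.and (h2.and h3)).and (Filter.eventually_ge_atTop (1 : ℝ))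
  have h6 := (tendsto_natCast_atTop_atTop (R := ℝ)).eventually h5
  obtain ⟨P₀, hP₀⟩ := Filter.eventually_atTop.mp h6
  refine ⟨P₀, fun P hP => ?_⟩
  obtain ⟨⟨a1, a2, a3⟩, a5⟩ := hP₀ P hP
  refine ⟨a1, a2, ?_⟩
  have hL : 0 ≤ Real.log (P : ℝ) := by linarith only [a1]
  have e1 : Real.log (P : ℝ) ^ (t : ℝ) = Real.log P ^ t := Real.rpow_natCast _ _
  rw [e1, Real.norm_of_nonneg (by positivity), Real.norm_of_nonneg (by positivity)] at a3
  have h7 := mul_le_mul_of_nonneg_left a3 (by positivity : 0 ≤ 120 * K)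
  refine h7.trans (le_of_eq ?_)
  field_simp

open Classical in
theorem f4_count : ∃ c : ℝ, 0 < c ∧ ∃ P₀ : ℕ, ∀ P : ℕ, P₀ ≤ P → ∀ n : ℕ, n ≤ 2 * P + 1 →
    c * (P : ℝ) / Real.log P ^ 2 ≤ (((Icc 1 P).filter (fun x =>
        Sft ((P : ℝ) ^ (99 / 1750 : ℝ)) (aG (GG n) x) ∧
        (∀ l ∈ prs ((P : ℝ) ^ (99 / 1750 : ℝ)) ((P : ℝ) ^ (891 / 1000 : ℝ)), ¬ l ^ 2 ∣ aG (GG n) x) ∧
        0 < Wt ((P : ℝ) ^ (99 / 1750 : ℝ)) ((P : ℝ) ^ (891 / 1000 : ℝ)) (aG (GG n) x))).card : ℝ) := by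
  obtain ⟨c, hc, P₁, hw⟩ := f3_wsum
  obtain ⟨P₂, hev⟩ := f4_ev c 90 (99 / 1750) hc (by norm_num) (by norm_num) 2
  refine ⟨c / 10, by positivity, max (max P₁ P₂) 1701, fun P hP n hn => ?_⟩
  have hPP₁ : P₁ ≤ P := ((le_max_left _ _).trans (le_max_left _ _)).trans hP
  have hPP₂ : P₂ ≤ P := ((le_max_right _ _).trans (le_max_left _ _)).trans hP
  have hP1701 : 1701 ≤ P := (le_max_right _ _).trans hP
  obtain ⟨hL40, hz5, ha⟩ := hev P hPP₂
  have hw1 := hw P hPP₁ n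
  have hP1 : (1 : ℝ) < P := by exact_mod_cast (by omega : 1 < P)
  have hP0 : (0 : ℝ) < P := by linarith only [hP1]
  set z : ℝ := (P : ℝ) ^ (99 / 1750 : ℝ) with hz
  set y : ℝ := (P : ℝ) ^ (891 / 1000 : ℝ) with hy
  set L : ℝ := Real.log P with hLdef
  have hzy : z ≤ y := Real.rpow_le_rpow_of_exponent_le hP1.le (by norm_num)
  have hyPz : y ≤ P / z := by
    rw [le_div_iff₀ (by linarith only [hz5]), hy, hz, ← Real.rpow_add hP0]
    conv_rhs => rw [← Real.rpow_one (P : ℝ)]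
    exact Real.rpow_le_rpow_of_exponent_le hP1.le (by norm_num)
  have hy1 : 1 < y := by linarith only [hz5, hzy]
  set G1 := (Icc 1 P).filter (fun x : ℕ => Sft z (aG (GG n) x) ∧ 0 < Wt z y (aG (GG n) x)) with hG1
  set Bad := (Icc 1 P).filter (fun x : ℕ => ∃ l ∈ prs z y, l ^ 2 ∣ aG (GG n) x) with hBad
  have hsum : Wsum (Icc 1 P) (fun _ => (1 : ℝ)) (aG (GG n)) z y ≤ 5 * (G1.card : ℝ) := by
    unfold Wsum
    have h1 : ∀ i ∈ (Icc 1 P).filter (fun i => Sft z (aG (GG n) i)),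
        1 * Wt z y (aG (GG n) i) ≤ if i ∈ G1 then 5 else 0 := by
      intro i hi
      obtain ⟨hi1, hi2⟩ := Finset.mem_filter.mp hi
      have hWt := a10_Wt_le z y hy1 (aG (GG n) i)
      split_ifs with hG
      · linarith only [hWt]
      · have h5 : ¬ 0 < Wt z y (aG (GG n) i) := fun h6 =>
          hG (Finset.mem_filter.mpr ⟨hi1, hi2, h6⟩)
        rw [one_mul]
        exact not_lt.mp h5
    refine (Finset.sum_le_sum h1).trans ?_
    rw [← Finset.sum_filter, Finset.sum_const, nsmul_eq_mul, mul_comm]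
    apply mul_le_mul_of_nonneg_left _ (by norm_num)
    exact_mod_cast Finset.card_le_card fun i hi => (Finset.mem_filter.mp hi).2
  have hbad : (Bad.card : ℝ) ≤ (8 * P / z + 4 * y) * 90 := by
    refine (nonsqE P n z y hz5 hzy).trans ?_
    apply mul_le_mul_of_nonneg_left
    · have h1 := f4_DDlog n P hP1701 hn
      have h4 : Real.log z = 99 / 1750 * L := by
        rw [hz, Real.log_rpow hP0]
      rw [h4]
      have h6 : Real.log (DD n) / (99 / 1750 * L) ≤ 89 := by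
        rw [div_le_iff₀ (by positivity)]
        linarith only [h1, hL40]
      linarith only [h6]
    · positivity
  have hsub : G1 \ Bad ⊆ (Icc 1 P).filter (fun x : ℕ =>
        Sft z (aG (GG n) x) ∧ (∀ l ∈ prs z y, ¬ l ^ 2 ∣ aG (GG n) x) ∧ 0 < Wt z y (aG (GG n) x)) := by
    intro x hx
    rw [Finset.mem_sdiff] at hx
    obtain ⟨hx1, hx2⟩ := hx
    obtain ⟨hx3, hx4, hx5⟩ := Finset.mem_filter.mp hx1
    refine Finset.mem_filter.mpr ⟨hx3, hx4, ?_, hx5⟩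
    intro l hl hdiv
    exact hx2 (Finset.mem_filter.mpr ⟨hx3, l, hl, hdiv⟩)
  have hcard : (G1.card : ℝ) - Bad.card ≤ ((G1 \ Bad).card : ℝ) := by
    have := Finset.le_card_sdiff Bad G1
    have h2 : G1.card ≤ (G1 \ Bad).card + Bad.card := by omega
    have h3 : (G1.card : ℝ) ≤ (G1 \ Bad).card + Bad.card := by exact_mod_cast h2
    linarith only [h3]
  have hfin := f4_arith (P := P) (L := L) (z := z) (y := y) (c := c) (K := 90)
    (G := G1.card) (B := Bad.card) hP0 (by linarith only [hL40]) (by linarith only [hz5]) hc 2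
    (by norm_num) (hw1.trans hsum) hbad hyPz ha
  refine hfin.trans (hcard.trans ?_)
  exact_mod_cast Finset.card_le_card hsub

/-- the number of prime factors -/
theorem f4_omega {P a : ℕ} (hL : 40 ≤ Real.log P) (hP : 2 ≤ P) (ha : 1 ≤ a) (ha2 : a ≤ 2 * P ^ 4) :
    1 < (P : ℝ) ^ (891 / 1000 : ℝ) ∧
      Real.log a / Real.log ((P : ℝ) ^ (891 / 1000 : ℝ)) ≤ 4.51 := by
  have hap : (0 : ℝ) < a := by exact_mod_cast ha
  have hPp : (0 : ℝ) < P := by exact_mod_cast (by omega : 0 < P)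
  have hP1 : (1 : ℝ) < P := by exact_mod_cast (by omega : 1 < P)
  have hlog2 := Real.log_two_lt_d9
  have hlogy : Real.log ((P : ℝ) ^ (891 / 1000 : ℝ)) = 891 / 1000 * Real.log P :=
    Real.log_rpow hPp _
  refine ⟨Real.one_lt_rpow hP1 (by norm_num), ?_⟩
  have hL0 : 0 < Real.log P := by linarith only [hL]
  rw [hlogy, div_le_iff₀ (by positivity)]
  have hloga : Real.log a ≤ Real.log 2 + 4 * Real.log P := by
    have h1 : (a : ℝ) ≤ 2 * (P : ℝ) ^ 4 := by exact_mod_cast ha2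
    have h2 := Real.log_le_log hap h1
    rw [Real.log_mul (by norm_num) (by positivity), Real.log_pow] at h2
    exact_mod_cast h2
  linarith only [hloga, hlog2, hL]

theorem f4_rough {e1 e2 d : ℝ} (h : e1 = e2 + d) (he0 : 0 ≤ e2) (he1 : e2 ≤ 1) {P n : ℕ} (hP : 1 ≤ P)
    (hn : n ≤ 3 * P) (h5 : 5 ≤ (P : ℝ) ^ d) : (n : ℝ) ^ e2 ≤ (P : ℝ) ^ e1 := by
  have hP0 : (0 : ℝ) < P := by exact_mod_cast hP
  have hnR : (n : ℝ) ≤ 3 * P := by exact_mod_cast hn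
  have h1 : (n : ℝ) ^ e2 ≤ (3 * P : ℝ) ^ e2 := Real.rpow_le_rpow (Nat.cast_nonneg _) hnR he0
  have h2 : (3 * P : ℝ) ^ e2 = 3 ^ e2 * (P : ℝ) ^ e2 := Real.mul_rpow (by norm_num) hP0.le
  have h3 : (3 : ℝ) ^ e2 ≤ 3 := by
    calc (3 : ℝ) ^ e2 ≤ (3 : ℝ) ^ (1 : ℝ) := Real.rpow_le_rpow_of_exponent_le (by norm_num) he1
      _ = 3 := Real.rpow_one 3
  have h4 : (P : ℝ) ^ e1 = (P : ℝ) ^ e2 * (P : ℝ) ^ d := by rw [h, Real.rpow_add hP0]
  have h6 : 0 < (P : ℝ) ^ e2 := Real.rpow_pos_of_pos hP0 _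
  rw [h2] at h1
  rw [h4]
  nlinarith only [h1, h3, h5, h6]

theorem f4_main : ∃ c : ℝ, 0 < c ∧ ∃ n₀ : ℕ, ∀ n : ℕ, n₀ ≤ n →
    c * (n : ℝ) / Real.log n ^ 2 ≤ (Set.ncard {x : ℕ | 1 ≤ x ∧ 2 * x ≤ n ∧
      ArithmeticFunction.cardFactors ((x * (n - x)) ^ 2 + x * (n - x) + 1) ≤ 8 ∧
      ∀ l : ℕ, l.Prime → l ∣ (x * (n - x)) ^ 2 + x * (n - x) + 1 →
        (n : ℝ) ^ (1 / 18 : ℝ) ≤ l} : ℝ) := by
  classical
  obtain ⟨c, hc, P₁, hcount⟩ := f4_count
  obtain ⟨P₂, hev⟩ := f4_ev 1 1 (8 / 7875) one_pos one_pos (by norm_num) 0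
  refine ⟨c / 3, by positivity, 2 * (max (max P₁ P₂) 3) + 2, fun n hn => ?_⟩
  set P := n / 2 with hP
  have hPP₁ : P₁ ≤ P := by omega
  have hPP₂ : P₂ ≤ P := by omega
  have hP3 : 3 ≤ P := by omega
  have hn1 : n ≤ 2 * P + 1 := by omega
  have hn2 : 2 * P ≤ n := by omega
  obtain ⟨hL, h5P, _⟩ := hev P hPP₂
  have hrough : (n : ℝ) ^ (1 / 18 : ℝ) ≤ (P : ℝ) ^ (99 / 1750 : ℝ) :=
    f4_rough (by norm_num) (by norm_num) (by norm_num) (by omega) (by omega) h5P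
  have h1 := hcount P hPP₁ n hn1
  have hPR : (3 : ℝ) ≤ P := by exact_mod_cast hP3
  have hnR : (n : ℝ) ≤ 3 * P := by exact_mod_cast (by omega : n ≤ 3 * P)
  have hnR2 : (P : ℝ) ≤ n := by exact_mod_cast (by omega : P ≤ n)
  have hLn : Real.log P ≤ Real.log n := Real.log_le_log (by linarith only [hPR]) hnR2
  have h2 : c / 3 * (n : ℝ) / Real.log n ^ 2 ≤ c * (P : ℝ) / Real.log P ^ 2 := by
    have hL0 : 0 < Real.log P := by linarith only [hL]
    apply div_le_div₀ (by positivity)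
    · nlinarith only [hnR, hc]
    · positivity
    · exact pow_le_pow_left₀ hL0.le hLn 2
  refine h2.trans (h1.trans ?_)
  set S : Set ℕ := {x : ℕ | 1 ≤ x ∧ 2 * x ≤ n ∧
      ArithmeticFunction.cardFactors ((x * (n - x)) ^ 2 + x * (n - x) + 1) ≤ 8 ∧
      ∀ l : ℕ, l.Prime → l ∣ (x * (n - x)) ^ 2 + x * (n - x) + 1 →
        (n : ℝ) ^ (1 / 18 : ℝ) ≤ l} with hS
  have hfin : S.Finite := by
    refine (Set.finite_Iic n).subset fun x hx => ?_
    rw [hS, Set.mem_ofPred_eq] at hx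
    rw [Set.mem_Iic]
    omega
  have hsub : ((((Icc 1 P).filter (fun x =>
        Sft ((P : ℝ) ^ (99 / 1750 : ℝ)) (aG (GG n) x) ∧
        (∀ l ∈ prs ((P : ℝ) ^ (99 / 1750 : ℝ)) ((P : ℝ) ^ (891 / 1000 : ℝ)), ¬ l ^ 2 ∣ aG (GG n) x) ∧
        0 < Wt ((P : ℝ) ^ (99 / 1750 : ℝ)) ((P : ℝ) ^ (891 / 1000 : ℝ)) (aG (GG n) x))) : Finset ℕ) :
        Set ℕ) ⊆ S := by
    intro x hx
    rw [mem_coe] at hx
    obtain ⟨hx1, hx2, hx3, hx4⟩ := mem_filter.1 hx
    have hx1' := mem_Icc.1 hx1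
    have hodd := f4_odd n x
    have hsize := f4_size n P x hP3 hn1 hn2 hx1
    have hpos : 1 ≤ aG (GG n) x := hodd.pos
    obtain ⟨v1, v2⟩ := f4_omega hL (by omega) hpos hsize
    have hom := omega_le _ _ v1 (aG (GG n) x) hodd hx2 hx3 hx4
    have e : (x * (n - x)) ^ 2 + x * (n - x) + 1 = aG (GG n) x := by
      have h5 : ((aG (GG n) x : ℕ) : ℤ) = GG n x := by
        rw [aG]
        exact Int.toNat_of_nonneg (GG_pos n x).le
      have hxn : x ≤ n := by omega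
      have h6 : (((x * (n - x)) ^ 2 + x * (n - x) + 1 : ℕ) : ℤ) = ((aG (GG n) x : ℕ) : ℤ) := by
        rw [h5, GG]
        push_cast [Nat.cast_sub hxn]
        ring
      exact_mod_cast h6
    rw [hS, Set.mem_ofPred_eq, e]
    refine ⟨hx1'.1, by omega, ?_, ?_⟩
    · by_contra hcon
      push Not at hcon
      have h7 : (9 : ℝ) ≤ (ArithmeticFunction.cardFactors (aG (GG n) x) : ℝ) := by exact_mod_cast hcon
      linarith only [hom, v2, h7]
    · intro l hl hdiv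
      refine hrough.trans ?_
      have hl3 : 3 ≤ l := by
        have h8 := hl.two_le
        have hne : l ≠ 2 := by
          rintro rfl
          exact (Nat.not_even_iff_odd.2 hodd) (even_iff_two_dvd.2 hdiv)
        omega
      by_contra hcon
      push Not at hcon
      exact hx2 l hl hl3 hcon hdiv
  rw [← Set.ncard_coe_finset]
  exact_mod_cast Set.ncard_le_ncard hsub hfin

end Pool.Agent.Lib.MP_93793a_nt
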