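import Pool.Agent.Lib.MP_93793a_nt.F4
import Pool.Agent.Lib.MP_57ec86_nt.K5

/-! Primes `x ≤ n / 2` for which `m ^ 2 + m + 1`, `m = x (n - x)`, has at most `13`
prime factors. -/

set_option autoImplicit false

namespace Pool.Agent.Lib.MP_93793a_nt

open Finset Pool.Agent.Lib.MP_d9bc60_nt.UV Pool.Agent.Lib.MP_d9bc60_nt.AP
open Pool.Agent.Lib.MP_57ec86_nt (PolyLike rhoG nuG aG rhoG_mul k5_rem_sum k5_wq_nonneg k5_wq_le)

theorem f5_wsum : ∃ c : ℝ, 0 < c ∧ ∃ P₀ : ℕ, ∀ P : ℕ, P₀ ≤ P → ∀ n : ℕ,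
    c * (P : ℝ) / Real.log P ^ 2 ≤ Wsum (Icc 1 P) (wq P ((P : ℝ) ^ (1791 / 4000 : ℝ))) (aG (GG n))
      ((P : ℝ) ^ (199 / 7000 : ℝ)) ((P : ℝ) ^ (1791 / 4000 : ℝ)) := by
  obtain ⟨D₀, _, hW⟩ := weightedE
  obtain ⟨c1, u₀, hc1, hu₀, hV⟩ := mE_VV_ge
  obtain ⟨P₁, hR⟩ := k5_rem_sum
  refine ⟨0.05 * c1, by positivity, ?_⟩
  have t1 : Filter.Tendsto (fun P : ℕ => ((P : ℝ)) ^ (199 / 400 : ℝ)) Filter.atTop Filter.atTop :=
    (tendsto_rpow_atTop (by norm_num)).comp tendsto_natCast_atTop_atTop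
  have t2 : Filter.Tendsto (fun P : ℕ => ((P : ℝ)) ^ (199 / 7000 : ℝ)) Filter.atTop Filter.atTop :=
    (tendsto_rpow_atTop (by norm_num)).comp tendsto_natCast_atTop_atTop
  have t3 : Filter.Tendsto (fun P : ℕ => Real.log (P : ℝ)) Filter.atTop Filter.atTop :=
    Real.tendsto_log_atTop.comp tendsto_natCast_atTop_atTop
  have ev := ((t1.eventually_ge_atTop D₀).and (t2.eventually_ge_atTop u₀)).and
    ((t3.eventually_ge_atTop (240 / c1)).and
      ((t3.eventually_ge_atTop 1).and (Filter.eventually_ge_atTop (max P₁ 2))))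
  obtain ⟨P₀, hP₀⟩ := Filter.eventually_atTop.1 ev
  refine ⟨P₀, ?_⟩
  intro P hP n
  obtain ⟨⟨hD, hz⟩, hL1, hL, hPP⟩ := hP₀ P hP
  have hP1 : P₁ ≤ P := (le_max_left _ _).trans hPP
  have hP2 : 2 ≤ P := (le_max_right _ _).trans hPP
  have hPpos : (0 : ℝ) < P := by exact_mod_cast (by omega : 0 < P)
  set L := Real.log (P : ℝ) with hLdef
  have hLpos : 0 < L := by linarith only [hL]
  have e1 : ((P : ℝ) ^ (199 / 400 : ℝ)) ^ (2 / 35 : ℝ) = (P : ℝ) ^ (199 / 7000 : ℝ) := by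
    rw [← Real.rpow_mul hPpos.le]; norm_num
  have e2 : ((P : ℝ) ^ (199 / 400 : ℝ)) ^ (9 / 10 : ℝ) = (P : ℝ) ^ (1791 / 4000 : ℝ) := by
    rw [← Real.rpow_mul hPpos.le]; norm_num
  have hw := hW ((P : ℝ) ^ (199 / 400 : ℝ)) hD (Icc 1 P)
    (wq P ((P : ℝ) ^ (1791 / 4000 : ℝ))) (aG (GG n)) (P : ℝ) (nuG (GG n))
    (k5_wq_nonneg P _) hPpos.le (densG n)
  rw [e1, e2] at hw
  have hr := hR P hP1 (GG n) (GG_poly n) (fun p hp => (rhoG_le_rhoA (GG n) p).trans (rhoA_four n p hp))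
    (fun x _ => GG_pos n x)
  have hv := hV (nuG (GG n)) (densG n) ((P : ℝ) ^ (199 / 7000 : ℝ)) hz
  have hlz : Real.log ((P : ℝ) ^ (199 / 7000 : ℝ)) = 199 / 7000 * L := by
    rw [Real.log_rpow hPpos]
  have hlD : Real.log ((P : ℝ) ^ (199 / 400 : ℝ)) = 199 / 400 * L := by
    rw [Real.log_rpow hPpos]
  rw [hlz] at hv
  rw [hlD] at hw
  have hv2 : c1 / L ^ 2 ≤ VV (nuG (GG n)) ((P : ℝ) ^ (199 / 7000 : ℝ)) := by
    refine le_trans ?_ hv
    apply div_le_div_of_nonneg_left hc1.le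
    · positivity
    · have : 199 / 7000 * L ≤ L := by nlinarith only [hL]
      exact pow_le_pow_left₀ (by positivity) this 2
  set S := ∑ d ∈ Dset ((P : ℝ) ^ (1791 / 4000 : ℝ)) ((P : ℝ) ^ (199 / 400 : ℝ)),
      (d.divisors.card : ℝ) ^ 3 *
        Rem (Icc 1 P) (wq P ((P : ℝ) ^ (1791 / 4000 : ℝ))) (aG (GG n)) P (nuG (GG n)) d with hS
  have hS2 : 6 * (199 / 400 * L) * S ≤ 12 * P / L ^ 3 := by
    have hr4 : S ≤ 2 * (P : ℝ) / L ^ 4 := by
      refine hr.trans ?_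
      apply div_le_div_of_nonneg_left (by positivity) (by positivity)
      exact pow_le_pow_right₀ hL (by norm_num)
    calc 6 * (199 / 400 * L) * S ≤ 6 * (199 / 400 * L) * (2 * (P : ℝ) / L ^ 4) :=
          mul_le_mul_of_nonneg_left hr4 (by positivity)
      _ ≤ 6 * L * (2 * (P : ℝ) / L ^ 4) := by
          apply mul_le_mul_of_nonneg_right _ (by positivity)
          nlinarith only [hL]
      _ = 12 * P / L ^ 3 := by
          field_simp
          ring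
  have hmain : 0.1 * (P : ℝ) * (c1 / L ^ 2) ≤
      0.1 * (P : ℝ) * VV (nuG (GG n)) ((P : ℝ) ^ (199 / 7000 : ℝ)) :=
    mul_le_mul_of_nonneg_left hv2 (by positivity)
  have hfin : 0.05 * c1 * (P : ℝ) / L ^ 2 ≤ 0.1 * (P : ℝ) * (c1 / L ^ 2) - 12 * P / L ^ 3 := by
    have h240 : 240 ≤ L * c1 := by
      rw [div_le_iff₀ hc1] at hL1
      exact hL1
    have hx : 12 * (P : ℝ) / L ^ 3 ≤ 0.05 * c1 * (P : ℝ) / L ^ 2 := by
      rw [div_le_div_iff₀ (by positivity) (by positivity)]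
      have : 12 * (P : ℝ) * L ^ 2 ≤ 0.05 * (L * c1) * (P : ℝ) * L ^ 2 := by
        apply mul_le_mul_of_nonneg_right _ (by positivity)
        apply mul_le_mul_of_nonneg_right _ hPpos.le
        linarith only [h240]
      calc 12 * (P : ℝ) * L ^ 2 ≤ 0.05 * (L * c1) * (P : ℝ) * L ^ 2 := this
        _ = 0.05 * c1 * (P : ℝ) * L ^ 3 := by ring
    have hy : 0.1 * (P : ℝ) * (c1 / L ^ 2) = 0.05 * c1 * (P : ℝ) / L ^ 2 + 0.05 * c1 * (P : ℝ) / L ^ 2 := by
      field_simp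
      ring
    rw [hy]
    linarith only [hx]
  linarith only [hw, hS2, hmain, hfin]

open Classical in
theorem f5_count : ∃ c : ℝ, 0 < c ∧ ∃ P₀ : ℕ, ∀ P : ℕ, P₀ ≤ P → ∀ n : ℕ, n ≤ 2 * P + 1 →
    c * (P : ℝ) / Real.log P ^ 4 ≤ (((Icc 1 P).filter (fun x => x.Prime ∧
        Sft ((P : ℝ) ^ (199 / 7000 : ℝ)) (aG (GG n) x) ∧
        (∀ l ∈ prs ((P : ℝ) ^ (199 / 7000 : ℝ)) ((P : ℝ) ^ (1791 / 4000 : ℝ)), ¬ l ^ 2 ∣ aG (GG n) x) ∧
        0 < Wt ((P : ℝ) ^ (199 / 7000 : ℝ)) ((P : ℝ) ^ (1791 / 4000 : ℝ)) (aG (GG n) x))).card : ℝ) := by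
  obtain ⟨c, hc, P₁, hw⟩ := f5_wsum
  obtain ⟨P₂, hev⟩ := f4_ev c 177 (199 / 7000) hc (by norm_num) (by norm_num) 4
  refine ⟨c / 10, by positivity, max (max P₁ P₂) 1701, fun P hP n hn => ?_⟩
  have hPP₁ : P₁ ≤ P := ((le_max_left _ _).trans (le_max_left _ _)).trans hP
  have hPP₂ : P₂ ≤ P := ((le_max_right _ _).trans (le_max_left _ _)).trans hP
  have hP1701 : 1701 ≤ P := (le_max_right _ _).trans hP
  obtain ⟨hL40, hz5, ha⟩ := hev P hPP₂
  have hw1 := hw P hPP₁ n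
  have hP1 : (1 : ℝ) < P := by exact_mod_cast (by omega : 1 < P)
  have hP0 : (0 : ℝ) < P := by linarith only [hP1]
  set z : ℝ := (P : ℝ) ^ (199 / 7000 : ℝ) with hz
  set y : ℝ := (P : ℝ) ^ (1791 / 4000 : ℝ) with hy
  set L : ℝ := Real.log P with hLdef
  have hL0 : 0 < L := by linarith only [hL40]
  have hzy : z ≤ y := Real.rpow_le_rpow_of_exponent_le hP1.le (by norm_num)
  have hyPz : y ≤ P / z := by
    rw [le_div_iff₀ (by linarith only [hz5]), hy, hz, ← Real.rpow_add hP0]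
    conv_rhs => rw [← Real.rpow_one (P : ℝ)]
    exact Real.rpow_le_rpow_of_exponent_le hP1.le (by norm_num)
  have hy1 : 1 < y := by linarith only [hz5, hzy]
  set G1 := (Icc 1 P).filter (fun x : ℕ => x.Prime ∧ Sft z (aG (GG n) x) ∧ 0 < Wt z y (aG (GG n) x)) with hG1
  set Bad := (Icc 1 P).filter (fun x : ℕ => ∃ l ∈ prs z y, l ^ 2 ∣ aG (GG n) x) with hBad
  have hsum : Wsum (Icc 1 P) (wq P y) (aG (GG n)) z y ≤ L ^ 2 * 5 * (G1.card : ℝ) := by
    unfold Wsum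
    have h1 : ∀ i ∈ (Icc 1 P).filter (fun i => Sft z (aG (GG n) i)),
        wq P y i * Wt z y (aG (GG n) i) ≤ if i ∈ G1 then L ^ 2 * 5 else 0 := by
      intro i hi
      obtain ⟨hi1, hi2⟩ := Finset.mem_filter.mp hi
      have w0 := k5_wq_nonneg P y i
      have w1 := k5_wq_le P y i hi1
      have hWt := a10_Wt_le z y hy1 (aG (GG n) i)
      split_ifs with hG
      · have h2 : wq P y i * Wt z y (aG (GG n) i) ≤ wq P y i * 5 :=
          mul_le_mul_of_nonneg_left (by linarith only [hWt]) w0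
        refine h2.trans ?_
        exact mul_le_mul_of_nonneg_right w1 (by norm_num)
      · by_cases hpr : i.Prime ∧ y < (i : ℝ)
        · have h5 : ¬ 0 < Wt z y (aG (GG n) i) := fun h6 =>
            hG (Finset.mem_filter.mpr ⟨hi1, hpr.1, hi2, h6⟩)
          exact mul_nonpos_of_nonneg_of_nonpos w0 (not_lt.mp h5)
        · have h5 : wq P y i = 0 := by
            unfold wq
            rw [if_neg hpr]
          rw [h5, zero_mul]
    refine (Finset.sum_le_sum h1).trans ?_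
    rw [← Finset.sum_filter, Finset.sum_const, nsmul_eq_mul, mul_comm]
    apply mul_le_mul_of_nonneg_left _ (by positivity)
    exact_mod_cast Finset.card_le_card fun i hi => (Finset.mem_filter.mp hi).2
  have hsum2 : c * (P : ℝ) / L ^ 4 ≤ 5 * (G1.card : ℝ) := by
    have h1 := hw1.trans hsum
    have e : c * (P : ℝ) / L ^ 4 = (c * (P : ℝ) / L ^ 2) / L ^ 2 := by
      field_simp
    rw [e, div_le_iff₀ (by positivity)]
    linarith only [h1]
  have hbad : (Bad.card : ℝ) ≤ (8 * P / z + 4 * y) * 177 := by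
    refine (nonsqE P n z y hz5 hzy).trans ?_
    apply mul_le_mul_of_nonneg_left
    · have h1 := f4_DDlog n P hP1701 hn
      have h4 : Real.log z = 199 / 7000 * L := by
        rw [hz, Real.log_rpow hP0]
      rw [h4]
      have h6 : Real.log (DD n) / (199 / 7000 * L) ≤ 176 := by
        rw [div_le_iff₀ (by positivity)]
        linarith only [h1, hL40]
      linarith only [h6]
    · positivity
  have hsub : G1 \ Bad ⊆ (Icc 1 P).filter (fun x : ℕ => x.Prime ∧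
        Sft z (aG (GG n) x) ∧ (∀ l ∈ prs z y, ¬ l ^ 2 ∣ aG (GG n) x) ∧ 0 < Wt z y (aG (GG n) x)) := by
    intro x hx
    rw [Finset.mem_sdiff] at hx
    obtain ⟨hx1, hx2⟩ := hx
    obtain ⟨hx3, hxp, hx4, hx5⟩ := Finset.mem_filter.mp hx1
    refine Finset.mem_filter.mpr ⟨hx3, hxp, hx4, ?_, hx5⟩
    intro l hl hdiv
    exact hx2 (Finset.mem_filter.mpr ⟨hx3, l, hl, hdiv⟩)
  have hcard : (G1.card : ℝ) - Bad.card ≤ ((G1 \ Bad).card : ℝ) := by
    have := Finset.le_card_sdiff Bad G1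
    have h2 : G1.card ≤ (G1 \ Bad).card + Bad.card := by omega
    have h3 : (G1.card : ℝ) ≤ (G1 \ Bad).card + Bad.card := by exact_mod_cast h2
    linarith only [h3]
  have hfin := f4_arith (P := P) (L := L) (z := z) (y := y) (c := c) (K := 177)
    (G := G1.card) (B := Bad.card) hP0 (by linarith only [hL40]) (by linarith only [hz5]) hc 4
    (by norm_num) hsum2 hbad hyPz ha
  refine hfin.trans (hcard.trans ?_)
  exact_mod_cast Finset.card_le_card hsub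

/-- the number of prime factors -/
theorem f5_omega {P a : ℕ} (hL : 40 ≤ Real.log P) (hP : 2 ≤ P) (ha : 1 ≤ a) (ha2 : a ≤ 2 * P ^ 4) :
    1 < (P : ℝ) ^ (1791 / 4000 : ℝ) ∧
      Real.log a / Real.log ((P : ℝ) ^ (1791 / 4000 : ℝ)) ≤ 9.5 := by
  have hap : (0 : ℝ) < a := by exact_mod_cast ha
  have hPp : (0 : ℝ) < P := by exact_mod_cast (by omega : 0 < P)
  have hP1 : (1 : ℝ) < P := by exact_mod_cast (by omega : 1 < P)
  have hlog2 := Real.log_two_lt_d9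
  have hlogy : Real.log ((P : ℝ) ^ (1791 / 4000 : ℝ)) = 1791 / 4000 * Real.log P :=
    Real.log_rpow hPp _
  refine ⟨Real.one_lt_rpow hP1 (by norm_num), ?_⟩
  have hL0 : 0 < Real.log P := by linarith only [hL]
  rw [hlogy, div_le_iff₀ (by positivity)]
  have hloga : Real.log a ≤ Real.log 2 + 4 * Real.log P := by
    have h1 : (a : ℝ) ≤ 2 * (P : ℝ) ^ 4 := by exact_mod_cast ha2
    have h2 := Real.log_le_log hap h1
    rw [Real.log_mul (by norm_num) (by positivity), Real.log_pow] at h2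
    exact_mod_cast h2
  linarith only [hloga, hlog2, hL]

theorem f5_main : ∃ c : ℝ, 0 < c ∧ ∃ n₀ : ℕ, ∀ n : ℕ, n₀ ≤ n →
    c * (n : ℝ) / Real.log n ^ 4 ≤ (Set.ncard {x : ℕ | x.Prime ∧ 2 * x ≤ n ∧
      ArithmeticFunction.cardFactors ((x * (n - x)) ^ 2 + x * (n - x) + 1) ≤ 13 ∧
      ∀ l : ℕ, l.Prime → l ∣ (x * (n - x)) ^ 2 + x * (n - x) + 1 →
        (n : ℝ) ^ (1 / 36 : ℝ) ≤ l} : ℝ) := by
  classical
  obtain ⟨c, hc, P₁, hcount⟩ := f5_count
  obtain ⟨P₂, hev⟩ := f4_ev 1 1 (41 / 63000) one_pos one_pos (by norm_num) 0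
  refine ⟨c / 3, by positivity, 2 * (max (max P₁ P₂) 3) + 2, fun n hn => ?_⟩
  set P := n / 2 with hP
  have hPP₁ : P₁ ≤ P := by omega
  have hPP₂ : P₂ ≤ P := by omega
  have hP3 : 3 ≤ P := by omega
  have hn1 : n ≤ 2 * P + 1 := by omega
  have hn2 : 2 * P ≤ n := by omega
  obtain ⟨hL, h5P, _⟩ := hev P hPP₂
  have hrough : (n : ℝ) ^ (1 / 36 : ℝ) ≤ (P : ℝ) ^ (199 / 7000 : ℝ) :=
    f4_rough (by norm_num) (by norm_num) (by norm_num) (by omega) (by omega) h5P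
  have h1 := hcount P hPP₁ n hn1
  have hPR : (3 : ℝ) ≤ P := by exact_mod_cast hP3
  have hnR : (n : ℝ) ≤ 3 * P := by exact_mod_cast (by omega : n ≤ 3 * P)
  have hnR2 : (P : ℝ) ≤ n := by exact_mod_cast (by omega : P ≤ n)
  have hLn : Real.log P ≤ Real.log n := Real.log_le_log (by linarith only [hPR]) hnR2
  have h2 : c / 3 * (n : ℝ) / Real.log n ^ 4 ≤ c * (P : ℝ) / Real.log P ^ 4 := by
    have hL0 : 0 < Real.log P := by linarith only [hL]
    apply div_le_div₀ (by positivity)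
    · nlinarith only [hnR, hc]
    · positivity
    · exact pow_le_pow_left₀ hL0.le hLn 4
  refine h2.trans (h1.trans ?_)
  set S : Set ℕ := {x : ℕ | x.Prime ∧ 2 * x ≤ n ∧
      ArithmeticFunction.cardFactors ((x * (n - x)) ^ 2 + x * (n - x) + 1) ≤ 13 ∧
      ∀ l : ℕ, l.Prime → l ∣ (x * (n - x)) ^ 2 + x * (n - x) + 1 →
        (n : ℝ) ^ (1 / 36 : ℝ) ≤ l} with hS
  have hfin : S.Finite := by
    refine (Set.finite_Iic n).subset fun x hx => ?_
    rw [hS, Set.mem_ofPred_eq] at hx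
    rw [Set.mem_Iic]
    omega
  have hsub : ((((Icc 1 P).filter (fun x => x.Prime ∧
        Sft ((P : ℝ) ^ (199 / 7000 : ℝ)) (aG (GG n) x) ∧
        (∀ l ∈ prs ((P : ℝ) ^ (199 / 7000 : ℝ)) ((P : ℝ) ^ (1791 / 4000 : ℝ)), ¬ l ^ 2 ∣ aG (GG n) x) ∧
        0 < Wt ((P : ℝ) ^ (199 / 7000 : ℝ)) ((P : ℝ) ^ (1791 / 4000 : ℝ)) (aG (GG n) x))) : Finset ℕ) :
        Set ℕ) ⊆ S := by
    intro x hx
    rw [mem_coe] at hx
    obtain ⟨hx1, hxp, hx2, hx3, hx4⟩ := mem_filter.1 hx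
    have hx1' := mem_Icc.1 hx1
    have hodd := f4_odd n x
    have hsize := f4_size n P x hP3 hn1 hn2 hx1
    have hpos : 1 ≤ aG (GG n) x := hodd.pos
    obtain ⟨v1, v2⟩ := f5_omega hL (by omega) hpos hsize
    have hom := omega_le _ _ v1 (aG (GG n) x) hodd hx2 hx3 hx4
    have e : (x * (n - x)) ^ 2 + x * (n - x) + 1 = aG (GG n) x := by
      have h5 : ((aG (GG n) x : ℕ) : ℤ) = GG n x := by
        rw [aG]
        exact Int.toNat_of_nonneg (GG_pos n x).le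
      have hxn : x ≤ n := by omega
      have h6 : (((x * (n - x)) ^ 2 + x * (n - x) + 1 : ℕ) : ℤ) = ((aG (GG n) x : ℕ) : ℤ) := by
        rw [h5, GG]
        push_cast [Nat.cast_sub hxn]
        ring
      exact_mod_cast h6
    rw [hS, Set.mem_ofPred_eq, e]
    refine ⟨hxp, by omega, ?_, ?_⟩
    · by_contra hcon
      push Not at hcon
      have h7 : (14 : ℝ) ≤ (ArithmeticFunction.cardFactors (aG (GG n) x) : ℝ) := by exact_mod_cast hcon
      linarith only [hom, v2, h7]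
    · intro l hl hdiv
      refine hrough.trans ?_
      have hl3 : 3 ≤ l := by
        have h8 := hl.two_le
        have hne : l ≠ 2 := by
          rintro rfl
          exact (Nat.not_even_iff_odd.2 hodd) (even_iff_two_dvd.2 hdiv)
        omega
      by_contra hcon
      push Not at hcon
      exact hx2 l hl hl3 hcon hdiv
  rw [← Set.ncard_coe_finset]
  exact_mod_cast Set.ncard_le_ncard hsub hfin

end Pool.Agent.Lib.MP_93793a_nt
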