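import Pool.Agent.Lib.MP_93793a_nt.M2

/-! Sums over primes with the weight `(1 + ch p) / p` and a continuous function. -/

set_option autoImplicit false

namespace Pool.Agent.Lib.MP_93793a_nt

open Finset Pool.Agent.Lib.MP_d9bc60_nt.UV Pool.Agent.Lib.MP_d9bc60_nt.AP

/-- the weight `(1 + ch p) / p` -/
noncomputable def mu (p : ℕ) : ℝ := (1 + ch p) * (1 / (p : ℝ))

theorem mu_nonneg (p : ℕ) : 0 ≤ mu p := by
  unfold mu
  have h := (abs_le.1 (ch_abs p)).1
  exact mul_nonneg (by linarith) (by positivity)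

theorem mertensE (ε : ℝ) (hε : 0 < ε) : ∃ u₀ : ℝ, 2 ≤ u₀ ∧ ∀ u v : ℝ, u₀ ≤ u → u ≤ v →
    |∑ p ∈ prs u v, mu p - Real.log (Real.log v / Real.log u)| ≤ ε := by
  obtain ⟨u₁, h1, hm⟩ := mertens (ε / 2) (by positivity)
  obtain ⟨u₂, h2, hm2⟩ := ch_prs (ε / 2) (by positivity)
  refine ⟨max u₁ u₂, h1.trans (le_max_left _ _), fun u v hu huv => ?_⟩
  have k1 := hm u v ((le_max_left _ _).trans hu) huv
  have k2 := hm2 u v ((le_max_right _ _).trans hu) huv
  have e : ∑ p ∈ prs u v, mu p = ∑ p ∈ prs u v, 1 / (p : ℝ) + ∑ p ∈ prs u v, ch p * (1 / (p : ℝ)) := by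
    rw [← sum_add_distrib]
    refine sum_congr rfl fun p _ => ?_
    unfold mu
    ring
  rw [e]
  rw [abs_le] at k1 k2 ⊢
  constructor <;> linarith [k1.1, k1.2, k2.1, k2.2]

/-- approximation up to `η log(b/a)` -/
def h29_Q (Φ : ℝ → ℝ) (η a b : ℝ) : Prop :=
  ∀ ε : ℝ, 0 < ε → ∃ D₀ : ℝ, 2 ≤ D₀ ∧ ∀ D : ℝ, D₀ ≤ D →
    |∑ p ∈ prs (D ^ a) (D ^ b), Φ (Real.log p / Real.log D) * mu p - ∫ t in a..b, Φ t / t| ≤
      ε + η * Real.log (b / a)

theorem h29_add {Φ : ℝ → ℝ} {η a b c : ℝ} (ha : 0 < a) (hab : a ≤ b) (hbc : b ≤ c)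
    (hΦ : ContinuousOn Φ (Set.Icc a c)) (h1 : h29_Q Φ η a b) (h2 : h29_Q Φ η b c) :
    h29_Q Φ η a c := by
  classical
  intro ε hε
  obtain ⟨D₁, hD₁, k1⟩ := h1 (ε / 2) (by linarith only [hε])
  obtain ⟨D₂, hD₂, k2⟩ := h2 (ε / 2) (by linarith only [hε])
  refine ⟨max D₁ D₂, hD₁.trans (le_max_left _ _), fun D hD => ?_⟩
  have hDD₁ : D₁ ≤ D := (le_max_left _ _).trans hD
  have hD1 : 1 ≤ D := by linarith only [hD₁, hDD₁]
  have e1 : D ^ a ≤ D ^ b := Real.rpow_le_rpow_of_exponent_le hD1 hab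
  have e2 : D ^ b ≤ D ^ c := Real.rpow_le_rpow_of_exponent_le hD1 hbc
  have hun : prs (D ^ a) (D ^ c) = prs (D ^ a) (D ^ b) ∪ prs (D ^ b) (D ^ c) := by
    ext p
    rw [Finset.mem_union, h09_mem_prs, h09_mem_prs, h09_mem_prs]
    constructor
    · rintro ⟨p1, p2, p3⟩
      rcases lt_or_ge (p : ℝ) (D ^ b) with h | h
      · exact Or.inl ⟨p1, p2, h⟩
      · exact Or.inr ⟨p1, h, p3⟩
    · rintro (⟨p1, p2, p3⟩ | ⟨p1, p2, p3⟩)
      · exact ⟨p1, p2, lt_of_lt_of_le p3 e2⟩
      · exact ⟨p1, e1.trans p2, p3⟩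
  have hdis : Disjoint (prs (D ^ a) (D ^ b)) (prs (D ^ b) (D ^ c)) := by
    rw [Finset.disjoint_left]
    intro p hp hp'
    exact absurd (h09_mem_prs.1 hp).2.2 (not_lt.2 (h09_mem_prs.1 hp').2.1)
  have hb : 0 < b := lt_of_lt_of_le ha hab
  have hint : ∫ t in a..c, Φ t / t = (∫ t in a..b, Φ t / t) + ∫ t in b..c, Φ t / t := by
    rw [intervalIntegral.integral_add_adjacent_intervals]
    · exact h09_int ha hab (hΦ.mono (Set.Icc_subset_Icc_right hbc))
    · exact h09_int hb hbc (hΦ.mono (Set.Icc_subset_Icc_left hab))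
  have hlog : Real.log (c / a) = Real.log (b / a) + Real.log (c / b) := by
    have hc : 0 < c := lt_of_lt_of_le hb hbc
    rw [← Real.log_mul (by positivity) (by positivity)]
    congr 1
    field_simp
  rw [hun, Finset.sum_union hdis, hint, hlog]
  have m1 := k1 D hDD₁
  have m2 := k2 D ((le_max_right _ _).trans hD)
  rw [abs_le] at m1 m2 ⊢
  constructor <;> linarith only [m1.1, m1.2, m2.1, m2.2, m1, m2]

theorem h29_piece {Φ : ℝ → ℝ} {η a b : ℝ} (ha : 0 < a) (hab : a ≤ b) (hη : 0 < η)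
    (hΦ : ContinuousOn Φ (Set.Icc a b)) (hvar : ∀ s ∈ Set.Icc a b, |Φ s - Φ a| ≤ η / 2) :
    h29_Q Φ η a b := by
  intro ε hε
  set ε' : ℝ := ε / (η / 2 + |Φ a| + 1) with hε'
  have hden : 0 < η / 2 + |Φ a| + 1 := by positivity
  have hε'0 : 0 < ε' := div_pos hε hden
  obtain ⟨u₀, hu₀, hm⟩ := mertensE ε' hε'0
  have hb : 0 < b := lt_of_lt_of_le ha hab
  refine ⟨max 2 (u₀ ^ (1 / a)), le_max_left _ _, fun D hD => ?_⟩
  have hD2 : 2 ≤ D := (le_max_left _ _).trans hD
  have hD1 : 1 < D := by linarith only [hD2]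
  have hD0 : 0 < D := by linarith only [hD2]
  have hlogD : 0 < Real.log D := Real.log_pos hD1
  have hua : u₀ ≤ D ^ a := by
    have h1 : u₀ ^ (1 / a) ≤ D := (le_max_right _ _).trans hD
    have h2 := Real.rpow_le_rpow (by positivity) h1 ha.le
    rwa [← Real.rpow_mul (by linarith only [hu₀]), one_div_mul_cancel ha.ne', Real.rpow_one] at h2
  have hab' : D ^ a ≤ D ^ b := Real.rpow_le_rpow_of_exponent_le hD1.le hab
  have hS := hm (D ^ a) (D ^ b) hua hab'
  have hloglog : Real.log (Real.log (D ^ b) / Real.log (D ^ a)) = Real.log (b / a) := by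
    rw [Real.log_rpow hD0, Real.log_rpow hD0, mul_div_mul_right _ _ hlogD.ne']
  rw [hloglog] at hS
  set S : ℝ := ∑ p ∈ prs (D ^ a) (D ^ b), mu p with hSdef
  have hlogba : 0 ≤ Real.log (b / a) := Real.log_nonneg (by rw [le_div_iff₀ ha]; linarith only [hab])
  -- first difference
  have d1 : |∑ p ∈ prs (D ^ a) (D ^ b), Φ (Real.log p / Real.log D) * mu p - Φ a * S| ≤ η / 2 * S := by
    rw [hSdef, Finset.mul_sum, Finset.mul_sum, ← Finset.sum_sub_distrib]
    refine (Finset.abs_sum_le_sum_abs _ _).trans (Finset.sum_le_sum fun p hp => ?_)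
    obtain ⟨p1, p2, p3⟩ := h09_mem_prs.1 hp
    have hp0 : (0 : ℝ) < p := by exact_mod_cast p1.pos
    have hmem : Real.log p / Real.log D ∈ Set.Icc a b := by
      constructor
      · rw [le_div_iff₀ hlogD, ← Real.log_rpow hD0]
        exact Real.log_le_log (Real.rpow_pos_of_pos hD0 _) p2
      · rw [div_le_iff₀ hlogD, ← Real.log_rpow hD0]
        exact Real.log_le_log hp0 p3.le
    have h3 := hvar _ hmem
    have h4 : Φ (Real.log p / Real.log D) * mu p - Φ a * mu p =
        (Φ (Real.log p / Real.log D) - Φ a) * mu p := by ring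
    rw [h4, abs_mul, abs_of_nonneg (mu_nonneg p)]
    exact mul_le_mul_of_nonneg_right h3 (mu_nonneg p)
  -- the integral
  have hcont1 : IntervalIntegrable (fun t : ℝ => Φ t / t) MeasureTheory.volume a b :=
    h09_int ha hab hΦ
  have hcont2 : IntervalIntegrable (fun t : ℝ => 1 / t) MeasureTheory.volume a b :=
    h09_int (Φ := fun _ => 1) ha hab continuousOn_const
  have hinv : ∫ t in a..b, 1 / t = Real.log (b / a) := integral_one_div_of_pos ha hb
  have d3 : |Φ a * Real.log (b / a) - ∫ t in a..b, Φ t / t| ≤ η / 2 * Real.log (b / a) := by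
    have h5 : Φ a * Real.log (b / a) - ∫ t in a..b, Φ t / t =
        ∫ t in a..b, (Φ a * (1 / t) - Φ t / t) := by
      rw [intervalIntegral.integral_sub (hcont2.const_mul _) hcont1,
        intervalIntegral.integral_const_mul, hinv]
    have h6 : η / 2 * Real.log (b / a) = ∫ t in a..b, η / 2 * (1 / t) := by
      rw [intervalIntegral.integral_const_mul, hinv]
    rw [h5, h6, ← Real.norm_eq_abs]
    refine intervalIntegral.norm_integral_le_of_norm_le hab ?_ (hcont2.const_mul _)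
    refine Filter.Eventually.of_forall fun t ht => ?_
    have ht0 : 0 < t := lt_trans ha ht.1
    have h7 : Φ a * (1 / t) - Φ t / t = -((Φ t - Φ a) * (1 / t)) := by ring
    rw [h7, Real.norm_eq_abs, abs_neg, abs_mul, abs_of_pos (by positivity : (0 : ℝ) < 1 / t)]
    exact mul_le_mul_of_nonneg_right (hvar t ⟨ht.1.le, ht.2⟩) (by positivity)
  -- the middle
  have d2 : |Φ a * (S - Real.log (b / a))| ≤ |Φ a| * ε' := by
    rw [abs_mul]
    exact mul_le_mul_of_nonneg_left hS (abs_nonneg _)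
  have hS2 : S ≤ Real.log (b / a) + ε' := by
    have := (abs_le.1 hS).2
    linarith only [this]
  have d1' : η / 2 * S ≤ η / 2 * (Real.log (b / a) + ε') :=
    mul_le_mul_of_nonneg_left hS2 (by linarith only [hη])
  have hfin : (η / 2 + |Φ a|) * ε' ≤ ε := by
    rw [hε', mul_div_assoc', div_le_iff₀ hden]
    linarith only [abs_nonneg (Φ a), hε]
  rw [abs_le] at d1 d2 d3 ⊢
  constructor <;> linarith only [d1.1, d1.2, d2.1, d2.2, d3.1, d3.2, d1, d3, d2, d1', hfin]

/-- Proof. Cut `[α, β]` into `n` pieces on which the continuous function `Φ` varies by at most `ε'`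
(uniform continuity); on each piece `mertens` with `ε/n²` (the end points `D^(t_i)` tend to infinity), and
`log(log D^(t_{i+1}) / log D^(t_i)) = log(t_{i+1}/t_i) = ∫ dt/t`. -/
theorem mu_integral (α β : ℝ) (hα : 0 < α) (hαβ : α ≤ β) (Φ : ℝ → ℝ)
    (hΦ : ContinuousOn Φ (Set.Icc α β)) (ε : ℝ) (hε : 0 < ε) : ∃ D₀ : ℝ, 2 ≤ D₀ ∧ ∀ D : ℝ, D₀ ≤ D →
    |∑ p ∈ prs (D ^ α) (D ^ β), Φ (Real.log p / Real.log D) * mu p - ∫ t in α..β, Φ t / t| ≤ ε := by
  have hlogba : 0 ≤ Real.log (β / α) := Real.log_nonneg (by rw [le_div_iff₀ hα]; linarith only [hαβ])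
  set η : ℝ := ε / (2 * (Real.log (β / α) + 1)) with hη
  have hη0 : 0 < η := by positivity
  have hunif := isCompact_Icc.uniformContinuousOn_of_continuous hΦ
  rw [Metric.uniformContinuousOn_iff] at hunif
  obtain ⟨δ, hδ, hunif⟩ := hunif (η / 2) (by linarith only [hη0])
  obtain ⟨n, hn⟩ := exists_nat_gt ((β - α) / δ)
  have hn0 : 0 < (n : ℝ) := lt_of_le_of_lt (div_nonneg (by linarith only [hαβ]) hδ.le) hn
  have hstep : (β - α) / n < δ := by
    rw [div_lt_iff₀ hδ] at hn
    rw [div_lt_iff₀ hn0]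
    linarith only [hn]
  have hstep0 : 0 ≤ (β - α) / n := div_nonneg (by linarith only [hαβ]) hn0.le
  have hle : ∀ i : ℕ, i ≤ n → α + i * ((β - α) / n) ≤ β := by
    intro i hi
    have h1 : (i : ℝ) ≤ n := by exact_mod_cast hi
    have h2 : (i : ℝ) * ((β - α) / n) ≤ n * ((β - α) / n) :=
      mul_le_mul_of_nonneg_right h1 hstep0
    have h3 : (n : ℝ) * ((β - α) / n) = β - α := by field_simp
    linarith only [h2, h3]
  have hge : ∀ i : ℕ, α ≤ α + i * ((β - α) / n) := by
    intro i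
    have : 0 ≤ (i : ℝ) * ((β - α) / n) := mul_nonneg (Nat.cast_nonneg _) hstep0
    linarith only [this]
  have hQ : ∀ i : ℕ, i ≤ n → h29_Q Φ η α (α + i * ((β - α) / n)) := by
    intro i
    induction i with
    | zero =>
      intro _ e he
      refine ⟨2, le_rfl, fun D _ => ?_⟩
      have hem : prs (D ^ α) (D ^ α) = ∅ := by
        apply Finset.eq_empty_of_forall_notMem
        intro p hp
        exact absurd (h09_mem_prs.1 hp).2.1 (not_le.2 (h09_mem_prs.1 hp).2.2)
      rw [Nat.cast_zero, zero_mul, add_zero, hem, Finset.sum_empty,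
        intervalIntegral.integral_same, sub_zero, abs_zero, div_self hα.ne', Real.log_one,
        mul_zero, add_zero]
      exact he.le
    | succ i ih =>
      intro hi
      have h1 := ih (by omega)
      have e1 : α + ((i + 1 : ℕ) : ℝ) * ((β - α) / n) =
          (α + i * ((β - α) / n)) + (β - α) / n := by
        push_cast
        ring
      have h2 := hle (i + 1) hi
      have h3 := hge i
      rw [e1] at h2 ⊢
      have hposi : 0 < α + i * ((β - α) / n) := by linarith only [hα, h3]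
      refine h29_add hα h3 (by linarith only [hstep0]) (hΦ.mono (Set.Icc_subset_Icc_right h2)) h1 ?_
      apply h29_piece hposi (by linarith only [hstep0]) hη0
      · exact hΦ.mono (Set.Icc_subset_Icc h3 h2)
      · intro s hs
        have h4 := hunif s ⟨by linarith only [hs.1, h3, hs], by linarith only [hs.2, h2, hs]⟩ (α + i * ((β - α) / n))
          ⟨h3, by linarith only [hstep0, h2]⟩ (by
            rw [Real.dist_eq, abs_of_nonneg (by linarith only [hs.1, hs])]
            linarith only [hs.2, hstep, hs])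
        rw [Real.dist_eq] at h4
        exact h4.le
  have hfinal := hQ n le_rfl
  have e2 : α + (n : ℝ) * ((β - α) / n) = β := by
    field_simp
    ring
  rw [e2] at hfinal
  obtain ⟨D₀, hD₀, h5⟩ := hfinal (ε / 2) (by linarith only [hε])
  refine ⟨D₀, hD₀, fun D hD => (h5 D hD).trans ?_⟩
  have h6 : η * Real.log (β / α) ≤ ε / 2 := by
    rw [hη, div_mul_eq_mul_div, div_le_iff₀ (by positivity)]
    linarith only [hε]
  linarith only [h6]


end Pool.Agent.Lib.MP_93793a_nt
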